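import Pool.Agent.helper237_FT4.Stmts

/-!
# Linearity and monotonicity of `opY` and `opN` (shared auxiliary lemmas, helper416)
-/

set_option autoImplicit false

open scoped ENNReal BigOperators

namespace FT4.Lin

theorem opY_tsum {ι : Type} (Q : Par) (h : Fin 3) (F : ι → ℕ → Fin 3 → ℝ≥0∞) :
    opY Q h (fun y h' => ∑' i, F i y h') = ∑' i, opY Q h (F i) := by
  unfold opY
  have key : ∀ (q : ℕ → ℝ≥0∞) (k : Fin 3),
      ∑' y, q y * ∑' i, F i y k = ∑' i, ∑' y, q y * F i y k := by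
    intro q k
    rw [ENNReal.tsum_comm]
    exact tsum_congr fun y => ENNReal.tsum_mul_left.symm
  split_ifs with h0 h1
  · exact key _ _
  · rw [key, ENNReal.tsum_add, ENNReal.tsum_mul_left, ENNReal.tsum_mul_left]
  · rw [key, ENNReal.tsum_add, ENNReal.tsum_mul_left, ENNReal.tsum_mul_left]

theorem opY_add (Q : Par) (h : Fin 3) (F G : ℕ → Fin 3 → ℝ≥0∞) :
    opY Q h (fun y h' => F y h' + G y h') = opY Q h F + opY Q h G := by
  unfold opY
  have key : ∀ (q : ℕ → ℝ≥0∞) (k : Fin 3),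
      ∑' y, q y * (F y k + G y k) = ∑' y, q y * F y k + ∑' y, q y * G y k := by
    intro q k
    rw [← ENNReal.tsum_add]
    exact tsum_congr fun y => mul_add _ _ _
  split_ifs with h0 h1
  · exact key _ _
  · rw [key]; ring
  · rw [key]; ring

theorem opY_mul_left (Q : Par) (h : Fin 3) (c : ℝ≥0∞) (F : ℕ → Fin 3 → ℝ≥0∞) :
    opY Q h (fun y h' => c * F y h') = c * opY Q h F := by
  unfold opY
  have key : ∀ (q : ℕ → ℝ≥0∞) (k : Fin 3),
      ∑' y, q y * (c * F y k) = c * ∑' y, q y * F y k := by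
    intro q k
    rw [← ENNReal.tsum_mul_left]
    exact tsum_congr fun y => mul_left_comm _ _ _
  split_ifs with h0 h1
  · exact key _ _
  · rw [key]; ring
  · rw [key]; ring

theorem opY_mono (Q : Par) (h : Fin 3) (F G : ℕ → Fin 3 → ℝ≥0∞) (hFG : ∀ y k, F y k ≤ G y k) :
    opY Q h F ≤ opY Q h G := by
  unfold opY
  have key : ∀ (q : ℕ → ℝ≥0∞) (k : Fin 3),
      ∑' y, q y * F y k ≤ ∑' y, q y * G y k :=
    fun q k => ENNReal.tsum_le_tsum fun y => mul_le_mul_right (hFG y k) (q y)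
  split_ifs with h0 h1
  · exact key _ _
  · exact add_le_add (mul_le_mul_right (hFG 1 1) _) (mul_le_mul_right (key _ _) _)
  · exact add_le_add (mul_le_mul_right (hFG 1 2) _) (mul_le_mul_right (key _ _) _)

theorem fifth_add : (1 : ℝ≥0∞) / 5 + 4 / 5 = 1 := by
  rw [← ENNReal.add_div]
  norm_num
  exact ENNReal.div_self (by norm_num) (by norm_num)

theorem opY_const (Q : Par) (hQ : Norm Q) (h : Fin 3) (C : ℝ≥0∞) : opY Q h (fun _ _ => C) = C := by
  unfold opY
  have key : ∀ k : Fin 3, ∑' y, Q.q k y * C = C := by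
    intro k
    rw [ENNReal.tsum_mul_right, hQ k, one_mul]
  split_ifs with h0 h1
  · exact key _
  · rw [key, ← add_mul, fifth_add, one_mul]
  · rw [key, ← add_mul, fifth_add, one_mul]

theorem opN_tsum {ι : Type} (Q : Par) (n : CS) (F : ι → ℕ → CS → ℝ≥0∞) :
    opN Q n (fun y m => ∑' i, F i y m) = ∑' i, opN Q n (F i) := by
  unfold opN
  rw [opY_tsum Q 0 (fun i y _ => F i y (t01 n)),
    opY_tsum Q 1 (fun i y h => F i y (if h = 1 then n else t12 n)),
    opY_tsum Q 2 (fun i y _ => F i y n), ENNReal.tsum_add, ENNReal.tsum_add,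
    ENNReal.tsum_mul_left, ENNReal.tsum_mul_left, ENNReal.tsum_mul_left]

theorem opN_add (Q : Par) (n : CS) (F G : ℕ → CS → ℝ≥0∞) :
    opN Q n (fun y m => F y m + G y m) = opN Q n F + opN Q n G := by
  unfold opN
  rw [opY_add Q 0 (fun y _ => F y (t01 n)) (fun y _ => G y (t01 n)),
    opY_add Q 1 (fun y h => F y (if h = 1 then n else t12 n))
      (fun y h => G y (if h = 1 then n else t12 n)),
    opY_add Q 2 (fun y _ => F y n) (fun y _ => G y n)]
  ring

theorem opN_mul_left (Q : Par) (n : CS) (c : ℝ≥0∞) (F : ℕ → CS → ℝ≥0∞) :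
    opN Q n (fun y m => c * F y m) = c * opN Q n F := by
  unfold opN
  rw [opY_mul_left Q 0 c (fun y _ => F y (t01 n)),
    opY_mul_left Q 1 c (fun y h => F y (if h = 1 then n else t12 n)),
    opY_mul_left Q 2 c (fun y _ => F y n)]
  ring

theorem opN_mul_right (Q : Par) (n : CS) (c : ℝ≥0∞) (F : ℕ → CS → ℝ≥0∞) :
    opN Q n (fun y m => F y m * c) = opN Q n F * c := by
  rw [mul_comm, ← opN_mul_left]
  congr 1
  funext y m
  exact mul_comm _ _

theorem opN_sum {ι : Type} (s : Finset ι) (Q : Par) (n : CS) (F : ι → ℕ → CS → ℝ≥0∞) :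
    opN Q n (fun y m => ∑ i ∈ s, F i y m) = ∑ i ∈ s, opN Q n (F i) := by
  classical
  induction s using Finset.induction_on with
  | empty =>
    simp only [Finset.sum_empty]
    have := opN_mul_left Q n 0 (fun _ _ => 0)
    simpa using this
  | insert a s ha ih =>
    simp only [Finset.sum_insert ha]
    rw [opN_add Q n (F a) (fun y m => ∑ i ∈ s, F i y m), ih]

theorem opN_mono (Q : Par) (n : CS) (F G : ℕ → CS → ℝ≥0∞) (hFG : ∀ y m, F y m ≤ G y m) :
    opN Q n F ≤ opN Q n G := by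
  unfold opN
  refine add_le_add (add_le_add ?_ ?_) ?_
  · exact mul_le_mul_right (opY_mono _ _ _ _ fun y _ => hFG y _) _
  · exact mul_le_mul_right (opY_mono _ _ _ _ fun y h => hFG y _) _
  · exact mul_le_mul_right (opY_mono _ _ _ _ fun y _ => hFG y _) _

theorem abc_sum (n : CS) : aN n + bN n + cN n = 4 := by
  revert n; decide

theorem opN_const (Q : Par) (hQ : Norm Q) (n : CS) (C : ℝ≥0∞) : opN Q n (fun _ _ => C) = 4 * C := by
  unfold opN
  rw [opY_const Q hQ, opY_const Q hQ, opY_const Q hQ, ← add_mul, ← add_mul]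
  congr 1
  exact_mod_cast congrArg (fun k : ℕ => (k : ℝ≥0∞)) (abc_sum n)

end FT4.Lin
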