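import Pool.Agent.helper237_FT4.Stmts
import Pool.Agent.helper237_FT4.Lin

/-!
# FT4: decomposition at the completion of the current entry
-/

set_option autoImplicit false

open scoped ENNReal BigOperators

namespace FT4

namespace D_aux

theorem cnt_cards : ∀ a b c d : Fin 3,
    ((Finset.univ.filter fun i => (![a, b, c, d] : Fin 4 → Fin 3) i = 0).card = aN (cntS ![a, b, c, d]) ∧
    (Finset.univ.filter fun i => (![a, b, c, d] : Fin 4 → Fin 3) i = 1).card = bN (cntS ![a, b, c, d]) ∧
    (Finset.univ.filter fun i => (![a, b, c, d] : Fin 4 → Fin 3) i = 2).card = cN (cntS ![a, b, c, d])) := by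
  decide +kernel

theorem cnt_upd : ∀ a b c d : Fin 3, ∀ i : Fin 4,
    ((![a, b, c, d] : Fin 4 → Fin 3) i = 0 →
      cntS (Function.update ![a, b, c, d] i 1) = t01 (cntS ![a, b, c, d])) ∧
    ((![a, b, c, d] : Fin 4 → Fin 3) i = 1 →
      cntS (Function.update ![a, b, c, d] i 2) = t12 (cntS ![a, b, c, d])) := by
  decide +kernel

theorem vec_eq (s : Fin 4 → Fin 3) : s = ![s 0, s 1, s 2, s 3] := by
  funext i
  fin_cases i <;> rfl

theorem cards (s : Fin 4 → Fin 3) :
    (Finset.univ.filter fun i => s i = 0).card = aN (cntS s) ∧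
    (Finset.univ.filter fun i => s i = 1).card = bN (cntS s) ∧
    (Finset.univ.filter fun i => s i = 2).card = cN (cntS s) := by
  have h := cnt_cards (s 0) (s 1) (s 2) (s 3)
  rw [← vec_eq s] at h
  exact h

theorem upd0 (s : Fin 4 → Fin 3) (i : Fin 4) (hi : s i = 0) :
    cntS (Function.update s i 1) = t01 (cntS s) := by
  have h := (cnt_upd (s 0) (s 1) (s 2) (s 3) i).1
  rw [← vec_eq s] at h
  exact h hi

theorem upd1 (s : Fin 4 → Fin 3) (i : Fin 4) (hi : s i = 1) :
    cntS (Function.update s i 2) = t12 (cntS s) := by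
  have h := (cnt_upd (s 0) (s 1) (s 2) (s 3) i).2
  rw [← vec_eq s] at h
  exact h hi

/-- the sum over the labelled children is the operator on count states -/
theorem sum_children (Q : Par) (s : Fin 4 → Fin 3) (F : ℕ → CS → ℝ≥0∞) :
    ∑ c : Fin 4, opY Q (s c) (fun y h => F y (cntS (Function.update s c h))) =
      opN Q (cntS s) F := by
  have key : ∀ c : Fin 4, opY Q (s c) (fun y h => F y (cntS (Function.update s c h))) =
      (if s c = 0 then opY Q 0 (fun y _ => F y (t01 (cntS s))) else 0) +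
      (if s c = 1 then opY Q 1 (fun y h => F y (if h = 1 then cntS s else t12 (cntS s))) else 0) +
      (if s c = 2 then opY Q 2 (fun y _ => F y (cntS s)) else 0) := by
    intro c
    have h3 : s c = 0 ∨ s c = 1 ∨ s c = 2 := by
      generalize s c = k
      revert k; decide
    rcases h3 with h | h | h
    · simp only [h, if_true, Fin.isValue]
      have e : opY Q 0 (fun y h => F y (cntS (Function.update s c h))) =
          opY Q 0 (fun y _ => F y (t01 (cntS s))) := by
        unfold opY
        simp only [if_true, upd0 s c h]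
      rw [e]
      simp
    · simp only [h, if_true, Fin.isValue]
      have hu : Function.update s c 1 = s := by rw [← h]; exact Function.update_eq_self c s
      have e : opY Q 1 (fun y h => F y (cntS (Function.update s c h))) =
          opY Q 1 (fun y h => F y (if h = 1 then cntS s else t12 (cntS s))) := by
        unfold opY
        simp [upd1 s c h, hu]
      rw [e]
      simp
    · simp only [h, if_true, Fin.isValue]
      have hu : Function.update s c 2 = s := by rw [← h]; exact Function.update_eq_self c s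
      have e : opY Q 2 (fun y h => F y (cntS (Function.update s c h))) =
          opY Q 2 (fun y _ => F y (cntS s)) := by
        unfold opY
        simp [hu]
      rw [e]
      simp
  rw [Finset.sum_congr rfl fun c _ => key c, Finset.sum_add_distrib, Finset.sum_add_distrib,
    ← Finset.sum_filter, ← Finset.sum_filter, ← Finset.sum_filter, Finset.sum_const,
    Finset.sum_const, Finset.sum_const, (cards s).1, (cards s).2.1, (cards s).2.2]
  unfold opN
  simp only [nsmul_eq_mul]

/-- the right-hand side -/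
noncomputable def R (Q : Par) (U : ℕ → (Fin 4 → Fin 3) → ((ℕ → ℕ) → ℝ≥0∞) → ℝ≥0∞)
    (H : (ℕ → ℕ) → ℝ≥0∞) (C : ℝ≥0∞) (L p : ℕ) (n : CS) : ℝ≥0∞ :=
  (∑' x, ∑ n', Mk Q L p n x n' * Zh U n' (fun F => H (fun j => x + F j))) + C * Ik Q L p n

theorem R_zero (Q : Par) (U : ℕ → (Fin 4 → Fin 3) → ((ℕ → ℕ) → ℝ≥0∞) → ℝ≥0∞)
    (H : (ℕ → ℕ) → ℝ≥0∞) (C : ℝ≥0∞) (L : ℕ) (s : Fin 4 → Fin 3) :
    U 0 s H ≤ R Q U H C L 0 (cntS s) := by
  have hM : ∀ x n', Mk Q L 0 (cntS s) x n' = if x = 0 ∧ n' = cntS s then 1 else 0 := by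
    intro x n'
    cases L <;> simp [Mk]
  unfold R
  refine le_trans ?_ le_self_add
  have h1 : U 0 s H ≤ Zh U (cntS s) (fun F => H (fun j => 0 + F j)) := by
    have h2 : (fun F : ℕ → ℕ => H (fun j => 0 + F j)) = H := by
      funext F
      congr 1
      funext j
      exact Nat.zero_add _
    rw [h2]
    unfold Zh
    exact le_iSup₂ (f := fun (s' : Fin 4 → Fin 3) (_ : cntS s' = cntS s) => U 0 s' H) s rfl
  refine h1.trans ?_
  refine le_trans ?_ (ENNReal.le_tsum 0)
  refine le_trans ?_ (Finset.single_le_sum (f := fun n' => Mk Q L 0 (cntS s) 0 n' *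
    Zh U n' (fun F => H (fun j => 0 + F j))) (fun _ _ => bot_le) (Finset.mem_univ (cntS s)))
  rw [hM]
  simp

theorem R_succ (Q : Par) (U : ℕ → (Fin 4 → Fin 3) → ((ℕ → ℕ) → ℝ≥0∞) → ℝ≥0∞)
    (H : (ℕ → ℕ) → ℝ≥0∞) (C : ℝ≥0∞) (L p : ℕ) (n : CS) :
    R Q U H C (L + 1) (p + 1) n =
      1 / 5 * R Q U (fun F => H (fun j => 1 + F j)) C L p n +
      1 / 5 * opN Q n (fun y m => R Q U H C L (p + y) m) := by
  have e1 : opN Q n (fun y m => R Q U H C L (p + y) m) =
      (∑' x, ∑ n', opN Q n (fun y m => Mk Q L (p + y) m x n') *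
        Zh U n' (fun F => H (fun j => x + F j))) + C * opN Q n (fun y m => Ik Q L (p + y) m) := by
    unfold R
    rw [Lin.opN_add Q n (fun y m => ∑' x, ∑ n', Mk Q L (p + y) m x n' *
        Zh U n' (fun F => H (fun j => x + F j))) (fun y m => C * Ik Q L (p + y) m),
      Lin.opN_mul_left Q n C (fun y m => Ik Q L (p + y) m),
      Lin.opN_tsum Q n (fun x y m => ∑ n', Mk Q L (p + y) m x n' *
        Zh U n' (fun F => H (fun j => x + F j)))]
    congr 1
    refine tsum_congr fun x => ?_
    rw [Lin.opN_sum Finset.univ Q n (fun n' y m => Mk Q L (p + y) m x n' *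
        Zh U n' (fun F => H (fun j => x + F j)))]
    exact Finset.sum_congr rfl fun n' _ => Lin.opN_mul_right Q n _ _
  have e2 : ∀ x n', Mk Q (L + 1) (p + 1) n x n' = 1 / 5 * (if x = 0 then 0 else Mk Q L p n (x - 1) n') +
      1 / 5 * opN Q n (fun y m => Mk Q L (p + y) m x n') := by
    intro x n'
    simp [Mk]
  have e3 : Ik Q (L + 1) (p + 1) n = 1 / 5 * Ik Q L p n + 1 / 5 * opN Q n (fun y m => Ik Q L (p + y) m) := by
    simp [Ik]
  have e4 : (∑' x, ∑ n', (if x = 0 then 0 else Mk Q L p n (x - 1) n') *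
      Zh U n' (fun F => H (fun j => x + F j))) =
      ∑' x, ∑ n', Mk Q L p n x n' * Zh U n' (fun F => H (fun j => 1 + (x + F j))) := by
    rw [tsum_eq_zero_add' ENNReal.summable]
    have h0 : ∑ n' : CS, (if (0 : ℕ) = 0 then 0 else Mk Q L p n (0 - 1) n') *
        Zh U n' (fun F => H (fun j => 0 + F j)) = 0 := by simp
    rw [h0, zero_add]
    refine tsum_congr fun x => Finset.sum_congr rfl fun n' _ => ?_
    rw [if_neg (Nat.succ_ne_zero x), Nat.add_sub_cancel]
    congr 2
    funext F
    congr 1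
    funext j
    ring
  rw [e1]
  unfold R
  rw [e3, ← e4]
  have e5 : (∑' x, ∑ n', Mk Q (L + 1) (p + 1) n x n' * Zh U n' (fun F => H (fun j => x + F j))) =
      1 / 5 * (∑' x, ∑ n', (if x = 0 then 0 else Mk Q L p n (x - 1) n') *
        Zh U n' (fun F => H (fun j => x + F j))) +
      1 / 5 * ∑' x, ∑ n', opN Q n (fun y m => Mk Q L (p + y) m x n') *
        Zh U n' (fun F => H (fun j => x + F j)) := by
    rw [← ENNReal.tsum_mul_left, ← ENNReal.tsum_mul_left, ← ENNReal.tsum_add]
    refine tsum_congr fun x => ?_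
    rw [Finset.mul_sum, Finset.mul_sum, ← Finset.sum_add_distrib]
    refine Finset.sum_congr rfl fun n' _ => ?_
    rw [e2]
    ring
  rw [e5]
  ring

theorem main (Q : Par) (U : ℕ → (Fin 4 → Fin 3) → ((ℕ → ℕ) → ℝ≥0∞) → ℝ≥0∞) (hU : UAx Q U)
    (C : ℝ≥0∞) (L : ℕ) : ∀ (H : (ℕ → ℕ) → ℝ≥0∞), Monotone H → (∀ F, H F ≤ C) →
    ∀ (p : ℕ) (s : Fin 4 → Fin 3), U p s H ≤ R Q U H C L p (cntS s) := by
  induction L with
  | zero =>
    intro H hH hC p s
    rcases Nat.eq_zero_or_pos p with rfl | hp
    · exact R_zero Q U H C 0 s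
    · unfold R
      refine (hU.bdd p s H C hC).trans (le_trans ?_ le_add_self)
      simp [Ik, hp.ne']
  | succ L ih =>
    intro H hH hC p s
    rcases p with _ | p
    · exact R_zero Q U H C (L + 1) s
    · rw [R_succ]
      refine (hU.step p s H hH).trans (add_le_add ?_ ?_)
      · refine mul_le_mul_right (ih _ ?_ ?_ p s) _
        · intro F F' hF
          exact hH fun j => Nat.add_le_add_left (hF j) 1
        · exact fun F => hC _
      · rw [← Finset.mul_sum]
        refine mul_le_mul_right ?_ _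
        rw [← sum_children Q s (fun y m => R Q U H C L (p + y) m)]
        refine Finset.sum_le_sum fun c _ => Lin.opY_mono _ _ _ _ fun y h => ?_
        exact ih H hH hC (p + y) (Function.update s c h)

end D_aux

theorem t_D : S_D := fun Q U _ hU H C hH hC L p s => D_aux.main Q U hU C L H hH hC p s

end FT4
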