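import Pool.Agent.helper237_FT4.Stmts
import Pool.Agent.helper237_FT4.Lin

/-!
# FT4: the runs are completed: the probability of an unfinished run decays like `1 / L`
-/

set_option autoImplicit false

open scoped ENNReal BigOperators

namespace FT4

namespace Ibd_aux

/-- a weighted geometric series -/
theorem geo7 : ∑' j : ℕ, ((1 : ℝ≥0∞) / 2) ^ (j + 1) * ((6 + j : ℕ) : ℝ≥0∞) = 7 := by
  have hs : HasSum (fun j : ℕ => ((1 : ℝ) / 2) ^ (j + 1) * ((6 + j : ℕ) : ℝ)) 7 := by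
    have h1 : HasSum (fun j : ℕ => ((1 : ℝ) / 2) ^ j) 2 := by
      have := hasSum_geometric_of_lt_one (r := (1 : ℝ) / 2) (by norm_num) (by norm_num)
      rwa [show ((1 : ℝ) - 1 / 2)⁻¹ = 2 by norm_num] at this
    have h2 : HasSum (fun j : ℕ => (j : ℝ) * ((1 : ℝ) / 2) ^ j) 2 := by
      have := hasSum_coe_mul_geometric_of_norm_lt_one (r := (1 : ℝ) / 2)
        (by rw [Real.norm_of_nonneg (by norm_num)]; norm_num)
      rwa [show (1 : ℝ) / 2 / (1 - 1 / 2) ^ 2 = 2 by norm_num] at this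
    have h3 := (h1.mul_left 3).add (h2.mul_left (1 / 2))
    rw [show (3 : ℝ) * 2 + 1 / 2 * 2 = 7 by norm_num] at h3
    have e : (fun j : ℕ => ((1 : ℝ) / 2) ^ (j + 1) * ((6 + j : ℕ) : ℝ)) =
        fun b : ℕ => 3 * (1 / 2) ^ b + 1 / 2 * ((b : ℝ) * (1 / 2) ^ b) := by
      funext j
      push_cast
      ring
    rw [e]
    exact h3
  have h7 : ((7 : ℝ≥0∞)) = ENNReal.ofReal 7 := by norm_num
  rw [h7, ← hs.tsum_eq, ENNReal.ofReal_tsum_of_nonneg (fun j => by positivity) hs.summable]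
  refine tsum_congr fun j => ?_
  rw [ENNReal.ofReal_mul (by positivity), ENNReal.ofReal_pow (by norm_num), ENNReal.ofReal_natCast]
  congr 2
  rw [ENNReal.ofReal_div_of_pos (by norm_num)]
  norm_num

theorem mean_tail (Q : Par) (K : Cert Q) (h : Fin 3) :
    ∑' y, Q.q h y * (y : ℝ≥0∞) = ∑ z ∈ Finset.range 6, (z : ℝ≥0∞) * K.T h z + 7 * K.T h 6 := by
  have h1 : ∑' y, Q.q h y * (y : ℝ≥0∞) = ∑ y ∈ Finset.range 6, Q.q h y * (y : ℝ≥0∞) +
      ∑' j, Q.q h (j + 6) * ((j + 6 : ℕ) : ℝ≥0∞) :=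
    (ENNReal.summable.sum_add_tsum_nat_add' (k := 6) (f := fun y => Q.q h y * (y : ℝ≥0∞))).symm
  rw [h1]
  congr 1
  · refine Finset.sum_congr rfl fun y hy => ?_
    rw [K.q_lt h y (Finset.mem_range.1 hy), mul_comm]
  · have h2 : ∀ j : ℕ, Q.q h (j + 6) * ((j + 6 : ℕ) : ℝ≥0∞) =
        K.T h 6 * (((1 : ℝ≥0∞) / 2) ^ (j + 1) * ((6 + j : ℕ) : ℝ≥0∞)) := by
      intro j
      rw [add_comm j 6, K.q_ge, mul_assoc]
    rw [tsum_congr h2, ENNReal.tsum_mul_left, geo7, mul_comm]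

theorem mean_opY (Q : Par) (K : Cert Q) (h : Fin 3) :
    opY Q h (fun y _ => (y : ℝ≥0∞)) ≤ 24 / 25 := by
  have h3 : h = 0 ∨ h = 1 ∨ h = 2 := by revert h; decide
  rcases h3 with rfl | rfl | rfl
  · have : opY Q 0 (fun y _ => (y : ℝ≥0∞)) = ∑' y, Q.q 0 y * (y : ℝ≥0∞) := by simp [opY]
    rw [this, mean_tail Q K]
    exact K.mean0
  · have : opY Q 1 (fun y _ => (y : ℝ≥0∞)) = 1 / 5 + 4 / 5 * ∑' y, Q.q 1 y * (y : ℝ≥0∞) := by
      simp [opY]
    rw [this, mean_tail Q K]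
    exact K.mean1
  · have : opY Q 2 (fun y _ => (y : ℝ≥0∞)) = 1 / 5 + 4 / 5 * ∑' y, Q.q 2 y * (y : ℝ≥0∞) := by
      simp [opY]
    rw [this, mean_tail Q K]
    exact K.mean2

theorem mean_opN (Q : Par) (K : Cert Q) (n : CS) :
    opN Q n (fun y _ => (y : ℝ≥0∞)) ≤ 4 * (24 / 25) := by
  unfold opN
  have h := Lin.abc_sum n
  calc _ ≤ (aN n : ℝ≥0∞) * (24 / 25) + (bN n : ℝ≥0∞) * (24 / 25) + (cN n : ℝ≥0∞) * (24 / 25) :=
        add_le_add (add_le_add (mul_le_mul_right (mean_opY Q K 0) _)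
          (mul_le_mul_right (mean_opY Q K 1) _)) (mul_le_mul_right (mean_opY Q K 2) _)
    _ = 4 * (24 / 25) := by
        rw [← add_mul, ← add_mul]
        congr 1
        exact_mod_cast congrArg (fun k : ℕ => (k : ℝ≥0∞)) h

theorem Ik_zero (Q : Par) (L : ℕ) (n : CS) : Ik Q L 0 n = 0 := by
  cases L <;> simp [Ik]

theorem Ik_succ (Q : Par) (L p : ℕ) (n : CS) : Ik Q (L + 1) (p + 1) n =
    1 / 5 * Ik Q L p n + 1 / 5 * opN Q n (fun y m => Ik Q L (p + y) m) := by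
  simp [Ik]

theorem fifth4 : (1 : ℝ≥0∞) / 5 + 1 / 5 * 4 = 1 := by
  have : (1 : ℝ≥0∞) / 5 * 4 = 4 / 5 := by rw [one_div, mul_comm, div_eq_mul_inv]
  rw [this, Lin.fifth_add]

theorem Ik_le_one (Q : Par) (hQ : Norm Q) (L : ℕ) : ∀ (p : ℕ) (n : CS), Ik Q L p n ≤ 1 := by
  induction L with
  | zero =>
    intro p n
    simp only [Ik]
    split_ifs <;> simp
  | succ L ih =>
    intro p n
    rcases p with _ | p
    · rw [Ik_zero]; exact bot_le
    · rw [Ik_succ]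
      calc _ ≤ 1 / 5 * 1 + 1 / 5 * opN Q n (fun _ _ => 1) :=
            add_le_add (mul_le_mul_right (ih p n) _)
              (mul_le_mul_right (Lin.opN_mono _ _ _ _ fun y m => ih (p + y) m) _)
        _ = 1 := by rw [Lin.opN_const Q hQ, mul_one, mul_one, fifth4]

theorem Ik_anti (Q : Par) (hQ : Norm Q) (L : ℕ) : ∀ (p : ℕ) (n : CS),
    Ik Q (L + 1) p n ≤ Ik Q L p n := by
  induction L with
  | zero =>
    intro p n
    rcases p with _ | p
    · rw [Ik_zero]; exact bot_le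
    · refine (Ik_le_one Q hQ _ _ _).trans ?_
      simp [Ik]
  | succ L ih =>
    intro p n
    rcases p with _ | p
    · rw [Ik_zero]; exact bot_le
    · rw [Ik_succ, Ik_succ]
      exact add_le_add (mul_le_mul_right (ih p n) _)
        (mul_le_mul_right (Lin.opN_mono _ _ _ _ fun y m => ih (p + y) m) _)

theorem Ik_antitone (Q : Par) (hQ : Norm Q) (p : ℕ) (n : CS) : Antitone fun L => Ik Q L p n :=
  antitone_nat_of_succ_le fun L => Ik_anti Q hQ L p n

theorem num (p : ℕ) : (1 : ℝ≥0∞) + (1 / 5 * (25 * p) + 1 / 5 * (25 * (4 * p + 4 * (24 / 25)))) ≤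
    25 * ((p + 1 : ℕ) : ℝ≥0∞) := by
  have h5 : (1 : ℝ≥0∞) / 5 * 25 = 5 := by
    have h55 : (25 : ℝ≥0∞) = 5 * 5 := by norm_num
    rw [h55, ← mul_assoc, ENNReal.div_mul_cancel (by norm_num) (by norm_num), one_mul]
  have h6 : (4 : ℝ≥0∞) * (24 / 25) ≤ 4 := by
    calc (4 : ℝ≥0∞) * (24 / 25) ≤ 4 * 1 := by
          refine mul_le_mul_right ?_ _
          exact ENNReal.div_le_of_le_mul (by norm_num)
      _ = 4 := mul_one _
  calc (1 : ℝ≥0∞) + (1 / 5 * (25 * p) + 1 / 5 * (25 * (4 * p + 4 * (24 / 25))))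
      ≤ 1 + (1 / 5 * (25 * p) + 1 / 5 * (25 * (4 * p + 4))) := by
        gcongr
    _ = 1 + ((1 / 5 * 25) * p + (1 / 5 * 25) * (4 * p + 4)) := by ring
    _ = 1 + (5 * p + 5 * (4 * p + 4)) := by rw [h5]
    _ ≤ 25 * ((p + 1 : ℕ) : ℝ≥0∞) := by
        have h7 : (1 + (5 * p + 5 * (4 * p + 4)) : ℕ) ≤ 25 * (p + 1) := by omega
        exact_mod_cast h7

theorem sum_bd (Q : Par) (K : Cert Q) (hQ : Norm Q) (L : ℕ) : ∀ (p : ℕ) (n : CS),
    ∑ l ∈ Finset.range L, Ik Q l p n ≤ 25 * p := by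
  induction L with
  | zero => intro p n; simp
  | succ L ih =>
    intro p n
    rcases p with _ | p
    · simp [Ik_zero]
    · rw [Finset.sum_range_succ']
      have e1 : ∑ l ∈ Finset.range L, Ik Q (l + 1) (p + 1) n =
          1 / 5 * ∑ l ∈ Finset.range L, Ik Q l p n +
          1 / 5 * opN Q n (fun y m => ∑ l ∈ Finset.range L, Ik Q l (p + y) m) := by
        rw [Lin.opN_sum (Finset.range L) Q n (fun l y m => Ik Q l (p + y) m), Finset.mul_sum,
          Finset.mul_sum, ← Finset.sum_add_distrib]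
        exact Finset.sum_congr rfl fun l _ => Ik_succ Q l p n
      have e2 : Ik Q 0 (p + 1) n = 1 := by simp [Ik]
      have e3 : opN Q n (fun y m => ∑ l ∈ Finset.range L, Ik Q l (p + y) m) ≤
          25 * (4 * p + 4 * (24 / 25)) := by
        calc _ ≤ opN Q n (fun y _ => 25 * ((p : ℝ≥0∞) + (y : ℝ≥0∞))) :=
              Lin.opN_mono _ _ _ _ fun y m => (ih (p + y) m).trans (le_of_eq (by push_cast; rfl))
          _ = 25 * (opN Q n (fun _ _ => (p : ℝ≥0∞)) + opN Q n (fun y _ => (y : ℝ≥0∞))) := by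
              rw [Lin.opN_mul_left Q n 25 (fun y _ => (p : ℝ≥0∞) + (y : ℝ≥0∞)),
                Lin.opN_add Q n (fun _ _ => (p : ℝ≥0∞)) (fun y _ => (y : ℝ≥0∞))]
          _ ≤ 25 * (4 * p + 4 * (24 / 25)) := by
              rw [Lin.opN_const Q hQ]
              exact mul_le_mul_right (add_le_add le_rfl (mean_opN Q K n)) _
      rw [e1, e2, add_comm]
      refine le_trans (add_le_add le_rfl (add_le_add (mul_le_mul_right (ih p n) _)
        (mul_le_mul_right e3 _))) (num p)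

end Ibd_aux

theorem t_Ibd (he : S_ey) : S_Ibd := by
  intro Q hQ L p n
  obtain ⟨K⟩ := hQ
  have hN : Norm Q := he.1 Q ⟨K⟩
  refine le_trans ?_ (Ibd_aux.sum_bd Q K hN L p n)
  calc (L : ℝ≥0∞) * Ik Q L p n = ∑ _l ∈ Finset.range L, Ik Q L p n := by
        rw [Finset.sum_const, Finset.card_range, nsmul_eq_mul]
    _ ≤ ∑ l ∈ Finset.range L, Ik Q l p n :=
        Finset.sum_le_sum fun l hl => Ibd_aux.Ik_antitone Q hN p n (Finset.mem_range.1 hl).le

end FT4
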