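import Pool.Agent.helper237_FT4.Stmts

/-!
# Frog model on the 4-ary tree: the certificate bounds the weights of completed runs
-/

set_option autoImplicit false

open scoped ENNReal BigOperators

namespace FT4

namespace Wb_aux

/-! ### linearity of the one step operators -/

theorem opY_mono (Q : Par) (h : Fin 3) {F F' : ℕ → Fin 3 → ℝ≥0∞} (hF : ∀ y h', F y h' ≤ F' y h') :
    opY Q h F ≤ opY Q h F' := by
  unfold opY
  split_ifs
  · exact ENNReal.tsum_le_tsum fun y => mul_le_mul_right (hF y 1) _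
  · exact add_le_add (mul_le_mul_right (hF 1 1) _)
      (mul_le_mul_right (ENNReal.tsum_le_tsum fun y => mul_le_mul_right (hF y 2) _) _)
  · exact add_le_add (mul_le_mul_right (hF 1 2) _)
      (mul_le_mul_right (ENNReal.tsum_le_tsum fun y => mul_le_mul_right (hF y 2) _) _)

theorem opN_mono (Q : Par) (n : CS) {F F' : ℕ → CS → ℝ≥0∞} (hF : ∀ y m, F y m ≤ F' y m) :
    opN Q n F ≤ opN Q n F' := by
  unfold opN
  exact add_le_add (add_le_add
    (mul_le_mul_right (opY_mono Q 0 fun y _ => hF y _) _)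
    (mul_le_mul_right (opY_mono Q 1 fun y _ => hF y _) _))
    (mul_le_mul_right (opY_mono Q 2 fun y _ => hF y _) _)

theorem opY_add (Q : Par) (h : Fin 3) (F F' : ℕ → Fin 3 → ℝ≥0∞) :
    opY Q h (fun y h' => F y h' + F' y h') = opY Q h F + opY Q h F' := by
  unfold opY
  split_ifs
  · simp only [mul_add]
    rw [ENNReal.tsum_add]
  · simp only [mul_add]
    rw [ENNReal.tsum_add, mul_add]
    ring
  · simp only [mul_add]
    rw [ENNReal.tsum_add, mul_add]
    ring

theorem opY_mul (Q : Par) (h : Fin 3) (F : ℕ → Fin 3 → ℝ≥0∞) (c : ℝ≥0∞) :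
    opY Q h (fun y h' => F y h' * c) = opY Q h F * c := by
  unfold opY
  split_ifs
  · simp only [← mul_assoc]
    rw [ENNReal.tsum_mul_right]
  · simp only [← mul_assoc]
    rw [ENNReal.tsum_mul_right, add_mul, ← mul_assoc]
  · simp only [← mul_assoc]
    rw [ENNReal.tsum_mul_right, add_mul, ← mul_assoc]

theorem opY_zero (Q : Par) (h : Fin 3) : opY Q h (fun _ _ => 0) = 0 := by
  unfold opY
  split_ifs <;> simp

theorem opN_add (Q : Par) (n : CS) (F F' : ℕ → CS → ℝ≥0∞) :
    opN Q n (fun y m => F y m + F' y m) = opN Q n F + opN Q n F' := by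
  unfold opN
  rw [opY_add, opY_add Q 1, opY_add Q 2]
  ring

theorem opN_mul (Q : Par) (n : CS) (F : ℕ → CS → ℝ≥0∞) (c : ℝ≥0∞) :
    opN Q n (fun y m => F y m * c) = opN Q n F * c := by
  unfold opN
  rw [opY_mul, opY_mul Q 1, opY_mul Q 2]
  ring

theorem opN_zero (Q : Par) (n : CS) : opN Q n (fun _ _ => 0) = 0 := by
  unfold opN
  rw [opY_zero, opY_zero Q 1, opY_zero Q 2]
  simp

theorem opN_sum {ι : Type} (Q : Par) (n : CS) (s : Finset ι) (F : ι → ℕ → CS → ℝ≥0∞) :
    opN Q n (fun y m => ∑ i ∈ s, F i y m) = ∑ i ∈ s, opN Q n (F i) := by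
  classical
  induction s using Finset.induction_on with
  | empty => simp only [Finset.sum_empty]; exact opN_zero Q n
  | insert a s ha ih =>
    rw [Finset.sum_insert ha, ← ih, ← opN_add]
    congr 1
    funext y m
    rw [Finset.sum_insert ha]

theorem opY_tsum {ι : Type} (Q : Par) (h : Fin 3) (F : ι → ℕ → Fin 3 → ℝ≥0∞) :
    opY Q h (fun y h' => ∑' i, F i y h') = ∑' i, opY Q h (F i) := by
  unfold opY
  split_ifs
  · simp only [← ENNReal.tsum_mul_left]
    rw [ENNReal.tsum_comm]
  · simp only [← ENNReal.tsum_mul_left]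
    rw [ENNReal.tsum_comm, ← ENNReal.tsum_add]
  · simp only [← ENNReal.tsum_mul_left]
    rw [ENNReal.tsum_comm, ← ENNReal.tsum_add]

theorem opN_tsum {ι : Type} (Q : Par) (n : CS) (F : ι → ℕ → CS → ℝ≥0∞) :
    opN Q n (fun y m => ∑' i, F i y m) = ∑' i, opN Q n (F i) := by
  unfold opN
  rw [opY_tsum Q 0 (fun i y _ => F i y (t01 n)),
    opY_tsum Q 1 (fun i y h => F i y (if h = 1 then n else t12 n)),
    opY_tsum Q 2 (fun i y _ => F i y n)]
  rw [← ENNReal.tsum_mul_left, ← ENNReal.tsum_mul_left, ← ENNReal.tsum_mul_left,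
    ← ENNReal.tsum_add, ← ENNReal.tsum_add]

/-! ### the weights -/

theorem wt_eq (m : ℕ → ℝ≥0∞) {z : ℕ} (hz : z ≤ 6) :
    wt m z = ∑' x, if min x 6 = z then 2 ^ (x - 6) * m x else 0 := by
  unfold wt
  split_ifs with h
  · rw [tsum_eq_single z]
    · have h1 : min z 6 = z := by omega
      have h2 : z - 6 = 0 := by omega
      rw [if_pos h1, h2, pow_zero, one_mul]
    · intro x hx
      rw [if_neg]
      omega
  · have hz6 : z = 6 := by omega
    subst hz6
    rw [← Summable.sum_add_tsum_nat_add' (k := 6)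
      (f := fun x => if min x 6 = 6 then 2 ^ (x - 6) * m x else 0) ENNReal.summable]
    have h1 : ∑ i ∈ Finset.range 6, (if min i 6 = 6 then 2 ^ (i - 6) * m i else 0) = 0 := by
      apply Finset.sum_eq_zero
      intro i hi
      rw [Finset.mem_range] at hi
      rw [if_neg]
      omega
    rw [h1, zero_add]
    refine tsum_congr fun j => ?_
    have h2 : min (j + 6) 6 = 6 := by omega
    rw [if_pos h2, Nat.add_sub_cancel, add_comm j 6]

theorem wt_mono {m m' : ℕ → ℝ≥0∞} (h : ∀ x, m x ≤ m' x) (z : ℕ) : wt m z ≤ wt m' z := by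
  unfold wt
  split_ifs
  · exact h z
  · exact ENNReal.tsum_le_tsum fun j => mul_le_mul_right (h _) _

theorem wt_add (m m' : ℕ → ℝ≥0∞) (z : ℕ) : wt (fun x => m x + m' x) z = wt m z + wt m' z := by
  unfold wt
  split_ifs
  · rfl
  · simp only [mul_add]
    rw [ENNReal.tsum_add]

theorem wt_mul (c : ℝ≥0∞) (m : ℕ → ℝ≥0∞) (z : ℕ) : wt (fun x => c * m x) z = c * wt m z := by
  unfold wt
  split_ifs
  · rfl
  · rw [← ENNReal.tsum_mul_left]
    refine tsum_congr fun j => ?_
    ring

/-- the weights of a convolution -/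
theorem wt_conv (f : ℕ → ℝ≥0∞) (A C : CS → ℕ → ℝ≥0∞)
    (hf : ∀ x, f x ≤ ∑ m, ∑ p ∈ Finset.HasAntidiagonal.antidiagonal x, A m p.1 * C m p.2) {z : ℕ} (hz : z ≤ 6) :
    wt f z ≤ ∑ m : CS, ∑ x ∈ Finset.range 7, ∑ y ∈ Finset.range 7,
      if min (x + y) 6 = z then 2 ^ (x + y - 6) * (wt (A m) x * wt (C m) y) else 0 := by
  classical
  have key : ∀ m : CS, (∑' x, ∑ p ∈ Finset.HasAntidiagonal.antidiagonal x,
      (if min (p.1 + p.2) 6 = z then 2 ^ (p.1 + p.2 - 6) * (A m p.1 * C m p.2) else 0)) ≤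
      ∑ x ∈ Finset.range 7, ∑ y ∈ Finset.range 7,
      if min (x + y) 6 = z then 2 ^ (x + y - 6) * (wt (A m) x * wt (C m) y) else 0 := by
    intro m
    set g : ℕ × ℕ → ℝ≥0∞ := fun p =>
      if min (p.1 + p.2) 6 = z then 2 ^ (p.1 + p.2 - 6) * (A m p.1 * C m p.2) else 0 with hg
    have e1 : (∑' x, ∑ p ∈ Finset.HasAntidiagonal.antidiagonal x, g p) = ∑' p : ℕ × ℕ, g p := by
      rw [← (Finset.HasAntidiagonal.sigmaAntidiagonalEquivProd (A := ℕ)).tsum_eq g, ENNReal.tsum_sigma']
      refine tsum_congr fun x => ?_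
      rw [tsum_fintype]
      exact (Finset.sum_coe_sort (Finset.HasAntidiagonal.antidiagonal x) g).symm
    have e2 : ∑' p : ℕ × ℕ, g p = ∑' x1, ∑' x2, g (x1, x2) :=
      ENNReal.tsum_prod (f := fun a b => g (a, b))
    change (∑' x, ∑ p ∈ Finset.HasAntidiagonal.antidiagonal x, g p) ≤ _
    rw [e1, e2]
    set u : ℕ → ℕ → ℝ≥0∞ := fun a x1 => if min x1 6 = a then 2 ^ (x1 - 6) * A m x1 else 0 with hu
    set v : ℕ → ℕ → ℝ≥0∞ := fun b x2 => if min x2 6 = b then 2 ^ (x2 - 6) * C m x2 else 0 with hv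
    have e3 : ∀ x1 x2, g (x1, x2) ≤ ∑ a ∈ Finset.range 7, ∑ b ∈ Finset.range 7,
        if min (a + b) 6 = z then 2 ^ (a + b - 6) * (u a x1 * v b x2) else 0 := by
      intro x1 x2
      have ha : min x1 6 ∈ Finset.range 7 := by rw [Finset.mem_range]; omega
      have hb : min x2 6 ∈ Finset.range 7 := by rw [Finset.mem_range]; omega
      refine le_trans ?_ (Finset.single_le_sum (f := fun a => ∑ b ∈ Finset.range 7,
        if min (a + b) 6 = z then 2 ^ (a + b - 6) * (u a x1 * v b x2) else 0)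
        (fun _ _ => zero_le) ha)
      refine le_trans ?_ (Finset.single_le_sum (f := fun b =>
        if min (min x1 6 + b) 6 = z then 2 ^ (min x1 6 + b - 6) * (u (min x1 6) x1 * v b x2) else 0)
        (fun _ _ => zero_le) hb)
      have hmin : min (min x1 6 + min x2 6) 6 = min (x1 + x2) 6 := by omega
      have hexp : x1 + x2 - 6 = (min x1 6 + min x2 6 - 6) + (x1 - 6) + (x2 - 6) := by omega
      simp only [hg, hu, hv, if_true, hmin]
      split_ifs
      · rw [hexp, pow_add, pow_add]
        apply le_of_eq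
        ring
      · exact le_rfl
    calc ∑' x1, ∑' x2, g (x1, x2)
        ≤ ∑' x1, ∑' x2, ∑ a ∈ Finset.range 7, ∑ b ∈ Finset.range 7,
          (if min (a + b) 6 = z then 2 ^ (a + b - 6) * (u a x1 * v b x2) else 0) :=
          ENNReal.tsum_le_tsum fun x1 => ENNReal.tsum_le_tsum fun x2 => e3 x1 x2
      _ = ∑ a ∈ Finset.range 7, ∑ b ∈ Finset.range 7, ∑' x1, ∑' x2,
          (if min (a + b) 6 = z then 2 ^ (a + b - 6) * (u a x1 * v b x2) else 0) := by
          have h1 : ∀ x1, ∑' x2, ∑ a ∈ Finset.range 7, ∑ b ∈ Finset.range 7,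
              (if min (a + b) 6 = z then 2 ^ (a + b - 6) * (u a x1 * v b x2) else 0) =
              ∑ a ∈ Finset.range 7, ∑ b ∈ Finset.range 7, ∑' x2,
              (if min (a + b) 6 = z then 2 ^ (a + b - 6) * (u a x1 * v b x2) else 0) := by
            intro x1
            rw [Summable.tsum_finsetSum fun _ _ => ENNReal.summable]
            refine Finset.sum_congr rfl fun a _ => ?_
            rw [Summable.tsum_finsetSum fun _ _ => ENNReal.summable]
          rw [tsum_congr h1, Summable.tsum_finsetSum fun _ _ => ENNReal.summable]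
          refine Finset.sum_congr rfl fun a _ => ?_
          rw [Summable.tsum_finsetSum fun _ _ => ENNReal.summable]
      _ ≤ _ := by
          refine Finset.sum_le_sum fun a ha => Finset.sum_le_sum fun b hb => ?_
          rw [Finset.mem_range] at ha hb
          rw [wt_eq (A m) (show a ≤ 6 by omega), wt_eq (C m) (show b ≤ 6 by omega)]
          split_ifs
          · rw [← ENNReal.tsum_mul_right, ← ENNReal.tsum_mul_left]
            refine ENNReal.tsum_le_tsum fun x1 => ?_
            rw [← ENNReal.tsum_mul_left, ← ENNReal.tsum_mul_left]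
          · simp
  rw [wt_eq f hz]
  calc ∑' x, (if min x 6 = z then 2 ^ (x - 6) * f x else 0)
      ≤ ∑' x, ∑ m : CS, ∑ p ∈ Finset.HasAntidiagonal.antidiagonal x,
        (if min (p.1 + p.2) 6 = z then 2 ^ (p.1 + p.2 - 6) * (A m p.1 * C m p.2) else 0) := by
        refine ENNReal.tsum_le_tsum fun x => ?_
        split_ifs with h
        · refine (mul_le_mul_right (hf x) _).trans (le_of_eq ?_)
          rw [Finset.mul_sum]
          refine Finset.sum_congr rfl fun m _ => ?_
          rw [Finset.mul_sum]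
          refine Finset.sum_congr rfl fun p hp => ?_
          rw [Finset.HasAntidiagonal.mem_antidiagonal] at hp
          rw [hp, if_pos h]
        · exact zero_le
    _ = ∑ m : CS, ∑' x, ∑ p ∈ Finset.HasAntidiagonal.antidiagonal x,
        (if min (p.1 + p.2) 6 = z then 2 ^ (p.1 + p.2 - 6) * (A m p.1 * C m p.2) else 0) := by
        rw [Summable.tsum_finsetSum fun _ _ => ENNReal.summable]
    _ ≤ _ := Finset.sum_le_sum fun m _ => key m

/-! ### superposition of frogs -/

theorem Mk_zero_frogs (Q : Par) (L : ℕ) (n : CS) (x : ℕ) (n' : CS) :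
    Mk Q L 0 n x n' = if x = 0 ∧ n' = n then 1 else 0 := by
  cases L with
  | zero =>
    by_cases h : x = 0 ∧ n' = n
    · simp [Mk, h]
    · simp only [Mk, true_and]
  | succ L => simp [Mk]

theorem Mk_succ (Q : Par) (L p : ℕ) (n : CS) (x : ℕ) (n' : CS) :
    Mk Q (L + 1) (p + 1) n x n' = 1 / 5 * (if x = 0 then 0 else Mk Q L p n (x - 1) n') +
      1 / 5 * opN Q n (fun y m => Mk Q L (p + y) m x n') := by
  simp [Mk]

theorem Mk_mono (Q : Par) : ∀ (L p : ℕ) (n : CS) (x : ℕ) (n' : CS),
    Mk Q L p n x n' ≤ Mk Q (L + 1) p n x n' := by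
  intro L
  induction L with
  | zero =>
    intro p n x n'
    cases p with
    | zero => rw [Mk_zero_frogs, Mk_zero_frogs]
    | succ p => simp [Mk]
  | succ L ih =>
    intro p n x n'
    cases p with
    | zero => rw [Mk_zero_frogs, Mk_zero_frogs]
    | succ p =>
      rw [Mk_succ, Mk_succ]
      refine add_le_add (mul_le_mul_right ?_ _)
        (mul_le_mul_right (opN_mono Q n fun y m => ih _ _ _ _) _)
      split_ifs
      · exact le_rfl
      · exact ih _ _ _ _

/-- shifting one factor of a convolution -/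
theorem anti_shift (a c : ℕ → ℝ≥0∞) (x : ℕ) :
    (if x = 0 then 0 else ∑ t ∈ Finset.HasAntidiagonal.antidiagonal (x - 1), a t.1 * c t.2) =
      ∑ t ∈ Finset.HasAntidiagonal.antidiagonal x, (if t.1 = 0 then 0 else a (t.1 - 1)) * c t.2 := by
  cases x with
  | zero => simp
  | succ x =>
    rw [if_neg (Nat.succ_ne_zero x), Nat.add_sub_cancel, Finset.Nat.sum_antidiagonal_succ]
    simp

theorem super (Q : Par) : ∀ (L p q : ℕ) (n : CS) (x : ℕ) (n' : CS),
    Mk Q L (p + q) n x n' ≤
      ∑ m, ∑ t ∈ Finset.HasAntidiagonal.antidiagonal x, Mk Q L p n t.1 m * Mk Q L q m t.2 n' := by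
  -- the case `p = 0`
  have h0 : ∀ (L q : ℕ) (n : CS) (x : ℕ) (n' : CS), Mk Q L q n x n' ≤
      ∑ m, ∑ t ∈ Finset.HasAntidiagonal.antidiagonal x, Mk Q L 0 n t.1 m * Mk Q L q m t.2 n' := by
    intro L q n x n'
    refine le_trans ?_ (Finset.single_le_sum (f := fun m => ∑ t ∈
      Finset.HasAntidiagonal.antidiagonal x, Mk Q L 0 n t.1 m * Mk Q L q m t.2 n')
      (fun _ _ => zero_le) (Finset.mem_univ n))
    refine le_trans ?_ (Finset.single_le_sum (f := fun t : ℕ × ℕ =>
      Mk Q L 0 n t.1 n * Mk Q L q n t.2 n') (fun _ _ => zero_le)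
      (show ((0 : ℕ), x) ∈ Finset.HasAntidiagonal.antidiagonal x by
        rw [Finset.HasAntidiagonal.mem_antidiagonal]; simp))
    rw [Mk_zero_frogs]
    simp
  intro L
  induction L with
  | zero =>
    intro p q n x n'
    cases p with
    | zero => rw [zero_add]; exact h0 _ _ _ _ _
    | succ p =>
      have : Mk Q 0 (p + 1 + q) n x n' = 0 := by simp [Mk]
      rw [this]
      exact zero_le
  | succ L ih =>
    intro p q n x n'
    cases p with
    | zero => rw [zero_add]; exact h0 _ _ _ _ _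
    | succ p =>
      have e : p + 1 + q = (p + q) + 1 := by omega
      rw [e, Mk_succ]
      calc 1 / 5 * (if x = 0 then 0 else Mk Q L (p + q) n (x - 1) n') +
            1 / 5 * opN Q n (fun y m => Mk Q L (p + q + y) m x n')
          ≤ 1 / 5 * (∑ m, ∑ t ∈ Finset.HasAntidiagonal.antidiagonal x,
              (if t.1 = 0 then 0 else Mk Q L p n (t.1 - 1) m) * Mk Q (L + 1) q m t.2 n') +
            1 / 5 * (∑ m, ∑ t ∈ Finset.HasAntidiagonal.antidiagonal x,
              opN Q n (fun y m' => Mk Q L (p + y) m' t.1 m) * Mk Q (L + 1) q m t.2 n') := by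
            refine add_le_add (mul_le_mul_right ?_ _) (mul_le_mul_right ?_ _)
            · have h1 : (if x = 0 then 0 else Mk Q L (p + q) n (x - 1) n') ≤
                  ∑ m, (if x = 0 then 0 else ∑ t ∈ Finset.HasAntidiagonal.antidiagonal (x - 1),
                    Mk Q L p n t.1 m * Mk Q L q m t.2 n') := by
                split_ifs
                · exact zero_le
                · exact ih _ _ _ _ _
              refine h1.trans (Finset.sum_le_sum fun m _ => ?_)
              rw [anti_shift (fun i => Mk Q L p n i m) (fun i => Mk Q L q m i n')]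
              exact Finset.sum_le_sum fun t _ => mul_le_mul_right (Mk_mono Q _ _ _ _ _) _
            · have h2 : ∀ (y : ℕ) (m' : CS), Mk Q L (p + q + y) m' x n' ≤
                  ∑ m, ∑ t ∈ Finset.HasAntidiagonal.antidiagonal x,
                    Mk Q L (p + y) m' t.1 m * Mk Q (L + 1) q m t.2 n' := by
                intro y m'
                have e2 : p + q + y = (p + y) + q := by omega
                rw [e2]
                exact (ih _ _ _ _ _).trans (Finset.sum_le_sum fun m _ =>
                  Finset.sum_le_sum fun t _ => mul_le_mul_right (Mk_mono Q _ _ _ _ _) _)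
              refine (opN_mono Q n h2).trans (le_of_eq ?_)
              rw [opN_sum]
              refine Finset.sum_congr rfl fun m _ => ?_
              rw [opN_sum]
              refine Finset.sum_congr rfl fun t _ => ?_
              rw [opN_mul]
        _ = ∑ m, ∑ t ∈ Finset.HasAntidiagonal.antidiagonal x,
              Mk Q (L + 1) (p + 1) n t.1 m * Mk Q (L + 1) q m t.2 n' := by
            rw [Finset.mul_sum, Finset.mul_sum, ← Finset.sum_add_distrib]
            refine Finset.sum_congr rfl fun m _ => ?_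
            rw [Finset.mul_sum, Finset.mul_sum, ← Finset.sum_add_distrib]
            refine Finset.sum_congr rfl fun t _ => ?_
            rw [Mk_succ, add_mul]
            ring

/-! ### the induction -/

theorem conv_mono {A A' C C' : CS → CS → ℕ → ℝ≥0∞} (hA : ∀ n n' z, z ≤ 6 → A n n' z ≤ A' n n' z)
    (hC : ∀ n n' z, z ≤ 6 → C n n' z ≤ C' n n' z) (n n' : CS) (z : ℕ) :
    conv A C n n' z ≤ conv A' C' n n' z := by
  unfold conv
  refine Finset.sum_le_sum fun m _ => Finset.sum_le_sum fun x hx => Finset.sum_le_sum fun y hy => ?_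
  rw [Finset.mem_range] at hx hy
  split_ifs
  · exact mul_le_mul_right (mul_le_mul' (hA _ _ _ (by omega)) (hC _ _ _ (by omega))) _
  · exact le_rfl

/-- linearity of `conv` in the second argument -/
theorem conv_sum (A : CS → CS → ℕ → ℝ≥0∞) (C : ℕ → CS → CS → ℕ → ℝ≥0∞) (c : ℕ → ℝ≥0∞)
    (s : Finset ℕ) (n n' : CS) (z : ℕ) :
    ∑ j ∈ s, c j * conv A (C j) n n' z = conv A (fun a b w => ∑ j ∈ s, c j * C j a b w) n n' z := by
  unfold conv
  simp only [Finset.mul_sum]
  rw [Finset.sum_comm]
  refine Finset.sum_congr rfl fun m _ => ?_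
  rw [Finset.sum_comm]
  refine Finset.sum_congr rfl fun x _ => ?_
  rw [Finset.sum_comm]
  refine Finset.sum_congr rfl fun y _ => ?_
  split_ifs
  · refine Finset.sum_congr rfl fun j _ => ?_
    ring
  · simp

/-- weight kernel of `y` frogs in `L` steps -/
noncomputable def W (Q : Par) (L y : ℕ) (n n' : CS) (z : ℕ) : ℝ≥0∞ :=
  wt (fun x => Mk Q L y n x n') z

theorem W_succ (Q : Par) (L y : ℕ) (n n' : CS) {z : ℕ} (hz : z ≤ 6) :
    W Q L (y + 1) n n' z ≤ conv (W Q L 1) (W Q L y) n n' z := by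
  have h := wt_conv (fun x => Mk Q L (y + 1) n x n') (fun m x => Mk Q L 1 n x m)
    (fun m x => Mk Q L y m x n') (fun x => by
      rw [add_comm y 1]
      exact super Q L 1 y n x n') hz
  exact h

theorem W_zero (Q : Par) (L : ℕ) (n n' : CS) {z : ℕ} (hz : z ≤ 6) :
    W Q L 0 n n' z = if n = n' ∧ z = 0 then 1 else 0 := by
  unfold W
  simp only [Mk_zero_frogs]
  rw [wt_eq _ hz, tsum_eq_single 0]
  · by_cases h : n = n'
    · subst h
      by_cases h2 : z = 0
      · subst h2; simp
      · have : ¬ (0 = z) := fun h => h2 h.symm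
        simp [h2, this]
    · have h' : ¬ n' = n := fun h2 => h h2.symm
      simp [h, h']
  · intro x hx
    simp [hx]

theorem all_of_one (Q : Par) (K : Cert Q) (L : ℕ)
    (h1 : ∀ n n' z, z ≤ 6 → W Q L 1 n n' z ≤ K.P 1 n n' z) (n n' : CS) (z : ℕ) (hz : z ≤ 6) :
    (∀ y, y ≤ 6 → W Q L y n n' z ≤ K.P y n n' z) ∧
      ∑' j, (1 / 2) ^ (j + 1) * W Q L (6 + j) n n' z ≤ K.B n n' z := by
  have hP : ∀ y, y ≤ 6 → ∀ n n' z, z ≤ 6 → W Q L y n n' z ≤ K.P y n n' z := by
    intro y
    induction y with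
    | zero =>
      intro _ n n' z hz
      rw [W_zero Q L n n' hz]
      exact K.P0 n n' z
    | succ y ih =>
      intro hy n n' z hz
      refine (W_succ Q L y n n' hz).trans ((conv_mono h1 (ih (by omega)) n n' z).trans ?_)
      exact K.Ps y (by omega) n n' z hz
  refine ⟨fun y hy => hP y hy n n' z hz, ?_⟩
  refine ENNReal.tsum_le_of_sum_range_le fun J => ?_
  have key : ∀ J, ∀ n n' z, z ≤ 6 →
      ∑ j ∈ Finset.range J, (1 / 2) ^ (j + 1) * W Q L (6 + j) n n' z ≤ K.B n n' z := by
    intro J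
    induction J with
    | zero => intro n n' z _; simp
    | succ J ih =>
      intro n n' z hz
      rw [Finset.sum_range_succ']
      have e1 : ∑ j ∈ Finset.range J, (1 / 2 : ℝ≥0∞) ^ (j + 1 + 1) * W Q L (6 + (j + 1)) n n' z ≤
          1 / 2 * conv (K.P 1) K.B n n' z := by
        calc ∑ j ∈ Finset.range J, (1 / 2 : ℝ≥0∞) ^ (j + 1 + 1) * W Q L (6 + (j + 1)) n n' z
            ≤ ∑ j ∈ Finset.range J, 1 / 2 * ((1 / 2 : ℝ≥0∞) ^ (j + 1) *
                conv (W Q L 1) (W Q L (6 + j)) n n' z) := by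
              refine Finset.sum_le_sum fun j _ => ?_
              rw [pow_succ' _ (j + 1), mul_assoc]
              exact mul_le_mul_right (mul_le_mul_right (W_succ Q L (6 + j) n n' hz) _) _
          _ = 1 / 2 * conv (W Q L 1)
                (fun a b w => ∑ j ∈ Finset.range J, (1 / 2) ^ (j + 1) * W Q L (6 + j) a b w)
                n n' z := by
              rw [← Finset.mul_sum, conv_sum]
          _ ≤ 1 / 2 * conv (K.P 1) K.B n n' z :=
              mul_le_mul_right (conv_mono h1 ih n n' z) _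
      have e2 : (1 / 2 : ℝ≥0∞) ^ (0 + 1) * W Q L (6 + 0) n n' z ≤ 1 / 2 * K.P 6 n n' z := by
        rw [zero_add, pow_one, add_zero]
        exact mul_le_mul_right (hP 6 le_rfl n n' z hz) _
      calc _ ≤ 1 / 2 * conv (K.P 1) K.B n n' z + 1 / 2 * K.P 6 n n' z := add_le_add e1 e2
        _ = 1 / 2 * K.P 6 n n' z + 1 / 2 * conv (K.P 1) K.B n n' z := add_comm _ _
        _ ≤ _ := K.Bs n n' z hz
  exact key J n n' z hz

/-- sum against one of the three laws -/
theorem law_sum (Q : Par) (K : Cert Q) (h : Fin 3) (F : ℕ → ℝ≥0∞) :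
    ∑' y, Q.q h y * F y = ∑ y ∈ Finset.range 6, K.T h y * F y +
      K.T h 6 * ∑' j, (1 / 2) ^ (j + 1) * F (6 + j) := by
  rw [← Summable.sum_add_tsum_nat_add' (k := 6) (f := fun y => Q.q h y * F y) ENNReal.summable]
  congr 1
  · refine Finset.sum_congr rfl fun y hy => ?_
    rw [Finset.mem_range] at hy
    rw [K.q_lt h y hy]
  · rw [← ENNReal.tsum_mul_left]
    refine tsum_congr fun j => ?_
    rw [add_comm j 6, K.q_ge h j, mul_assoc]

theorem law_le (Q : Par) (K : Cert Q) (L : ℕ) (n n' : CS) (z : ℕ)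
    (hS : (∀ y, y ≤ 6 → W Q L y n n' z ≤ K.P y n n' z) ∧
      ∑' j, (1 / 2) ^ (j + 1) * W Q L (6 + j) n n' z ≤ K.B n n' z) (h : Fin 3) :
    ∑' y, Q.q h y * W Q L y n n' z ≤
      ∑ y ∈ Finset.range 6, K.T h y * K.P y n n' z + K.T h 6 * K.B n n' z := by
  rw [law_sum Q K]
  refine add_le_add (Finset.sum_le_sum fun y hy => ?_) (mul_le_mul_right hS.2 _)
  rw [Finset.mem_range] at hy
  exact mul_le_mul_right (hS.1 y (by omega)) _

theorem wt_opN (Q : Par) (n : CS) (F : ℕ → CS → ℕ → ℝ≥0∞) {z : ℕ} (hz : z ≤ 6) :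
    wt (fun x => opN Q n (fun y m => F y m x)) z = opN Q n (fun y m => wt (F y m) z) := by
  have h1 : (fun (y : ℕ) (m : CS) => wt (F y m) z) =
      fun y m => ∑' x, if min x 6 = z then 2 ^ (x - 6) * F y m x else 0 := by
    funext y m
    exact wt_eq _ hz
  rw [h1, opN_tsum, wt_eq _ hz]
  refine tsum_congr fun x => ?_
  split_ifs
  · have h2 : (fun (y : ℕ) (m : CS) => 2 ^ (x - 6) * F y m x) =
        fun y m => F y m x * 2 ^ (x - 6) := by
      funext y m
      ring
    rw [h2, opN_mul]
    ring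
  · exact (opN_zero Q n).symm

theorem one_step (Q : Par) (K : Cert Q) (L : ℕ)
    (hS : ∀ n n' z, z ≤ 6 → (∀ y, y ≤ 6 → W Q L y n n' z ≤ K.P y n n' z) ∧
      ∑' j, (1 / 2) ^ (j + 1) * W Q L (6 + j) n n' z ≤ K.B n n' z)
    (n n' : CS) (z : ℕ) (hz : z ≤ 6) : W Q (L + 1) 1 n n' z ≤ K.P 1 n n' z := by
  refine le_trans ?_ (K.Rs n n' z hz)
  have e1 : W Q (L + 1) 1 n n' z = 1 / 5 * (if n = n' ∧ z = 1 then 1 else 0) +
      1 / 5 * opN Q n (fun y m => W Q L y m n' z) := by
    unfold W
    have h1 : (fun x => Mk Q (L + 1) 1 n x n') = fun x =>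
        1 / 5 * (if x = 0 then 0 else Mk Q L 0 n (x - 1) n') +
        1 / 5 * opN Q n (fun y m => Mk Q L y m x n') := by
      funext x
      have := Mk_succ Q L 0 n x n'
      simpa only [zero_add] using this
    rw [h1, wt_add, wt_mul, wt_mul, wt_opN Q n (fun y m x => Mk Q L y m x n') hz]
    congr 2
    simp only [Mk_zero_frogs]
    rw [wt_eq _ hz, tsum_eq_single 1]
    · by_cases h : n = n'
      · subst h
        by_cases h2 : z = 1
        · subst h2; simp
        · have : ¬ (1 = z) := fun h => h2 h.symm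
          simp [h2, this]
      · have h' : ¬ n' = n := fun h2 => h h2.symm
        simp [h, h']
    · intro x hx
      by_cases hx0 : x = 0
      · simp [hx0]
      · have hx1 : x - 1 ≠ 0 := by omega
        simp [hx0, hx1]
  rw [e1, mul_add]
  refine add_le_add le_rfl (mul_le_mul_right ?_ _)
  unfold opN Jw
  refine add_le_add (add_le_add (mul_le_mul_right ?_ _) (mul_le_mul_right ?_ _))
    (mul_le_mul_right ?_ _)
  · unfold opY
    rw [if_pos rfl]
    exact law_le Q K L _ n' z (hS _ _ _ hz) 0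
  · have h10 : ¬ ((1 : Fin 3) = 0) := by decide
    have h21 : ¬ ((2 : Fin 3) = 1) := by decide
    unfold opY
    rw [if_neg h10, if_pos rfl]
    simp only [if_true, if_neg h21]
    exact add_le_add (mul_le_mul_right ((hS _ _ _ hz).1 1 (by norm_num)) _)
      (mul_le_mul_right (law_le Q K L _ n' z (hS _ _ _ hz) 1) _)
  · have h20 : ¬ ((2 : Fin 3) = 0) := by decide
    have h21 : ¬ ((2 : Fin 3) = 1) := by decide
    unfold opY
    rw [if_neg h20, if_neg h21]
    exact add_le_add (mul_le_mul_right ((hS _ _ _ hz).1 1 (by norm_num)) _)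
      (mul_le_mul_right (law_le Q K L _ n' z (hS _ _ _ hz) 2) _)

end Wb_aux

open Wb_aux in
theorem t_Wb : S_Wb := by
  intro Q K L n n' z hz
  have key : ∀ L, ∀ n n' z, z ≤ 6 → W Q L 1 n n' z ≤ K.P 1 n n' z := by
    intro L
    induction L with
    | zero =>
      intro n n' z _
      have : (fun x => Mk Q 0 1 n x n') = fun _ => 0 := by
        funext x
        simp [Mk]
      unfold W
      rw [this]
      unfold wt
      split_ifs <;> simp
    | succ L ih =>
      intro n n' z hz
      exact one_step Q K L (fun a b w hw => all_of_one Q K L ih a b w hw) n n' z hz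
  exact all_of_one Q K L (key L) n n' z hz

end FT4
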