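import Pool.Agent.helper237_FT4.Stmts

/-!
# Project FT4, task `adapt` (helper93)

The answers read along a fresh index rule are i.i.d. uniform.
-/

set_option autoImplicit false

open MeasureTheory ProbabilityTheory
open scoped ENNReal BigOperators

namespace FT4

namespace adapt_aux

/-- configuration after `t` steps with the answers `a 0, a 1, ...` -/
def run (a : ℕ → Al) : ℕ → Cfg
  | 0 => Cfg.init
  | t + 1 => (run a t).step (a t)

/-- extension of a finite answer sequence -/
def ext {t : ℕ} (a : Fin t → Al) (i : ℕ) : Al := if h : i < t then a ⟨i, h⟩ else (0, 0)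

/-- the answers read along the index rule -/
def ans (idx : Cfg → Vx × ℕ) (η : Vx → ℕ → Al) (i : ℕ) : Al :=
  η (idx (cfg idx η i)).1 (idx (cfg idx η i)).2

theorem run_congr {a b : ℕ → Al} {t : ℕ} (h : ∀ i, i < t → a i = b i) : run a t = run b t := by
  induction t with
  | zero => rfl
  | succ t ih =>
    rw [run, run, ih (fun i hi => h i (Nat.lt_succ_of_lt hi)), h t (Nat.lt_succ_self t)]

theorem cfg_eq (idx : Cfg → Vx × ℕ) (η : Vx → ℕ → Al) (t : ℕ) :
    cfg idx η t = run (ans idx η) t := by
  induction t with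
  | zero => rfl
  | succ t ih =>
    rw [run, ← ih]
    rfl

theorem event_iff (idx : Cfg → Vx × ℕ) (η : Vx → ℕ → Al) {t : ℕ} (a : Fin t → Al) :
    (fun i : Fin t => ans idx η i) = a ↔
      ∀ i : Fin t, η (idx (run (ext a) i)).1 (idx (run (ext a) i)).2 = a i := by
  constructor
  · intro h i
    have h1 : cfg idx η i = run (ext a) i := by
      rw [cfg_eq]
      apply run_congr
      intro j hj
      have h2 := congrFun h ⟨j, hj.trans i.2⟩
      simp only at h2
      rw [h2, ext, dif_pos (hj.trans i.2)]
    have h3 := congrFun h i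
    simp only [ans, h1] at h3
    exact h3
  · intro h
    have key : ∀ j, ∀ hj : j < t, ans idx η j = a ⟨j, hj⟩ := by
      intro j
      induction j using Nat.strong_induction_on with
      | _ j ih =>
        intro hj
        have h1 : cfg idx η j = run (ext a) j := by
          rw [cfg_eq]
          apply run_congr
          intro i hi
          rw [ih i hi (hi.trans hj), ext, dif_pos (hi.trans hj)]
        have h2 := h ⟨j, hj⟩
        simp only at h2
        rw [ans, h1, h2]
    funext i
    exact key i i.2

/-- fresh index rule -/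
def Fresh (idx : Cfg → Vx × ℕ) : Prop :=
  ∀ a : ℕ → Al, Function.Injective (fun i : ℕ => idx (run a i))

section prob

variable {Ω : Type} [MeasurableSpace Ω] {P : Measure Ω} {ξ : Vx → ℕ → Ω → Al}

omit [MeasurableSpace Ω] in
theorem meas_event (ξ : Vx → ℕ → Ω → Al) (idx : Cfg → Vx × ℕ) {t : ℕ} (a : Fin t → Al) :
    (fun ω => fun i : Fin t => ans idx (fun v k => ξ v k ω) i) ⁻¹' {a} =
      ⋂ i ∈ (Finset.univ : Finset (Fin t)),
        (fun ω => ξ (idx (run (ext a) i)).1 (idx (run (ext a) i)).2 ω) ⁻¹' {a i} := by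
  ext ω
  simp only [Set.mem_preimage, Set.mem_singleton_iff, Finset.mem_univ, Set.iInter_true,
    Set.mem_iInter]
  exact event_iff idx (fun v k => ξ v k ω) a

theorem meas_vec (hξ : IID P ξ) (idx : Cfg → Vx × ℕ) (t : ℕ) :
    Measurable (fun ω => fun i : Fin t => ans idx (fun v k => ξ v k ω) i) := by
  apply measurable_to_countable'
  intro a
  rw [meas_event ξ idx a]
  refine Finset.measurableSet_biInter _ (fun i _ => ?_)
  exact hξ.1 _ _ (measurableSet_singleton _)

theorem prob_vec (hξ : IID P ξ) {idx : Cfg → Vx × ℕ} (hf : Fresh idx) {t : ℕ} (a : Fin t → Al) :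
    P ((fun ω => fun i : Fin t => ans idx (fun v k => ξ v k ω) i) ⁻¹' {a}) = (1 / 20) ^ t := by
  rw [meas_event ξ idx a]
  have hinj : Function.Injective (fun i : Fin t => idx (run (ext a) i)) := by
    intro i j hij
    exact Fin.ext (hf (ext a) hij)
  have h1 := hξ.2.1.precomp hinj
  have h2 := h1.measure_inter_preimage_eq_mul Finset.univ (sets := fun i => {a i})
    (fun i _ => measurableSet_singleton _)
  rw [h2]
  simp only [hξ.2.2, Finset.prod_const, Finset.card_univ, Fintype.card_fin]

omit [MeasurableSpace Ω] in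
theorem dep_vec (ξ : Vx → ℕ → Ω → Al) (idx : Cfg → Vx × ℕ) (t : ℕ) (ω : Ω) :
    (cfg idx (fun v k => ξ v k ω) t).dep [] =
      (run (ext (fun i : Fin t => ans idx (fun v k => ξ v k ω) i)) t).dep [] := by
  rw [cfg_eq]
  apply congrArg (fun C : Cfg => C.dep [])
  apply run_congr
  intro i hi
  rw [ext, dif_pos hi]

theorem lint (hξ : IID P ξ) {idx : Cfg → Vx × ℕ} (hf : Fresh idx) (t : ℕ) :
    ∫⁻ ω, ((cfg idx (fun v k => ξ v k ω) t).dep [] : ℝ≥0∞) ∂P =
      ∑ a : Fin t → Al, ((run (ext a) t).dep [] : ℝ≥0∞) * (1 / 20) ^ t := by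
  calc ∫⁻ ω, ((cfg idx (fun v k => ξ v k ω) t).dep [] : ℝ≥0∞) ∂P
      = ∫⁻ ω, (fun a : Fin t → Al => ((run (ext a) t).dep [] : ℝ≥0∞))
          ((fun ω => fun i : Fin t => ans idx (fun v k => ξ v k ω) i) ω) ∂P := by
        refine lintegral_congr (fun ω => ?_)
        rw [dep_vec]
    _ = ∫⁻ a : Fin t → Al, ((run (ext a) t).dep [] : ℝ≥0∞)
          ∂(P.map (fun ω => fun i : Fin t => ans idx (fun v k => ξ v k ω) i)) :=
        (lintegral_map (μ := P) (f := fun a : Fin t → Al => ((run (ext a) t).dep [] : ℝ≥0∞))
          (measurable_of_countable _) (meas_vec hξ idx t)).symm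
    _ = _ := by
        rw [lintegral_fintype]
        refine Finset.sum_congr rfl (fun a _ => ?_)
        rw [Measure.map_apply (meas_vec hξ idx t) (measurableSet_singleton _), prob_vec hξ hf a]

theorem meas_dep (hξ : IID P ξ) (idx : Cfg → Vx × ℕ) (t : ℕ) :
    Measurable (fun ω => (cfg idx (fun v k => ξ v k ω) t).dep []) := by
  have h1 : (fun ω => (cfg idx (fun v k => ξ v k ω) t).dep []) =
      (fun a : Fin t → Al => (run (ext a) t).dep []) ∘
        (fun ω => fun i : Fin t => ans idx (fun v k => ξ v k ω) i) := by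
    funext ω
    exact dep_vec ξ idx t ω
  rw [h1]
  exact (measurable_of_countable _).comp (meas_vec hξ idx t)

end prob

/-! ### freshness -/

theorem q_ne (a : ℕ → Al) (t : ℕ) : (run a t).q ≠ [] := by
  induction t with
  | zero => simp [run, Cfg.init]
  | succ t ih =>
    rw [run, Cfg.step]
    split
    · exact absurd ‹_› ih
    · simp

theorem step_eq {C : Cfg} {v : Vx} {k : ℕ} {x : Vx} {r : List (Vx × ℕ × Vx)}
    (h : C.q = (v, k, x) :: r) (a : Al) :
    C.step a = ⟨r ++ (v, k + 1, mv a x) :: (if mv a x ∈ C.vis then [] else [(mv a x, 0, mv a x)]),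
     if mv a x ∈ C.vis then C.vis else mv a x :: C.vis,
     Function.update C.dep x (C.dep x + 1)⟩ := by
  rw [Cfg.step, h]

/-- monotone use of the stack indices -/
theorem depS (a : ℕ → Al) (t : ℕ) : ∀ i, i < t →
    (idxS (run a i)).2 < (run a t).dep (idxS (run a i)).1 := by
  induction t with
  | zero => intro i hi; exact absurd hi (Nat.not_lt_zero _)
  | succ t ih =>
    intro i hi
    obtain ⟨v, k, x, r, hq⟩ : ∃ v k x r, (run a t).q = (v, k, x) :: r := by
      rcases hq : (run a t).q with _ | ⟨⟨v, k, x⟩, r⟩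
      · exact absurd hq (q_ne a t)
      · exact ⟨v, k, x, r, rfl⟩
    rw [run, step_eq hq]
    simp only [Function.update_apply]
    rcases Nat.lt_succ_iff_lt_or_eq.1 hi with h | rfl
    · have h1 := ih i h
      split_ifs with h2
      · rw [h2] at h1
        exact h1.trans (Nat.lt_succ_self _)
      · exact h1
    · have h2 : idxS (run a i) = (x, (run a i).dep x) := by rw [idxS, hq]
      rw [h2]
      simp

theorem freshS : Fresh idxS := by
  intro a i j hij
  simp only at hij
  rcases lt_trichotomy i j with h | h | h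
  · exfalso
    have h1 := depS a j i h
    obtain ⟨v, k, x, r, hq⟩ : ∃ v k x r, (run a j).q = (v, k, x) :: r := by
      rcases hq : (run a j).q with _ | ⟨⟨v, k, x⟩, r⟩
      · exact absurd hq (q_ne a j)
      · exact ⟨v, k, x, r, rfl⟩
    have h2 : idxS (run a j) = (x, (run a j).dep x) := by rw [idxS, hq]
    rw [hij, h2] at h1
    exact lt_irrefl _ h1
  · exact h
  · exfalso
    have h1 := depS a i j h
    obtain ⟨v, k, x, r, hq⟩ : ∃ v k x r, (run a i).q = (v, k, x) :: r := by
      rcases hq : (run a i).q with _ | ⟨⟨v, k, x⟩, r⟩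
      · exact absurd hq (q_ne a i)
      · exact ⟨v, k, x, r, rfl⟩
    have h2 : idxS (run a i) = (x, (run a i).dep x) := by rw [idxS, hq]
    rw [← hij, h2] at h1
    exact lt_irrefl _ h1

/-- invariant of the frog-wise rule -/
structure InvF (a : ℕ → Al) (t : ℕ) : Prop where
  nodup : ((run a t).q.map Prod.fst).Nodup
  hvis : ∀ e ∈ (run a t).q, e.1 ∈ (run a t).vis
  used : ∀ i, i < t → (idxF (run a i)).1 ∈ (run a t).vis
  lt : ∀ i, i < t → ∀ e ∈ (run a t).q, e.1 = (idxF (run a i)).1 → (idxF (run a i)).2 < e.2.1

theorem invF (a : ℕ → Al) (t : ℕ) : InvF a t := by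
  induction t with
  | zero =>
    refine ⟨?_, ?_, ?_, ?_⟩
    · simp [run, Cfg.init]
    · intro e he
      simp only [run, Cfg.init, List.mem_singleton] at he ⊢
      rw [he]
    · intro i hi; exact absurd hi (Nat.not_lt_zero _)
    · intro i hi; exact absurd hi (Nat.not_lt_zero _)
  | succ t ih =>
    obtain ⟨hnd, hvis, hused, hlt⟩ := ih
    obtain ⟨v, k, x, r, hq⟩ : ∃ v k x r, (run a t).q = (v, k, x) :: r := by
      rcases hq : (run a t).q with _ | ⟨⟨v, k, x⟩, r⟩
      · exact absurd hq (q_ne a t)
      · exact ⟨v, k, x, r, rfl⟩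
    have hidx : idxF (run a t) = (v, k) := by rw [idxF, hq]
    have hrun : run a (t + 1) = (run a t).step (a t) := rfl
    rw [hq] at hnd hvis hlt
    simp only [List.map_cons, List.nodup_cons] at hnd
    have hv : v ∈ (run a t).vis := hvis _ (List.mem_cons_self ..)
    have hr : ∀ e ∈ r, e.1 ∈ (run a t).vis := fun e he => hvis _ (List.mem_cons_of_mem _ he)
    have hvr : ∀ e ∈ r, e.1 ≠ v := by
      intro e he h
      exact hnd.1 (h ▸ List.mem_map_of_mem (f := Prod.fst) he)
    set y := mv (a t) x with hy
    have hmem : ∀ e, e ∈ (run a (t + 1)).q ↔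
        e ∈ r ∨ e = (v, k + 1, y) ∨ (y ∉ (run a t).vis ∧ e = (y, 0, y)) := by
      intro e
      rw [hrun, step_eq hq]
      simp only [List.mem_append, List.mem_cons, ← hy]
      split_ifs with h <;> simp [h]
    have hvis' : ∀ w, w ∈ (run a (t + 1)).vis ↔ w ∈ (run a t).vis ∨ w = y := by
      intro w
      rw [hrun, step_eq hq]
      simp only [← hy]
      split_ifs with h
      · constructor
        · exact Or.inl
        · rintro (h1 | rfl)
          · exact h1
          · exact h
      · rw [List.mem_cons]
        exact or_comm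
    refine ⟨?_, ?_, ?_, ?_⟩
    · rw [hrun, step_eq hq]
      simp only [← hy, List.map_append, List.map_cons]
      rw [List.nodup_append]
      refine ⟨hnd.2, ?_, ?_⟩
      · split_ifs with h
        · simp
        · simp only [List.map_cons, List.map_nil, List.nodup_cons, List.mem_singleton,
            List.not_mem_nil, not_false_eq_true, List.nodup_nil, and_self, and_true]
          rintro rfl
          exact h hv
      · intro w hw w' hw' hww
        subst hww
        obtain ⟨e, he, rfl⟩ := List.mem_map.1 hw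
        rw [List.mem_cons] at hw'
        rcases hw' with h1 | h1
        · exact hvr e he h1
        · split_ifs at h1 with h
          · simp at h1
          · simp only [List.map_cons, List.map_nil, List.mem_singleton] at h1
            exact h (h1 ▸ hr e he)
    · intro e he
      rw [hvis']
      rcases (hmem e).1 he with h | rfl | ⟨-, rfl⟩
      · exact Or.inl (hr e h)
      · exact Or.inl hv
      · exact Or.inr rfl
    · intro i hi
      rw [hvis']
      rcases Nat.lt_succ_iff_lt_or_eq.1 hi with h | rfl
      · exact Or.inl (hused i h)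
      · rw [hidx]
        exact Or.inl hv
    · intro i hi e he hei
      rcases Nat.lt_succ_iff_lt_or_eq.1 hi with h | rfl
      · rcases (hmem e).1 he with h1 | rfl | ⟨h1, rfl⟩
        · exact hlt i h e (List.mem_cons_of_mem _ h1) hei
        · have h2 := hlt i h (v, k, x) (List.mem_cons_self ..) hei
          simp only at h2 ⊢
          omega
        · exfalso
          simp only at hei
          exact h1 (hei ▸ hused i h)
      · rw [hidx] at hei ⊢
        simp only at hei ⊢
        rcases (hmem e).1 he with h1 | rfl | ⟨h1, rfl⟩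
        · exact absurd hei (hvr e h1)
        · simp
        · exfalso
          simp only at hei
          exact h1 (hei ▸ hv)

theorem freshF : Fresh idxF := by
  have key : ∀ (a : ℕ → Al) (i j : ℕ), i < j → idxF (run a i) ≠ idxF (run a j) := by
    intro a i j h hij
    obtain ⟨v, k, x, r, hq⟩ : ∃ v k x r, (run a j).q = (v, k, x) :: r := by
      rcases hq : (run a j).q with _ | ⟨⟨v, k, x⟩, r⟩
      · exact absurd hq (q_ne a j)
      · exact ⟨v, k, x, r, rfl⟩
    have h2 : idxF (run a j) = (v, k) := by rw [idxF, hq]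
    have h3 := (invF a j).lt i h (v, k, x) (by rw [hq]; exact List.mem_cons_self ..)
    rw [hij, h2] at h3
    exact lt_irrefl _ (h3 rfl)
  intro a i j hij
  simp only at hij
  rcases lt_trichotomy i j with h | h | h
  · exact absurd hij (key a i j h)
  · exact h
  · exact absurd hij.symm (key a j i h)

end adapt_aux

open adapt_aux in
theorem t_adapt : S_adapt := by
  intro Ω _ P _ ξ hξ t
  refine ⟨meas_dep hξ idxF t, ?_⟩
  rw [lint hξ freshF t, lint hξ freshS t]

end FT4
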