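import Pool.Agent.helper237_FT4.Data
import Pool.Agent.helper237_FT4.Data2

/-!
# FT4: integer checks of the certificate (kernel)
-/

set_option autoImplicit false

namespace FT4.CertData

/-- the scale -/
def K : ℕ := 4294967296

def sumZ : ℕ → (ℕ → ℕ) → ℕ
  | 0, _ => 0
  | k + 1, f => sumZ k f + f k

def allN : ℕ → (ℕ → Bool) → Bool
  | 0, _ => true
  | k + 1, f => f k && allN k f

def TT (h z : ℕ) : ℕ := (tabT.getD h []).getD z 0
def NN (e : ℕ) : ℕ := tabN.getD e 0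
def SS (x n : ℕ) : ℕ := (tabS.getD x []).getD n 0
def rw' (y n m : ℕ) : List ℕ := ((tab y).getD n []).getD m []
def pp (y n m z : ℕ) : ℕ := (rw' y n m).getD z 0
def jj (n m z : ℕ) : ℕ := ((tabJ.getD n []).getD m []).getD z 0
def WW (i z e : ℕ) : ℕ := ((tabW.getD i []).getD z []).getD e 0

def aL : List ℕ := [4, 3, 3, 2, 2, 2, 1, 1, 1, 1, 0, 0, 0, 0, 0]
def bL : List ℕ := [0, 1, 0, 2, 1, 0, 3, 2, 1, 0, 4, 3, 2, 1, 0]
def cL : List ℕ := [0, 0, 1, 0, 1, 2, 0, 1, 2, 3, 0, 1, 2, 3, 4]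
def t01L : List ℕ := [1, 3, 4, 6, 7, 8, 10, 11, 12, 13, 10, 11, 12, 13, 14]
def t12L : List ℕ := [0, 2, 2, 4, 5, 5, 7, 8, 9, 9, 11, 12, 13, 14, 14]

/-- coefficient of a product in the truncated algebra -/
def pc (a b : List ℕ) (z : ℕ) : ℕ :=
  if z < 6 then sumZ (z + 1) (fun x => a.getD x 0 * b.getD (z - x) 0)
  else sumZ 7 (fun x => sumZ 7 (fun y => if 6 ≤ x + y then 2 ^ (x + y - 6) * (a.getD x 0 * b.getD y 0) else 0))

def pcs (a b : List ℕ) (z : ℕ) : ℕ :=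
  match a with
  | [] => 0
  | _ :: _ => match b with
    | [] => 0
    | _ :: _ => pc a b z

/-- `K ^ 2 * conv (P 1) (P y)` (`y = 7` is the batch) -/
def convN (y n n' z : ℕ) : ℕ := sumZ 15 (fun m => pcs (rw' 1 n m) (rw' y m n') z)

def chk1 : Bool := allN 6 fun y => allN 15 fun n => allN 15 fun n' => allN 7 fun z =>
  Nat.ble (convN y n n' z) (K * pp (y + 1) n n' z)

def chk2 : Bool := allN 15 fun n => allN 15 fun n' => allN 7 fun z =>
  Nat.ble (K * pp 6 n n' z + convN 7 n n' z) (2 * K * pp 7 n n' z)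

/-- `K ^ 2 * (sum over the law h of P y m n')` -/
def PQ (h m n' z : ℕ) : ℕ := sumZ 6 (fun y => TT h y * pp y m n' z) + TT h 6 * pp 7 m n' z

def JN (n n' z : ℕ) : ℕ :=
  aL.getD n 0 * (5 * PQ 0 (t01L.getD n 0) n' z) +
  bL.getD n 0 * (K * pp 1 n n' z + 4 * PQ 1 (t12L.getD n 0) n' z) +
  cL.getD n 0 * (K * pp 1 n n' z + 4 * PQ 2 n n' z)

def chk3 : Bool := allN 15 fun n => allN 15 fun n' => allN 7 fun z =>
  Nat.beq (jj n n' z) (JN n n' z) &&
  Nat.ble ((if Nat.beq n n' && Nat.beq z 1 then 5 * K * K else 0) + jj n n' z) (25 * K * pp 1 n n' z)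

def chk4 : Bool := allN 7 fun x =>
  (allN 15 fun n' => (Nat.beq x 0 && Nat.beq n' 14) || Nat.ble (pp 2 0 n' x) (SS x n')) &&
  Nat.beq (sumZ 15 (fun n' => SS x n')) (TT 0 x)

def chk5 : Bool := (allN 3 fun h => Nat.beq (sumZ 7 (TT h)) K) &&
  Nat.beq (NN 1 + NN 2 + NN 3 + NN 4) K &&
  (allN 15 fun n => allN 15 fun n' => allN 7 fun z =>
    Nat.ble (if Nat.beq n n' && Nat.beq z 0 then K else 0) (pp 0 n n' z))

/-- source measures: `i < 7` start rows, `i = 7` the star node -/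
def mu (i n : ℕ) : ℕ := if i < 7 then SS i n else
  if Nat.beq n 1 then NN 1 else if Nat.beq n 3 then NN 2 else if Nat.beq n 6 then NN 3 else
  if Nat.beq n 10 then NN 4 else 0

def massN (i : ℕ) : ℕ := if i < 7 then TT 0 i else K
def lawN (i : ℕ) : ℕ := if i < 7 then 1 else 2

def WN (i z e : ℕ) : ℕ :=
  sumZ 15 (fun n => mu i n * sumZ 15 (fun n' => if Nat.beq (4 - aL.getD n' 0) e then jj n n' z else 0))

def chk6 : Bool := allN 8 fun i => allN 7 fun z => allN 5 fun e => Nat.beq (WW i z e) (WN i z e)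

/-- sum of `WW` over `e = 1..k` -/
def We (i z k : ℕ) : ℕ := sumZ k (fun e => WW i z (e + 1))
/-- sum of `N` over `e = 1..k` -/
def Ne (k : ℕ) : ℕ := sumZ k (fun e => NN (e + 1))
/-- sum over `z = k..6` -/
def Wt (i k : ℕ) : ℕ := sumZ (7 - k) (fun j => We i (k + j) 4)
def Tt (h k : ℕ) : ℕ := sumZ (7 - k) (fun j => TT h (k + j))

def chk7 : Bool := allN 8 fun i =>
  (allN 7 fun z => Nat.beq (WW i z 0) 0) &&
  (allN 6 fun k => Nat.ble (Wt i (k + 1)) (20 * K * (massN i * Tt (lawN i) (k + 1)))) &&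
  (allN 6 fun z => allN 3 fun j => Nat.ble (K * We i (z + 1) (j + 1)) (Ne (j + 1) * We i (z + 1) 4)) &&
  (allN 3 fun j => Nat.ble (K * We i 0 (j + 1) + Ne (j + 1) * Wt i 1)
    (20 * K * K * (Ne (j + 1) * massN i)))

def chk8 : Bool :=
  (allN 6 fun k => Nat.ble (Tt 2 (k + 1)) (Tt 1 (k + 1)) &&
    Nat.ble ((if Nat.beq k 0 then K else 0) + 4 * Tt 1 (k + 1)) (5 * Tt 0 (k + 1))) &&
  Nat.ble (25 * (sumZ 6 (fun z => z * TT 0 z) + 7 * TT 0 6)) (24 * K) &&
  Nat.ble (5 * K + 20 * (sumZ 6 (fun z => z * TT 1 z) + 7 * TT 1 6)) (24 * K) &&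
  Nat.ble (5 * K + 20 * (sumZ 6 (fun z => z * TT 2 z) + 7 * TT 2 6)) (24 * K)

set_option maxRecDepth 100000

theorem ok1 : chk1 = true := by decide +kernel
theorem ok2 : chk2 = true := by decide +kernel
theorem ok3 : chk3 = true := by decide +kernel
theorem ok4 : chk4 = true := by decide +kernel
theorem ok5 : chk5 = true := by decide +kernel
theorem ok6 : chk6 = true := by decide +kernel
theorem ok7 : chk7 = true := by decide +kernel
theorem ok8 : chk8 = true := by decide +kernel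

end FT4.CertData
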