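import Pool.Agent.helper237_FT4.Stmts
import Pool.Agent.helper237_FT4.Check

set_option autoImplicit false

open scoped ENNReal BigOperators NNReal

namespace FT4

namespace cert_aux

open CertData

theorem sumZ_eq (k : ℕ) (f : ℕ → ℕ) : sumZ k f = ∑ i ∈ Finset.range k, f i := by
  induction k with
  | zero => rfl
  | succ k ih => rw [Finset.sum_range_succ, ← ih]; rfl

theorem allN_iff (k : ℕ) (f : ℕ → Bool) : allN k f = true ↔ ∀ i < k, f i = true := by
  induction k with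
  | zero => simp [allN]
  | succ k ih =>
    simp only [allN, Bool.and_eq_true, ih]
    constructor
    · rintro ⟨h1, h2⟩ i hi
      rcases Nat.lt_succ_iff_lt_or_eq.mp hi with h | h
      · exact h2 i h
      · subst h; exact h1
    · intro h
      exact ⟨h k (Nat.lt_succ_self k), fun i hi => h i (Nat.lt_succ_of_lt hi)⟩

/-- scaling by the `k`-th power of `K` -/
noncomputable def ek (k a : ℕ) : ℝ≥0∞ := (((a : ℝ≥0) / (K : ℝ≥0) ^ k : ℝ≥0) : ℝ≥0∞)

theorem K_ne : (K : ℝ≥0) ≠ 0 := by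
  have : (K : ℕ) ≠ 0 := by decide
  exact_mod_cast this

theorem ek_add (k a b : ℕ) : ek k (a + b) = ek k a + ek k b := by
  unfold ek
  rw [← ENNReal.coe_add]
  congr 1
  push_cast
  rw [add_div]

theorem ek_zero (k : ℕ) : ek k 0 = 0 := by simp [ek]

theorem ek_sum {ι : Type} (k : ℕ) (s : Finset ι) (f : ι → ℕ) :
    ∑ i ∈ s, ek k (f i) = ek k (∑ i ∈ s, f i) := by
  classical
  induction s using Finset.induction_on with
  | empty => simp [ek_zero]
  | insert a s ha ih => rw [Finset.sum_insert ha, Finset.sum_insert ha, ih, ek_add]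

theorem ek_mono (k : ℕ) {a b : ℕ} (h : a ≤ b) : ek k a ≤ ek k b := by
  unfold ek
  rw [ENNReal.coe_le_coe]
  have : (a : ℝ≥0) ≤ b := by exact_mod_cast h
  gcongr

theorem ek_mul (i j a b : ℕ) : ek i a * ek j b = ek (i + j) (a * b) := by
  unfold ek
  rw [← ENNReal.coe_mul]
  congr 1
  push_cast
  rw [pow_add]
  rw [div_mul_div_comm]

theorem ek_nat (k n a : ℕ) : (n : ℝ≥0∞) * ek k a = ek k (n * a) := by
  unfold ek
  rw [show (n : ℝ≥0∞) = ((n : ℝ≥0) : ℝ≥0∞) by simp, ← ENNReal.coe_mul]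
  congr 1
  push_cast
  rw [mul_div_assoc]

theorem ek_K (k a : ℕ) : ek (k + 1) (K * a) = ek k a := by
  unfold ek
  congr 1
  push_cast
  rw [pow_succ, mul_comm ((K : ℝ≥0) ^ k) (K : ℝ≥0), mul_div_mul_left _ _ K_ne]

theorem ek_one : ek 1 K = 1 := by
  have := ek_K 0 1
  rw [mul_one] at this
  rw [this]
  simp [ek]

theorem ek_fin (k a : ℕ) : ek k a ≠ ⊤ := by unfold ek; exact ENNReal.coe_ne_top

theorem pcf_lt (f g : ℕ → ℕ) (z : ℕ) (hz : z < 6) :
    ∑ x ∈ Finset.range (z + 1), f x * g (z - x) = ∑ x ∈ Finset.range 7, ∑ y ∈ Finset.range 7,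
      if min (x + y) 6 = z then 2 ^ (x + y - 6) * (f x * g y) else 0 := by
  have h1 : ∀ x ∈ Finset.range 7, (∑ y ∈ Finset.range 7,
      if min (x + y) 6 = z then 2 ^ (x + y - 6) * (f x * g y) else 0) =
      if x ∈ Finset.range (z + 1) then f x * g (z - x) else 0 := by
    intro x hx
    rw [Finset.mem_range] at hx
    by_cases hxz : x < z + 1
    · rw [if_pos (Finset.mem_range.mpr hxz)]
      rw [Finset.sum_eq_single (z - x)]
      · have h2 : min (x + (z - x)) 6 = z := by omega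
        have h3 : x + (z - x) - 6 = 0 := by omega
        rw [if_pos h2, h3, pow_zero, one_mul]
      · intro y hy hne
        rw [if_neg]
        omega
      · intro h
        exfalso
        apply h
        rw [Finset.mem_range]
        omega
    · rw [if_neg (by rw [Finset.mem_range]; exact hxz)]
      refine Finset.sum_eq_zero fun y hy => ?_
      rw [if_neg]
      omega
  rw [Finset.sum_congr rfl h1, Finset.sum_ite_mem]
  refine Finset.sum_congr ?_ fun _ _ => rfl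
  ext x
  simp only [Finset.mem_range, Finset.mem_inter]
  omega

/-- product coefficients -/
theorem pc_spec (a b : List ℕ) (z : ℕ) (hz : z ≤ 6) :
    pc a b z = ∑ x ∈ Finset.range 7, ∑ y ∈ Finset.range 7,
      if min (x + y) 6 = z then 2 ^ (x + y - 6) * (a.getD x 0 * b.getD y 0) else 0 := by
  unfold pc
  by_cases h : z < 6
  · rw [if_pos h, sumZ_eq]
    exact pcf_lt (fun x => a.getD x 0) (fun x => b.getD x 0) z h
  · have h6 : z = 6 := by omega
    subst h6
    rw [if_neg h, sumZ_eq]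
    refine Finset.sum_congr rfl fun x _ => ?_
    rw [sumZ_eq]
    refine Finset.sum_congr rfl fun y _ => ?_
    have h7 : (6 ≤ x + y) ↔ (min (x + y) 6 = 6) := by omega
    by_cases h8 : 6 ≤ x + y
    · rw [if_pos h8, if_pos (h7.mp h8)]
    · rw [if_neg h8, if_neg (fun h9 => h8 (h7.mpr h9))]

theorem pcs_spec (a b : List ℕ) (z : ℕ) (hz : z ≤ 6) :
    pcs a b z = ∑ x ∈ Finset.range 7, ∑ y ∈ Finset.range 7,
      if min (x + y) 6 = z then 2 ^ (x + y - 6) * (a.getD x 0 * b.getD y 0) else 0 := by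
  rcases a with _ | ⟨a0, a⟩
  · simp [pcs]
  · rcases b with _ | ⟨b0, b⟩
    · simp [pcs]
    · simp only [pcs]
      exact pc_spec _ _ z hz

theorem convN_spec (y : ℕ) (n n' : CS) (z : ℕ) (hz : z ≤ 6) :
    convN y n n' z = ∑ m : CS, ∑ u ∈ Finset.range 7, ∑ v ∈ Finset.range 7,
      if min (u + v) 6 = z then 2 ^ (u + v - 6) * (pp 1 n m u * pp y m n' v) else 0 := by
  rw [convN, sumZ_eq, Finset.sum_range]
  refine Finset.sum_congr rfl fun m _ => ?_
  rw [pcs_spec _ _ z hz]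
  rfl

theorem conv_eq (a c : CS → CS → ℕ → ℕ) (n n' : CS) (z : ℕ) :
    conv (fun n m x => ek 1 (a n m x)) (fun n m x => ek 1 (c n m x)) n n' z =
      ek 2 (∑ m : CS, ∑ u ∈ Finset.range 7, ∑ v ∈ Finset.range 7,
      if min (u + v) 6 = z then 2 ^ (u + v - 6) * (a n m u * c m n' v) else 0) := by
  unfold conv
  rw [← ek_sum]
  refine Finset.sum_congr rfl fun m _ => ?_
  rw [← ek_sum]
  refine Finset.sum_congr rfl fun u _ => ?_
  rw [← ek_sum]
  refine Finset.sum_congr rfl fun v _ => ?_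
  split_ifs with h
  · rw [ek_mul, show (2 : ℝ≥0∞) ^ (u + v - 6) = ((2 ^ (u + v - 6) : ℕ) : ℝ≥0∞) by push_cast; rfl,
      ek_nat]
  · rw [ek_zero]

/-! ### the data as extended reals -/

noncomputable def Tc (h : Fin 3) (z : ℕ) : ℝ≥0∞ := ek 1 (TT h z)
noncomputable def Pc (y : ℕ) (n m : CS) (z : ℕ) : ℝ≥0∞ := ek 1 (pp y n m z)
noncomputable def Bc (n m : CS) (z : ℕ) : ℝ≥0∞ := ek 1 (pp 7 n m z)
noncomputable def tc (x : ℕ) (n : CS) : ℝ≥0∞ := ek 1 (SS x n)
noncomputable def Nc (e : ℕ) : ℝ≥0∞ := ek 1 (NN e)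
noncomputable def Qc : Par :=
  ⟨fun h y => if y < 6 then Tc h y else Tc h 6 * (1 / 2) ^ (y - 6 + 1)⟩

theorem conv_c (y : ℕ) (n n' : CS) (z : ℕ) (hz : z ≤ 6) :
    conv (Pc 1) (Pc y) n n' z = ek 2 (convN y n n' z) := by
  rw [convN_spec y n n' z hz]
  exact conv_eq (fun n m x => pp 1 n m x) (fun n m x => pp y n m x) n n' z

theorem five : (1 / 5 : ℝ≥0∞) * 5 = 1 := by
  rw [one_div]
  exact ENNReal.inv_mul_cancel (by norm_num) (by norm_num)

theorem twenty : (1 / 20 : ℝ≥0∞) * 20 = 1 := by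
  rw [one_div]
  exact ENNReal.inv_mul_cancel (by norm_num) (by norm_num)

theorem four_twenty : (1 / 4 : ℝ≥0∞) * (1 / 5) = 1 / 20 := by
  rw [one_div, one_div, one_div, ← ENNReal.mul_inv (by norm_num) (by norm_num)]
  norm_num

theorem frac45 : (4 / 5 : ℝ≥0∞) = 1 / 5 * 4 := by
  rw [div_eq_mul_inv, mul_comm, one_div]

theorem five_ek (k a : ℕ) : (1 / 5 : ℝ≥0∞) * ek k (5 * a) = ek k a := by
  rw [← ek_nat, ← mul_assoc]
  push_cast
  rw [five, one_mul]

theorem twenty_ek (k a : ℕ) : (1 / 20 : ℝ≥0∞) * ek k (20 * a) = ek k a := by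
  rw [← ek_nat, ← mul_assoc]
  push_cast
  rw [twenty, one_mul]

theorem two_ek (k a : ℕ) : (1 / 2 : ℝ≥0∞) * ek k (2 * a) = ek k a := by
  rw [← ek_nat, ← mul_assoc]
  push_cast
  rw [one_div, ENNReal.inv_mul_cancel (by norm_num) (by norm_num), one_mul]

theorem fin_lt (n : CS) : (n : ℕ) < 15 := n.2

theorem PQ_c (h : Fin 3) (m n' : CS) (z : ℕ) :
    ∑ y ∈ Finset.range 6, Tc h y * Pc y m n' z + Tc h 6 * Bc m n' z = ek 2 (PQ h m n' z) := by
  unfold PQ
  rw [ek_add, sumZ_eq, ← ek_sum]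
  congr 1
  · refine Finset.sum_congr rfl fun y _ => ?_
    exact ek_mul 1 1 _ _
  · exact ek_mul 1 1 _ _

theorem aN_eq (n : CS) : aN n = aL.getD n 0 := by revert n; decide
theorem bN_eq (n : CS) : bN n = bL.getD n 0 := by revert n; decide
theorem cN_eq (n : CS) : cN n = cL.getD n 0 := by revert n; decide
theorem t01_eq (n : CS) : ((t01 n : CS) : ℕ) = t01L.getD n 0 := by revert n; decide
theorem t12_eq (n : CS) : ((t12 n : CS) : ℕ) = t12L.getD n 0 := by revert n; decide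

theorem chk3_spec (n n' : CS) (z : ℕ) (hz : z ≤ 6) :
    jj n n' z = JN n n' z ∧
    (if n = n' ∧ z = 1 then 5 * K * K else 0) + jj n n' z ≤ 25 * K * pp 1 n n' z := by
  have h := ok3
  unfold chk3 at h
  rw [allN_iff] at h
  have h1 := h n n.2
  rw [allN_iff] at h1
  have h2 := h1 n' n'.2
  rw [allN_iff] at h2
  have h3 := h2 z (by omega)
  rw [Bool.and_eq_true] at h3
  refine ⟨Nat.eq_of_beq_eq_true h3.1, ?_⟩
  have h4 := Nat.le_of_ble_eq_true h3.2
  refine le_trans (le_of_eq ?_) h4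
  congr 1
  by_cases hc : n = n' ∧ z = 1
  · rw [if_pos hc, if_pos]
    simp [hc.1, hc.2]
  · rw [if_neg hc, if_neg]
    intro hh
    rw [Bool.and_eq_true] at hh
    exact hc ⟨Fin.ext (Nat.eq_of_beq_eq_true hh.1), Nat.eq_of_beq_eq_true hh.2⟩

theorem Jw_c (n n' : CS) (z : ℕ) (hz : z ≤ 6) :
    Jw Tc Pc Bc n n' z = 1 / 5 * ek 2 (jj n n' z) := by
  rw [(chk3_spec n n' z hz).1]
  unfold Jw JN
  rw [PQ_c, PQ_c, PQ_c, frac45]
  rw [← aN_eq, ← bN_eq, ← cN_eq, ← t01_eq, ← t12_eq]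
  rw [show Pc 1 n n' z = ek 2 (K * pp 1 n n' z) from (ek_K 1 _).symm]
  rw [ek_add, ek_add]
  rw [← ek_nat 2 (aN n), ← ek_nat 2 (bN n), ← ek_nat 2 (cN n)]
  rw [ek_add, ek_add, ← ek_nat 2 4, ← ek_nat 2 4, mul_add, mul_add]
  have h5 : (1 / 5 : ℝ≥0∞) * ((aN n : ℝ≥0∞) * ek 2 (5 * PQ 0 (t01 n) n' z)) =
      (aN n : ℝ≥0∞) * ek 2 (PQ 0 (t01 n) n' z) := by
    rw [mul_left_comm, five_ek]
  have h6 : ((0 : Fin 3) : ℕ) = 0 := rfl
  have h7 : ((1 : Fin 3) : ℕ) = 1 := rfl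
  have h8 : ((2 : Fin 3) : ℕ) = 2 := rfl
  rw [h6, h7, h8, mul_add (1 / 5 : ℝ≥0∞), mul_add (1 / 5 : ℝ≥0∞), h5]
  push_cast
  ring

/-! ### the sources -/

theorem ww_c (i : ℕ) (hi : i < 8) (mm : CS → ℝ≥0∞) (hmm : ∀ n : CS, mm n = ek 1 (mu i n))
    (z e : ℕ) (hz : z ≤ 6) (he : e ≤ 4) :
    ww Tc Pc Bc mm z e = 1 / 20 * ek 3 (WW i z e) := by
  have h := ok6
  unfold chk6 at h
  rw [allN_iff] at h
  have h1 := h i hi
  rw [allN_iff] at h1
  have h2 := h1 z (by omega)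
  rw [allN_iff] at h2
  have h3 := Nat.eq_of_beq_eq_true (h2 e (by omega))
  rw [h3]
  unfold ww WN
  rw [sumZ_eq, Finset.sum_range]
  rw [← ek_sum 3 Finset.univ (fun n : Fin 15 => mu i n *
    sumZ 15 (fun n' => if Nat.beq (4 - aL.getD n' 0) e then jj n n' z else 0)), Finset.mul_sum]
  apply Finset.sum_congr rfl
  intro n _
  rw [hmm n, ← ek_mul 1 2, sumZ_eq, Finset.sum_range,
    ← ek_sum 2 Finset.univ (fun n' : Fin 15 =>
      if Nat.beq (4 - aL.getD n' 0) e then jj n n' z else 0), Finset.sum_filter,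
    mul_left_comm]
  congr 1
  rw [Finset.mul_sum]
  refine Finset.sum_congr rfl fun n' _ => ?_
  by_cases hc : 4 - aN n' = e
  · rw [if_pos hc, if_pos (by rw [← aN_eq, hc]; exact Nat.beq_refl e), Jw_c n n' z hz,
      ← mul_assoc, four_twenty]
  · rw [if_neg hc, if_neg, ek_zero, mul_zero]
    intro hb
    apply hc
    rw [aN_eq]
    exact Nat.eq_of_beq_eq_true hb

theorem sumIcc (k : ℕ) (f : ℕ → ℕ) : sumZ k (fun e => f (e + 1)) = ∑ e ∈ Finset.Icc 1 k, f e := by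
  rw [sumZ_eq]
  induction k with
  | zero => simp
  | succ k ih => rw [Finset.sum_range_succ, ih, Finset.sum_Icc_succ_top (by omega)]

theorem sumIcc6 (k : ℕ) (hk : k ≤ 6) (f : ℕ → ℕ) :
    sumZ (7 - k) (fun j => f (k + j)) = ∑ z ∈ Finset.Icc k 6, f z := by
  rw [sumZ_eq, Finset.sum_bij (fun j _ => k + j)]
  · intro j hj; rw [Finset.mem_range] at hj; rw [Finset.mem_Icc]; omega
  · intro a _ b _ h; omega
  · intro b hb; rw [Finset.mem_Icc] at hb
    exact ⟨b - k, by rw [Finset.mem_range]; omega, by omega⟩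
  · intro a _; rfl

theorem src_c (i : ℕ) (hi : i < 8) (mm : CS → ℝ≥0∞) (hmm : ∀ n : CS, mm n = ek 1 (mu i n))
    (h : Fin 3) (hh : (h : ℕ) = lawN i) :
    SrcOK Tc Pc Bc Nc mm (ek 1 (massN i)) h := by
  have hc := ok7
  unfold chk7 at hc
  rw [allN_iff] at hc
  have h1 := hc i hi
  rw [Bool.and_eq_true, Bool.and_eq_true, Bool.and_eq_true] at h1
  obtain ⟨⟨⟨ha, hb⟩, hcc⟩, hd⟩ := h1
  rw [allN_iff] at ha hb hcc hd
  have hW : ∀ z, z ≤ 6 → ∀ k, k ≤ 4 →
      ∑ e ∈ Finset.Icc 1 k, ww Tc Pc Bc mm z e = 1 / 20 * ek 3 (We i z k) := by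
    intro z hz k hk
    unfold We
    rw [sumIcc, ← ek_sum 3, Finset.mul_sum]
    refine Finset.sum_congr rfl fun e he => ?_
    rw [Finset.mem_Icc] at he
    exact ww_c i hi mm hmm z e hz (by omega)
  have hN : ∀ k, ∑ e ∈ Finset.Icc 1 k, Nc e = ek 1 (CertData.Ne k) := by
    intro k
    unfold CertData.Ne
    rw [sumIcc, ← ek_sum 1]
    rfl
  have hWt : ∀ k, k ≤ 6 → ∑ z ∈ Finset.Icc k 6, ∑ e ∈ Finset.Icc 1 4, ww Tc Pc Bc mm z e =
      1 / 20 * ek 3 (Wt i k) := by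
    intro k hk
    unfold Wt
    rw [sumIcc6 k hk (fun z => We i z 4), ← ek_sum 3, Finset.mul_sum]
    refine Finset.sum_congr rfl fun z hz => ?_
    rw [Finset.mem_Icc] at hz
    exact hW z hz.2 4 le_rfl
  have hT : ∀ k, k ≤ 6 → ∑ z ∈ Finset.Icc k 6, Tc h z = ek 1 (Tt (lawN i) k) := by
    intro k hk
    unfold Tt
    rw [sumIcc6 k hk (fun z => TT (lawN i) z), ← ek_sum 1, ← hh]
    rfl
  refine ⟨?_, ?_, ?_, ?_⟩
  · intro z hz
    rw [ww_c i hi mm hmm z 0 hz (by omega), Nat.eq_of_beq_eq_true (ha z (by omega)), ek_zero,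
      mul_zero]
  · intro k hk1 hk6
    have h2 := Nat.le_of_ble_eq_true (hb (k - 1) (by omega))
    rw [show k - 1 + 1 = k by omega] at h2
    have h4 : ek (1 + 1) (massN i * Tt (lawN i) k) =
        1 / 20 * ek 3 (20 * (K * (massN i * Tt (lawN i) k))) := by
      rw [twenty_ek, ek_K]
    rw [hWt k hk6, hT k hk6, ek_mul, h4]
    refine mul_le_mul' le_rfl (ek_mono 3 (le_trans h2 (le_of_eq ?_)))
    ring
  · intro z k hz1 hz6 hk1 hk3
    have h2 := hcc (z - 1) (by omega)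
    rw [allN_iff] at h2
    have h3 := Nat.le_of_ble_eq_true (h2 (k - 1) (by omega))
    rw [show k - 1 + 1 = k by omega, show z - 1 + 1 = z by omega] at h3
    rw [hW z hz6 k (by omega), hW z hz6 4 le_rfl, hN k, mul_left_comm, ek_mul, ← ek_K 3]
    exact mul_le_mul' le_rfl (ek_mono _ h3)
  · intro k hk1 hk3
    have h3 := Nat.le_of_ble_eq_true (hd (k - 1) (by omega))
    rw [show k - 1 + 1 = k by omega] at h3
    have h4 : ek (1 + 1) (CertData.Ne k * massN i) =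
        1 / 20 * ek 4 (20 * (K * (K * (CertData.Ne k * massN i)))) := by
      rw [twenty_ek, ek_K, ek_K]
    rw [hW 0 (by omega) k (by omega), hWt 1 (by omega), hN k, mul_left_comm, ek_mul, ek_mul, h4,
      ← ek_K 3, ← mul_add]
    rw [show (1 + 3 : ℕ) = 3 + 1 from rfl, ← ek_add]
    refine mul_le_mul' le_rfl (ek_mono _ (le_trans h3 (le_of_eq ?_)))
    ring

/-! ### the certificate -/

theorem ord_c (k : ℕ) (hk : k < 6) : Tt 2 (k + 1) ≤ Tt 1 (k + 1) ∧
    (if k = 0 then K else 0) + 4 * Tt 1 (k + 1) ≤ 5 * Tt 0 (k + 1) := by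
  have hc := ok8
  unfold chk8 at hc
  rw [Bool.and_eq_true, Bool.and_eq_true, Bool.and_eq_true] at hc
  obtain ⟨⟨⟨ha, _⟩, _⟩, _⟩ := hc
  rw [allN_iff] at ha
  have h1 := ha k hk
  rw [Bool.and_eq_true] at h1
  have h2 := Nat.le_of_ble_eq_true h1.2
  refine ⟨Nat.le_of_ble_eq_true h1.1, ?_⟩
  by_cases h : k = 0
  · rw [if_pos h]
    rw [if_pos (show Nat.beq k 0 = true by rw [h]; rfl)] at h2
    exact h2
  · rw [if_neg h]
    rw [if_neg (fun hb => h (Nat.eq_of_beq_eq_true hb))] at h2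
    exact h2

set_option maxRecDepth 100000 in
theorem mean_c : 25 * (sumZ 6 (fun z => z * TT 0 z) + 7 * TT 0 6) ≤ 24 * K ∧
    5 * K + 20 * (sumZ 6 (fun z => z * TT 1 z) + 7 * TT 1 6) ≤ 24 * K ∧
    5 * K + 20 * (sumZ 6 (fun z => z * TT 2 z) + 7 * TT 2 6) ≤ 24 * K := by
  have hc := ok8
  unfold chk8 at hc
  rw [Bool.and_eq_true, Bool.and_eq_true, Bool.and_eq_true] at hc
  obtain ⟨⟨⟨_, h0⟩, h1⟩, h2⟩ := hc
  exact ⟨Nat.le_of_ble_eq_true h0, Nat.le_of_ble_eq_true h1, Nat.le_of_ble_eq_true h2⟩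

theorem sumM (h : Fin 3) : ∑ z ∈ Finset.range 6, (z : ℝ≥0∞) * Tc h z + 7 * Tc h 6 =
    ek 1 (sumZ 6 (fun z => z * TT h z) + 7 * TT h 6) := by
  rw [ek_add, sumZ_eq, ← ek_sum 1, ← ek_nat 1 7]
  congr 1
  refine Finset.sum_congr rfl fun z _ => ?_
  rw [← ek_nat]
  rfl

theorem twentyfive_ek (k a : ℕ) : (1 / 25 : ℝ≥0∞) * ek k (25 * a) = ek k a := by
  rw [← ek_nat, ← mul_assoc]
  push_cast
  rw [one_div, ENNReal.inv_mul_cancel (by norm_num) (by norm_num), one_mul]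

theorem fifth : (1 / 25 : ℝ≥0∞) * 5 = 1 / 5 := by
  have h : (1 / 25 : ℝ≥0∞) = 1 / 5 * (1 / 5) := by
    rw [one_div, one_div, ← ENNReal.mul_inv (by norm_num) (by norm_num)]
    norm_num
  rw [h, mul_assoc, five, mul_one]

theorem meanS (S : ℕ) (h : 5 * K + 20 * S ≤ 24 * K) :
    1 / 5 + 4 / 5 * ek 1 S ≤ (24 / 25 : ℝ≥0∞) := by
  have h1 : (1 / 5 : ℝ≥0∞) = 1 / 25 * ek 1 (5 * K) := by
    rw [← ek_nat, ek_one, mul_one]
    push_cast
    rw [fifth]
  have h2 : (4 / 5 : ℝ≥0∞) * ek 1 S = 1 / 25 * ek 1 (20 * S) := by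
    rw [← ek_nat, ← mul_assoc, frac45, ← fifth, mul_assoc (1 / 25 : ℝ≥0∞) 5 4]
    norm_num
  have h3 : (24 / 25 : ℝ≥0∞) = 1 / 25 * ek 1 (24 * K) := by
    rw [← ek_nat, ek_one, div_eq_mul_inv, mul_comm, one_div, mul_one]
    norm_num
  rw [h2, h3, h1, ← mul_add, ← ek_add]
  exact mul_le_mul' le_rfl (ek_mono 1 h)

theorem frac2425 : (24 / 25 : ℝ≥0∞) = 1 / 25 * ek 1 (24 * K) := by
  rw [← ek_nat, ek_one, div_eq_mul_inv, mul_comm, one_div, mul_one]
  norm_num

end cert_aux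

open cert_aux CertData

noncomputable def theCert : Cert Qc where
  T := Tc
  P := Pc
  B := Bc
  t := tc
  N := Nc
  q_lt := fun h y hy => by
    show (if y < 6 then Tc h y else _) = _
    rw [if_pos hy]
  q_ge := fun h j => by
    show (if 6 + j < 6 then _ else Tc h 6 * (1 / 2) ^ (6 + j - 6 + 1)) = _
    rw [if_neg (by omega), show 6 + j - 6 + 1 = j + 1 by omega]
  T_sum := fun h => by
    have hc := ok5
    unfold chk5 at hc
    rw [Bool.and_eq_true, Bool.and_eq_true, allN_iff] at hc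
    have h1 := Nat.eq_of_beq_eq_true (hc.1.1 h h.2)
    rw [sumZ_eq] at h1
    show ∑ z ∈ Finset.range 7, ek 1 (TT h z) = 1
    rw [ek_sum, h1, ek_one]
  P0 := fun n n' z => by
    by_cases h : n = n' ∧ z = 0
    · obtain ⟨rfl, rfl⟩ := h
      have hc := ok5
      unfold chk5 at hc
      rw [Bool.and_eq_true, Bool.and_eq_true] at hc
      have h2 := hc.2
      rw [allN_iff] at h2
      have h3 := h2 n n.2
      rw [allN_iff] at h3
      have h4 := h3 n n.2
      rw [allN_iff] at h4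
      have h5 := Nat.le_of_ble_eq_true (h4 0 (by norm_num))
      rw [if_pos (by simp)] at h5
      rw [if_pos ⟨rfl, rfl⟩, ← ek_one]
      exact ek_mono 1 h5
    · rw [if_neg h]; exact bot_le
  Ps := fun y hy n n' z hz => by
    rw [conv_c y n n' z hz]
    have hc := ok1
    unfold chk1 at hc
    rw [allN_iff] at hc
    have h1 := hc y hy
    rw [allN_iff] at h1
    have h2 := h1 n n.2
    rw [allN_iff] at h2
    have h3 := h2 n' n'.2
    rw [allN_iff] at h3
    have h4 := Nat.le_of_ble_eq_true (h3 z (by omega))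
    refine le_trans (ek_mono 2 h4) (le_of_eq ?_)
    exact ek_K 1 _
  Bs := fun n n' z hz => by
    have h0 : conv (Pc 1) Bc n n' z = ek 2 (convN 7 n n' z) := conv_c 7 n n' z hz
    rw [h0]
    have hc := ok2
    unfold chk2 at hc
    rw [allN_iff] at hc
    have h2 := hc n n.2
    rw [allN_iff] at h2
    have h3 := h2 n' n'.2
    rw [allN_iff] at h3
    have h4 := Nat.le_of_ble_eq_true (h3 z (by omega))
    have h5 : Pc 6 n n' z = ek 2 (K * pp 6 n n' z) := (ek_K 1 _).symm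
    have h6 : Bc n n' z = 1 / 2 * ek 2 (2 * (K * pp 7 n n' z)) := by
      rw [two_ek, ek_K]; rfl
    rw [h5, h6, ← mul_add, ← ek_add]
    refine mul_le_mul' le_rfl (ek_mono 2 (le_trans h4 (le_of_eq ?_)))
    ring
  Rs := fun n n' z hz => by
    rw [Jw_c n n' z hz]
    have h1 := (chk3_spec n n' z hz).2
    have h2 : Pc 1 n n' z = 1 / 5 * (1 / 5 * ek 2 (5 * (5 * (K * pp 1 n n' z)))) := by
      rw [five_ek, five_ek, ek_K]; rfl
    have h3 : (if n = n' ∧ z = 1 then 1 else 0 : ℝ≥0∞) =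
        1 / 5 * ek 2 (if n = n' ∧ z = 1 then 5 * K * K else 0) := by
      split_ifs
      · rw [mul_assoc, five_ek, ek_K, ek_one]
      · rw [ek_zero, mul_zero]
    rw [h2, h3, ← mul_add, ← ek_add]
    refine mul_le_mul' le_rfl (mul_le_mul' le_rfl (ek_mono 2 (le_trans h1 (le_of_eq ?_))))
    ring
  B_fin := fun n n' z => ek_fin _ _
  t_ge := fun x n' hx hn => by
    have hc := ok4
    unfold chk4 at hc
    rw [allN_iff] at hc
    have h1 := hc x (by omega)
    rw [Bool.and_eq_true, allN_iff] at h1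
    have h2 := h1.1 n' n'.2
    rw [Bool.or_eq_true, Bool.and_eq_true] at h2
    rcases h2 with h2 | h2
    · exfalso
      exact hn ⟨Nat.eq_of_beq_eq_true h2.1, Fin.ext (Nat.eq_of_beq_eq_true h2.2)⟩
    · exact ek_mono 1 (Nat.le_of_ble_eq_true h2)
  t_sum := fun x hx => by
    have hc := ok4
    unfold chk4 at hc
    rw [allN_iff] at hc
    have h1 := hc x (by omega)
    rw [Bool.and_eq_true] at h1
    have h2 := Nat.eq_of_beq_eq_true h1.2
    rw [sumZ_eq, Finset.sum_range] at h2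
    show ∑ n' : Fin 15, ek 1 (SS x n') = ek 1 (TT 0 x)
    rw [ek_sum, h2]
  N_sum := by
    have hc := ok5
    unfold chk5 at hc
    rw [Bool.and_eq_true, Bool.and_eq_true] at hc
    have h1 := Nat.eq_of_beq_eq_true hc.1.2
    show ek 1 (NN 1) + ek 1 (NN 2) + ek 1 (NN 3) + ek 1 (NN 4) = 1
    rw [← ek_add, ← ek_add, ← ek_add, h1, ek_one]
  src_t := fun x hx => by
    have h1 := src_c x (by omega) (tc x) (fun n => by
      show ek 1 (SS x n) = ek 1 (mu x n)
      unfold mu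
      rw [if_pos (by omega)]) 1 (by
      unfold lawN
      rw [if_pos (by omega)]
      rfl)
    have h2 : ek 1 (massN x) = Tc 0 x := by
      unfold massN
      rw [if_pos (by omega)]
      rfl
    rw [← h2]
    exact h1
  src_N := by
    have h1 := src_c 7 (by norm_num) (starN Nc) (fun n => by
      unfold starN
      rw [show Finset.Icc 1 4 = ({1, 2, 3, 4} : Finset ℕ) from by decide]
      rw [Finset.sum_insert (by decide), Finset.sum_insert (by decide),
        Finset.sum_insert (by decide), Finset.sum_singleton]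
      fin_cases n <;> simp [chain, mu, Nc, ek_zero]) 2 (by
      unfold lawN
      rw [if_neg (by norm_num)]
      rfl)
    have h2 : ek 1 (massN 7) = 1 := by
      unfold massN
      rw [if_neg (by norm_num), ek_one]
    rw [← h2]
    exact h1
  ord21 := fun k hk1 hk6 => by
    have h := (ord_c (k - 1) (by omega)).1
    rw [show k - 1 + 1 = k by omega] at h
    have hT : ∀ h : Fin 3, ∑ z ∈ Finset.Icc k 6, Tc h z = ek 1 (Tt h k) := by
      intro h
      unfold Tt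
      rw [sumIcc6 k hk6 (fun z => TT h z), ← ek_sum 1]
      rfl
    rw [hT, hT]
    exact ek_mono 1 h
  ord10 := fun k hk1 hk6 => by
    have h := (ord_c (k - 1) (by omega)).2
    rw [show k - 1 + 1 = k by omega] at h
    have hT : ∀ h : Fin 3, ∑ z ∈ Finset.Icc k 6, Tc h z = ek 1 (Tt h k) := by
      intro h
      unfold Tt
      rw [sumIcc6 k hk6 (fun z => TT h z), ← ek_sum 1]
      rfl
    rw [hT, hT, frac45, mul_assoc]
    have h3 : (if k = 1 then 1 / 5 else 0 : ℝ≥0∞) = 1 / 5 * ek 1 (if k - 1 = 0 then K else 0) := by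
      by_cases hk : k = 1
      · rw [if_pos hk, if_pos (by omega), ek_one, mul_one]
      · rw [if_neg hk, if_neg (by omega), ek_zero, mul_zero]
    rw [h3, ← mul_add, ← five_ek 1 (Tt ((0 : Fin 3) : ℕ) k)]
    refine mul_le_mul' le_rfl ?_
    have h4 : (4 : ℝ≥0∞) * ek 1 (Tt ((1 : Fin 3) : ℕ) k) = ek 1 (4 * Tt 1 k) := by
      rw [← ek_nat]; rfl
    rw [h4, ← ek_add]
    exact ek_mono 1 h
  mean0 := by
    rw [sumM, frac2425, ← twentyfive_ek]
    exact mul_le_mul' le_rfl (ek_mono 1 mean_c.1)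
  mean1 := by
    rw [sumM]
    exact meanS _ mean_c.2.1
  mean2 := by
    rw [sumM]
    exact meanS _ mean_c.2.2

theorem t_cert : S_cert := ⟨Qc, ⟨theCert⟩⟩

end FT4

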