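import Pool.Agent.helper237_FT4.Stmts

/-!
# Frog model on the 4-ary tree: the closure theorem (project FT4, task clo, helper21)
-/

set_option autoImplicit false

open MeasureTheory ProbabilityTheory
open scoped ENNReal BigOperators

namespace FT4

namespace clo_aux

lemma c_t01 : ∀ (s : Fin 4 → Fin 3) (c : Fin 4), s c = 0 →
    cntS (Function.update s c 1) = t01 (cntS s) := by decide +kernel

lemma c_t12 : ∀ (s : Fin 4 → Fin 3) (c : Fin 4), s c = 1 →
    cntS (Function.update s c 2) = t12 (cntS s) := by decide +kernel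

lemma c_a : ∀ s : Fin 4 → Fin 3, (Finset.univ.filter fun c => s c = 0).card = aN (cntS s) := by
  decide +kernel

lemma c_b : ∀ s : Fin 4 → Fin 3, (Finset.univ.filter fun c => s c = 1).card = bN (cntS s) := by
  decide +kernel

lemma c_c : ∀ s : Fin 4 → Fin 3, (Finset.univ.filter fun c => s c = 2).card = cN (cntS s) := by
  decide +kernel

lemma c_low : ∀ s : Fin 4 → Fin 3,
    cntS (fun c => if s c = 0 then 0 else 1) = chain (4 - aN (cntS s)) := by
  decide +kernel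

lemma c_chain : ∀ e : Fin 4, ∀ s : Fin 4 → Fin 3, cntS s = chain (e.val + 1) →
    ∃ c, s c = 1 ∧ cntS (Function.update s c 0) = chain e.val := by
  decide +kernel

lemma c_bot : ∀ s : Fin 4 → Fin 3, cntS s = 14 → s = fun _ => 2 := by
  decide +kernel

lemma c_surj : ∀ n : CS, ∃ s : Fin 4 → Fin 3, cntS s = n := by
  decide +kernel

lemma c_zero : cntS (fun _ => 0) = 0 := by decide +kernel


/-! ### linearity of `opY` and `opN` -/

lemma opY_mono (Q : Par) (h : Fin 3) {F F' : ℕ → Fin 3 → ℝ≥0∞} (hF : ∀ y h', F y h' ≤ F' y h') :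
    opY Q h F ≤ opY Q h F' := by
  unfold opY
  split_ifs
  · exact ENNReal.tsum_le_tsum fun y => mul_le_mul_right (hF y 1) _
  · exact add_le_add (mul_le_mul_right (hF 1 1) _)
      (mul_le_mul_right (ENNReal.tsum_le_tsum fun y => mul_le_mul_right (hF y 2) _) _)
  · exact add_le_add (mul_le_mul_right (hF 1 2) _)
      (mul_le_mul_right (ENNReal.tsum_le_tsum fun y => mul_le_mul_right (hF y 2) _) _)

lemma opY_tsum {ι : Type} (Q : Par) (h : Fin 3) (F : ι → ℕ → Fin 3 → ℝ≥0∞) :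
    opY Q h (fun y h' => ∑' i, F i y h') = ∑' i, opY Q h (F i) := by
  unfold opY
  split_ifs
  · simp_rw [← ENNReal.tsum_mul_left]
    rw [ENNReal.tsum_comm]
  · rw [ENNReal.tsum_add, ENNReal.tsum_mul_left, ENNReal.tsum_mul_left]
    congr 2
    simp_rw [← ENNReal.tsum_mul_left]
    rw [ENNReal.tsum_comm]
  · rw [ENNReal.tsum_add, ENNReal.tsum_mul_left, ENNReal.tsum_mul_left]
    congr 2
    simp_rw [← ENNReal.tsum_mul_left]
    rw [ENNReal.tsum_comm]

lemma opY_add (Q : Par) (h : Fin 3) (F F' : ℕ → Fin 3 → ℝ≥0∞) :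
    opY Q h (fun y h' => F y h' + F' y h') = opY Q h F + opY Q h F' := by
  have h1 := opY_tsum Q h (fun (b : Bool) => if b then F else F')
  rw [tsum_bool] at h1
  simp only [tsum_bool] at h1
  simp only [Bool.false_eq_true, if_false, if_true] at h1
  rw [add_comm (opY Q h F)]
  rw [← h1]
  congr 1
  funext y h'
  rw [add_comm]

lemma opY_mul (Q : Par) (h : Fin 3) (a : ℝ≥0∞) (F : ℕ → Fin 3 → ℝ≥0∞) :
    opY Q h (fun y h' => a * F y h') = a * opY Q h F := by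
  unfold opY
  split_ifs
  · rw [← ENNReal.tsum_mul_left]
    exact tsum_congr fun y => by ring
  · rw [mul_add]
    congr 1
    · ring
    · rw [← mul_assoc, mul_comm a, mul_assoc]
      congr 1
      rw [← ENNReal.tsum_mul_left]
      exact tsum_congr fun y => by ring
  · rw [mul_add]
    congr 1
    · ring
    · rw [← mul_assoc, mul_comm a, mul_assoc]
      congr 1
      rw [← ENNReal.tsum_mul_left]
      exact tsum_congr fun y => by ring

lemma opN_mono (Q : Par) (n : CS) {F F' : ℕ → CS → ℝ≥0∞} (hF : ∀ y m, F y m ≤ F' y m) :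
    opN Q n F ≤ opN Q n F' := by
  unfold opN
  refine add_le_add (add_le_add ?_ ?_) ?_
  · exact mul_le_mul_right (opY_mono Q 0 fun y h => hF _ _) _
  · exact mul_le_mul_right (opY_mono Q 1 fun y h => hF _ _) _
  · exact mul_le_mul_right (opY_mono Q 2 fun y h => hF _ _) _

lemma opN_tsum {ι : Type} (Q : Par) (n : CS) (F : ι → ℕ → CS → ℝ≥0∞) :
    opN Q n (fun y m => ∑' i, F i y m) = ∑' i, opN Q n (F i) := by
  unfold opN
  rw [ENNReal.tsum_add, ENNReal.tsum_add, ENNReal.tsum_mul_left, ENNReal.tsum_mul_left,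
    ENNReal.tsum_mul_left]
  rw [opY_tsum Q 0 (fun i y _ => F i y (t01 n)),
    opY_tsum Q 1 (fun i y h => F i y (if h = 1 then n else t12 n)),
    opY_tsum Q 2 (fun i y _ => F i y n)]

lemma opN_mul (Q : Par) (n : CS) (a : ℝ≥0∞) (F : ℕ → CS → ℝ≥0∞) :
    opN Q n (fun y m => a * F y m) = a * opN Q n F := by
  unfold opN
  rw [opY_mul Q 0 a (fun y _ => F y (t01 n)),
    opY_mul Q 1 a (fun y h => F y (if h = 1 then n else t12 n)),
    opY_mul Q 2 a (fun y _ => F y n)]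
  ring

lemma opN_mul' (Q : Par) (n : CS) (a : ℝ≥0∞) (F : ℕ → CS → ℝ≥0∞) :
    opN Q n (fun y m => F y m * a) = opN Q n F * a := by
  rw [mul_comm _ a, ← opN_mul]
  congr 1
  funext y m
  rw [mul_comm]

lemma opN_add (Q : Par) (n : CS) (F F' : ℕ → CS → ℝ≥0∞) :
    opN Q n (fun y m => F y m + F' y m) = opN Q n F + opN Q n F' := by
  unfold opN
  rw [opY_add Q 0 (fun y _ => F y (t01 n)) (fun y _ => F' y (t01 n)),
    opY_add Q 1 (fun y h => F y (if h = 1 then n else t12 n))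
      (fun y h => F' y (if h = 1 then n else t12 n)),
    opY_add Q 2 (fun y _ => F y n) (fun y _ => F' y n)]
  ring

lemma abc4 : ∀ n : CS, aN n + bN n + cN n = 4 := by decide

lemma opN_const (Q : Par) (hc : ∀ (h : Fin 3) (C : ℝ≥0∞), opY Q h (fun _ _ => C) = C) (n : CS)
    (C : ℝ≥0∞) : opN Q n (fun _ _ => C) = 4 * C := by
  unfold opN
  rw [hc, hc, hc, ← add_mul, ← add_mul]
  congr 1
  exact_mod_cast abc4 n

/-- the counting lemma -/
lemma sum_children (Q : Par) (s : Fin 4 → Fin 3) (F : ℕ → CS → ℝ≥0∞) :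
    ∑ c : Fin 4, opY Q (s c) (fun y h => F y (cntS (Function.update s c h))) =
      opN Q (cntS s) F := by
  have key : ∀ c, opY Q (s c) (fun y h => F y (cntS (Function.update s c h))) =
      (if s c = 0 then opY Q 0 (fun y _ => F y (t01 (cntS s))) else 0) +
      (if s c = 1 then opY Q 1 (fun y h => F y (if h = 1 then cntS s else t12 (cntS s))) else 0) +
      (if s c = 2 then opY Q 2 (fun y _ => F y (cntS s)) else 0) := by
    intro c
    have h3 : s c = 0 ∨ s c = 1 ∨ s c = 2 := by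
      have : ∀ h : Fin 3, h = 0 ∨ h = 1 ∨ h = 2 := by decide
      exact this _
    rcases h3 with h | h | h
    · rw [h, if_pos rfl, if_neg (by decide), if_neg (by decide), add_zero, add_zero]
      unfold opY
      simp only [if_true]
      rw [c_t01 s c h]
    · rw [h, if_neg (by decide), if_pos rfl, if_neg (by decide), add_zero, zero_add]
      have hu : Function.update s c 1 = s := by rw [← h, Function.update_eq_self]
      unfold opY
      rw [if_neg (by decide), if_pos rfl, if_neg (by decide), if_pos rfl]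
      beta_reduce
      rw [hu, c_t12 s c h, if_pos rfl, if_neg (by decide)]
    · rw [h, if_neg (by decide), if_neg (by decide), if_pos rfl, zero_add, zero_add]
      have hu : Function.update s c 2 = s := by rw [← h, Function.update_eq_self]
      unfold opY
      rw [if_neg (by decide), if_neg (by decide), if_neg (by decide), if_neg (by decide)]
      beta_reduce
      rw [hu]
  rw [Finset.sum_congr rfl fun c _ => key c, Finset.sum_add_distrib, Finset.sum_add_distrib]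
  rw [← Finset.sum_filter, ← Finset.sum_filter, ← Finset.sum_filter]
  rw [Finset.sum_const, Finset.sum_const, Finset.sum_const, c_a, c_b, c_c]
  unfold opN
  simp only [nsmul_eq_mul]


/-! ### the laws -/

lemma q_exp {Q : Par} (K : Cert Q) (h : Fin 3) (f : ℕ → ℝ≥0∞) :
    ∑' y, Q.q h y * f y = ∑ y ∈ Finset.range 6, K.T h y * f y +
      K.T h 6 * ∑' j, (1 / 2) ^ (j + 1) * f (6 + j) := by
  refine Eq.trans (Summable.sum_add_tsum_nat_add' (f := fun y => Q.q h y * f y) (k := 6)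
    ENNReal.summable).symm ?_
  congr 1
  · exact Finset.sum_congr rfl fun y hy => by rw [K.q_lt h y (Finset.mem_range.mp hy)]
  · rw [← ENNReal.tsum_mul_left]
    refine tsum_congr fun j => ?_
    rw [add_comm j 6, K.q_ge, mul_assoc]

lemma geo1 : ∑' j : ℕ, ((1 / 2 : ℝ≥0∞)) ^ (j + 1) = 1 := by
  rw [ENNReal.tsum_geometric_add_one]
  rw [one_div, ENNReal.one_sub_inv_two, inv_inv]
  exact ENNReal.inv_mul_cancel (by norm_num) (by norm_num)

lemma T_le {Q : Par} (K : Cert Q) (h : Fin 3) (z : ℕ) (hz : z ≤ 6) : K.T h z ≤ 1 := by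
  rw [← K.T_sum h]
  exact Finset.single_le_sum (f := fun z => K.T h z) (fun _ _ => zero_le)
    (Finset.mem_range.mpr (by omega))

lemma geo_mean : ∑' j : ℕ, ((1 / 2 : ℝ≥0∞)) ^ (j + 1) * ((6 + j : ℕ) : ℝ≥0∞) ≠ ⊤ := by
  have h1 : Summable fun j : ℕ => ((1 / 2 : ℝ)) ^ (j + 1) * ((6 + j : ℕ) : ℝ) := by
    have h2 : Summable fun j : ℕ => ((j : ℝ)) ^ 1 * (1 / 2 : ℝ) ^ j :=
      summable_pow_mul_geometric_of_norm_lt_one 1 (by rw [Real.norm_eq_abs, abs_of_pos] <;> norm_num)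
    have h3 : Summable fun j : ℕ => (1 / 2 : ℝ) ^ j :=
      summable_geometric_of_lt_one (by norm_num) (by norm_num)
    refine ((h3.mul_left 3).add (h2.mul_left (1 / 2))).congr fun j => ?_
    push_cast
    ring
  have h4 : ∀ j : ℕ, ((1 / 2 : ℝ≥0∞)) ^ (j + 1) * ((6 + j : ℕ) : ℝ≥0∞) =
      ENNReal.ofReal (((1 / 2 : ℝ)) ^ (j + 1) * ((6 + j : ℕ) : ℝ)) := by
    intro j
    rw [ENNReal.ofReal_mul (by positivity), ENNReal.ofReal_pow (by norm_num),
      ENNReal.ofReal_natCast, ENNReal.ofReal_div_of_pos (by norm_num)]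
    norm_num
  rw [tsum_congr h4, ← ENNReal.ofReal_tsum_of_nonneg (fun j => by positivity) h1]
  exact ENNReal.ofReal_ne_top

lemma q_mean {Q : Par} (K : Cert Q) (h : Fin 3) : ∑' y, Q.q h y * (y : ℝ≥0∞) ≠ ⊤ := by
  rw [q_exp K h]
  refine ENNReal.add_ne_top.mpr ⟨?_, ?_⟩
  · refine ENNReal.sum_ne_top.mpr fun y hy => ?_
    exact ENNReal.mul_ne_top (ne_top_of_le_ne_top ENNReal.one_ne_top
      (T_le K h y (by have := Finset.mem_range.mp hy; omega))) (ENNReal.natCast_ne_top y)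
  · exact ENNReal.mul_ne_top (ne_top_of_le_ne_top ENNReal.one_ne_top (T_le K h 6 le_rfl)) geo_mean

lemma opY_mean {Q : Par} (K : Cert Q) (h : Fin 3) : opY Q h (fun y _ => (y : ℝ≥0∞)) ≠ ⊤ := by
  unfold opY
  have h5 : (4 / 5 : ℝ≥0∞) ≠ ⊤ := ENNReal.div_ne_top (by norm_num) (by norm_num)
  have h6 : (1 / 5 : ℝ≥0∞) * ((1 : ℕ) : ℝ≥0∞) ≠ ⊤ :=
    ENNReal.mul_ne_top (ENNReal.div_ne_top (by norm_num) (by norm_num)) (by norm_num)
  split_ifs
  · exact q_mean K 0
  · exact ENNReal.add_ne_top.mpr ⟨h6, ENNReal.mul_ne_top h5 (q_mean K 1)⟩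
  · exact ENNReal.add_ne_top.mpr ⟨h6, ENNReal.mul_ne_top h5 (q_mean K 2)⟩

lemma opN_mean {Q : Par} (K : Cert Q) (n : CS) : opN Q n (fun y _ => (y : ℝ≥0∞)) ≠ ⊤ := by
  unfold opN
  exact ENNReal.add_ne_top.mpr ⟨ENNReal.add_ne_top.mpr
    ⟨ENNReal.mul_ne_top (ENNReal.natCast_ne_top _) (opY_mean K 0),
    ENNReal.mul_ne_top (ENNReal.natCast_ne_top _) (opY_mean K 1)⟩,
    ENNReal.mul_ne_top (ENNReal.natCast_ne_top _) (opY_mean K 2)⟩

/-- a sequence with `L * e L` bounded tends to `0` -/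
lemma tend_zero (e : ℕ → ℝ≥0∞) (A : ℝ≥0∞) (hA : A ≠ ⊤) (h : ∀ L : ℕ, (L : ℝ≥0∞) * e L ≤ A) :
    Filter.Tendsto e Filter.atTop (nhds 0) := by
  have h1 : Filter.Tendsto (fun L : ℕ => A * ((L : ℝ≥0∞))⁻¹) Filter.atTop (nhds (A * 0)) :=
    ENNReal.Tendsto.const_mul ENNReal.tendsto_inv_nat_nhds_zero (Or.inr hA)
  rw [mul_zero] at h1
  refine tendsto_of_tendsto_of_tendsto_of_le_of_le' tendsto_const_nhds h1
    (Filter.Eventually.of_forall fun _ => zero_le) ?_
  filter_upwards [Filter.eventually_gt_atTop 0] with L hL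
  rw [← div_eq_mul_inv, ENNReal.le_div_iff_mul_le (Or.inl (by exact_mod_cast hL.ne'))
    (Or.inl (ENNReal.natCast_ne_top L)), mul_comm]
  exact h L

lemma Ik_tend {Q : Par} (K : Cert Q) (hIbd : S_Ibd) (p : ℕ) (n : CS) :
    Filter.Tendsto (fun L => Ik Q L p n) Filter.atTop (nhds 0) :=
  tend_zero _ (25 * p) (ENNReal.mul_ne_top (by norm_num) (ENNReal.natCast_ne_top p))
    fun L => hIbd Q ⟨K⟩ L p n

lemma err_tend {Q : Par} (K : Cert Q) (hIbd : S_Ibd) (n : CS) :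
    Filter.Tendsto (fun L => opN Q n (fun y m => Ik Q L y m)) Filter.atTop (nhds 0) := by
  refine tend_zero _ (25 * opN Q n (fun y _ => (y : ℝ≥0∞)))
    (ENNReal.mul_ne_top (by norm_num) (opN_mean K n)) fun L => ?_
  rw [← opN_mul, ← opN_mul]
  exact opN_mono Q n fun y m => hIbd Q ⟨K⟩ L y m

/-! ### weights -/

lemma wt_opN (Q : Par) (n : CS) (F : ℕ → ℕ → CS → ℝ≥0∞) (z : ℕ) :
    wt (fun x => opN Q n (F x)) z = opN Q n (fun y m => wt (fun x => F x y m) z) := by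
  unfold wt
  split_ifs
  · rfl
  · rw [opN_tsum Q n (fun j y m => 2 ^ j * F (6 + j) y m)]
    exact tsum_congr fun j => (opN_mul Q n _ _).symm

lemma wt_mul (a : ℝ≥0∞) (f : ℕ → ℝ≥0∞) (z : ℕ) : wt (fun x => a * f x) z = a * wt f z := by
  unfold wt
  split_ifs
  · rfl
  · rw [← ENNReal.tsum_mul_left]
    exact tsum_congr fun j => by ring

lemma wt_sum (f : CS → ℕ → ℝ≥0∞) (z : ℕ) : wt (fun x => ∑ n, f n x) z = ∑ n, wt (f n) z := by
  unfold wt
  split_ifs
  · rfl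
  · simp_rw [Finset.mul_sum]
    rw [Summable.tsum_finsetSum fun _ _ => ENNReal.summable]

lemma law_le {Q : Par} (K : Cert Q) (hWb : S_Wb) (L : ℕ) (m n' : CS) (z : ℕ) (hz : z ≤ 6)
    (h : Fin 3) : ∑' y, Q.q h y * wt (fun x => Mk Q L y m x n') z ≤
      ∑ y ∈ Finset.range 6, K.T h y * K.P y m n' z + K.T h 6 * K.B m n' z := by
  rw [q_exp K h]
  refine add_le_add (Finset.sum_le_sum fun y hy => ?_) ?_
  · refine mul_le_mul_right ((hWb Q K L m n' z hz).1 y ?_) _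
    have := Finset.mem_range.mp hy
    omega
  · exact mul_le_mul_right (hWb Q K L m n' z hz).2 _

lemma opN_wt_le {Q : Par} (K : Cert Q) (hWb : S_Wb) (L : ℕ) (n n' : CS) (z : ℕ) (hz : z ≤ 6) :
    opN Q n (fun y m => wt (fun x => Mk Q L y m x n') z) ≤ Jw K.T K.P K.B n n' z := by
  unfold opN Jw
  refine add_le_add (add_le_add ?_ ?_) ?_
  · refine mul_le_mul_right ?_ _
    unfold opY
    rw [if_pos rfl]
    exact law_le K hWb L (t01 n) n' z hz 0
  · refine mul_le_mul_right ?_ _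
    unfold opY
    rw [if_neg (by decide), if_pos rfl]
    refine add_le_add ?_ (mul_le_mul_right ?_ _)
    · refine mul_le_mul_right ?_ _
      beta_reduce
      rw [if_pos rfl]
      exact (hWb Q K L n n' z hz).1 1 (by norm_num)
    · have h1 : (if (2 : Fin 3) = 1 then n else t12 n) = t12 n := if_neg (by decide)
      beta_reduce
      rw [h1]
      exact law_le K hWb L (t12 n) n' z hz 1
  · refine mul_le_mul_right ?_ _
    unfold opY
    rw [if_neg (by decide), if_neg (by decide)]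
    refine add_le_add ?_ (mul_le_mul_right ?_ _)
    · exact mul_le_mul_right ((hWb Q K L n n' z hz).1 1 (by norm_num)) _
    · exact law_le K hWb L n n' z hz 2

/-! ### properties of `Zh` -/

section Z

variable {Q : Par} {U : ℕ → (Fin 4 → Fin 3) → ((ℕ → ℕ) → ℝ≥0∞) → ℝ≥0∞}

lemma Zh_mono (hU : UAx Q U) (n : CS) {H H' : (ℕ → ℕ) → ℝ≥0∞} (h : ∀ F, H F ≤ H' F) :
    Zh U n H ≤ Zh U n H' := by
  unfold Zh
  exact iSup₂_mono fun s _ => hU.mono 0 s H H' h

lemma Zh_bdd (hU : UAx Q U) (n : CS) {H : (ℕ → ℕ) → ℝ≥0∞} {C : ℝ≥0∞} (h : ∀ F, H F ≤ C) :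
    Zh U n H ≤ C :=
  iSup₂_le fun s _ => hU.bdd 0 s H C h

lemma le_Zh (s : Fin 4 → Fin 3) (H : (ℕ → ℕ) → ℝ≥0∞) : U 0 s H ≤ Zh U (cntS s) H :=
  le_iSup₂_of_le s rfl le_rfl

lemma Zh_low (hU : UAx Q U) (n : CS) {H : (ℕ → ℕ) → ℝ≥0∞} (hH : Monotone H) :
    Zh U n H ≤ Zh U (chain (4 - aN n)) H := by
  refine iSup₂_le fun s hs => ?_
  refine (hU.lev 0 s (fun c => if s c = 0 then 0 else 1) H hH ?_).trans ?_
  · intro c
    have h3 : ∀ h : Fin 3, (if h = 0 then (0 : Fin 3) else 1) ≤ h := by decide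
    exact h3 (s c)
  · have h := le_Zh (U := U) (fun c => if s c = 0 then 0 else 1) H
    rw [c_low s, hs] at h
    exact h

lemma Zh_chain_succ (hU : UAx Q U) {H : (ℕ → ℕ) → ℝ≥0∞} (hH : Monotone H) (e : ℕ) (he : e < 4) :
    Zh U (chain (e + 1)) H ≤ Zh U (chain e) H := by
  refine iSup₂_le fun s hs => ?_
  obtain ⟨c, hc, hc'⟩ := c_chain ⟨e, he⟩ s hs
  refine (hU.lev 0 s (Function.update s c 0) H hH ?_).trans ?_
  · intro d
    by_cases hd : d = c
    · rw [hd, Function.update_self]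
      exact Fin.zero_le _
    · rw [Function.update_of_ne hd]
  · have h := le_Zh (U := U) (Function.update s c 0) H
    rw [hc'] at h
    exact h

lemma Zh_chain (hU : UAx Q U) {H : (ℕ → ℕ) → ℝ≥0∞} (hH : Monotone H) (e e' : ℕ) (h : e ≤ e')
    (h4 : e' ≤ 4) : Zh U (chain e') H ≤ Zh U (chain e) H := by
  induction e', h using Nat.le_induction with
  | base => exact le_rfl
  | succ m hm ih => exact (Zh_chain_succ hU hH m (by omega)).trans (ih (by omega))

lemma Zh_bot (hU : UAx Q U) {H : (ℕ → ℕ) → ℝ≥0∞} (hH : Monotone H) (n : CS) :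
    Zh U 14 H ≤ Zh U n H := by
  refine iSup₂_le fun s hs => ?_
  rw [c_bot s hs]
  obtain ⟨s', hs'⟩ := c_surj n
  refine (hU.lev 0 (fun _ => 2) s' H hH ?_).trans ?_
  · intro c
    have h3 : ∀ h : Fin 3, h ≤ 2 := by decide
    exact h3 (s' c)
  · have h := le_Zh (U := U) s' H
    rw [hs'] at h
    exact h

/-! ### shifts -/

lemma cons0_mono : Monotone cons0 := by
  intro F F' h j
  unfold cons0
  split_ifs
  · exact le_rfl
  · exact h _

lemma cum_cons (y : ℕ) (l : List ℕ) : cum (y :: l) = cons0 (fun j => y + cum l j) := by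
  funext j
  cases j with
  | zero => simp [cum, cons0]
  | succ j => simp [cum, cons0]

/-- the shifted functional -/
abbrev Hs (H : (ℕ → ℕ) → ℝ≥0∞) (x : ℕ) : (ℕ → ℕ) → ℝ≥0∞ := fun F => H (cons0 (fun j => x + F j))

lemma Hs_mono {H : (ℕ → ℕ) → ℝ≥0∞} (hH : Monotone H) (x : ℕ) : Monotone (Hs H x) := by
  intro F F' h
  exact hH (cons0_mono fun j => Nat.add_le_add_left (h j) x)

lemma Hs_dep {H : (ℕ → ℕ) → ℝ≥0∞} {k : ℕ} (h : DepOn (k + 1) H) (x : ℕ) : DepOn k (Hs H x) := by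
  intro F F' hF
  refine h _ _ fun j hj => ?_
  unfold cons0
  split_ifs with h0
  · rfl
  · beta_reduce
    rw [hF (j - 1) (by omega)]

lemma Hs_succ {H : (ℕ → ℕ) → ℝ≥0∞} (hH : Monotone H) (x : ℕ) (F : ℕ → ℕ) :
    Hs H x F ≤ Hs H (x + 1) F :=
  hH (cons0_mono fun j => Nat.add_le_add_right (Nat.le_succ x) (F j))

/-! ### the basic step -/

lemma basic1 (hn : Norm Q) (hD : S_D) (hU : UAx Q U) {H : (ℕ → ℕ) → ℝ≥0∞} {C : ℝ≥0∞}
    (hH : Monotone H) (hC : ∀ F, H F ≤ C) (L : ℕ) (n : CS) :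
    Zh U n H ≤ 1 / 5 * Zh U n (Hs H 1) + 1 / 5 * opN Q n (fun y m =>
      (∑' x, ∑ n', Mk Q L y m x n' * Zh U n' (Hs H x)) + C * Ik Q L y m) := by
  refine iSup₂_le fun s hs => ?_
  have hm : Monotone (fun F => H (cons0 F)) := fun F F' h => hH (cons0_mono h)
  have h1 := hU.zero s H
  have h2 := hU.step 0 s (fun F => H (cons0 F)) hm
  simp only [zero_add] at h2
  refine h1.trans (h2.trans ?_)
  rw [← hs]
  refine add_le_add (mul_le_mul_right (le_Zh s _) _) ?_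
  rw [← sum_children Q s, Finset.mul_sum]
  refine Finset.sum_le_sum fun c _ => mul_le_mul_right (opY_mono Q (s c) fun y h => ?_) _
  exact hD Q U hn hU (fun F => H (cons0 F)) C hm (fun F => hC _) L y (Function.update s c h)

lemma opN_fsum (Q : Par) (n : CS) (F : CS → ℕ → CS → ℝ≥0∞) :
    opN Q n (fun y m => ∑ i, F i y m) = ∑ i, opN Q n (F i) := by
  have h := opN_tsum Q n F
  simp only [tsum_fintype] at h
  exact h

lemma opN_psi (L : ℕ) (n : CS) (f : ℕ → CS → ℝ≥0∞) (C : ℝ≥0∞) :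
    opN Q n (fun y m => (∑' x, ∑ n', Mk Q L y m x n' * f x n') + C * Ik Q L y m) =
      (∑' x, ∑ n', opN Q n (fun y m => Mk Q L y m x n') * f x n') +
        C * opN Q n (fun y m => Ik Q L y m) := by
  rw [opN_add, opN_mul]
  congr 1
  rw [opN_tsum Q n (fun x y m => ∑ n', Mk Q L y m x n' * f x n')]
  refine tsum_congr fun x => ?_
  rw [opN_fsum Q n (fun n' y m => Mk Q L y m x n' * f x n')]
  refine Finset.sum_congr rfl fun n' _ => ?_
  exact opN_mul' Q n (f x n') (fun y m => Mk Q L y m x n')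

lemma c45 : (4 / 5 : ℝ≥0∞) * (1 / 4) = 1 / 5 := by
  have h1 : (4 / 5 : ℝ≥0∞) = 4 * (1 / 5) := by rw [mul_one_div]
  have h2 : (4 : ℝ≥0∞) * (1 / 4) = 1 := by
    rw [mul_one_div]
    exact ENNReal.div_self (by norm_num) (by norm_num)
  rw [h1, mul_assoc, mul_comm (1 / 5 : ℝ≥0∞), ← mul_assoc, h2, one_mul]

lemma c14 : (1 / 4 : ℝ≥0∞) * 4 = 1 := by
  rw [mul_comm, mul_one_div]
  exact ENNReal.div_self (by norm_num) (by norm_num)

/-- exchange of sums -/
lemma exch (mu : CS → ℝ≥0∞) (o : CS → ℕ → CS → ℝ≥0∞) (f : ℕ → CS → ℝ≥0∞) :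
    ∑' x, ∑ n', (∑ n, mu n * (1 / 4 * o n x n')) * f x n' =
      1 / 4 * ∑ n, mu n * ∑' x, ∑ n', o n x n' * f x n' := by
  have h1 : ∀ x, ∑ n', (∑ n, mu n * (1 / 4 * o n x n')) * f x n' =
      ∑ n, (1 / 4 * mu n) * ∑ n', o n x n' * f x n' := by
    intro x
    simp_rw [Finset.sum_mul, Finset.mul_sum]
    rw [Finset.sum_comm]
    refine Finset.sum_congr rfl fun n _ => Finset.sum_congr rfl fun n' _ => by ring
  rw [tsum_congr h1, Summable.tsum_finsetSum fun _ _ => ENNReal.summable, Finset.mul_sum]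
  refine Finset.sum_congr rfl fun n _ => ?_
  rw [ENNReal.tsum_mul_left, mul_assoc]


/-- the generic step, for a source `mu` of mass `mass` -/
lemma basic (K : Cert Q) (hD : S_D) (hmass : S_mass) (hIbd : S_Ibd) (hWb : S_Wb)
    (hdomin : S_domin) (hey : S_ey) (hU : UAx Q U) {H : (ℕ → ℕ) → ℝ≥0∞} {C : ℝ≥0∞} (hCt : C ≠ ⊤)
    (hH : Monotone H) (hC : ∀ F, H F ≤ C) (mu : CS → ℝ≥0∞) (mass : ℝ≥0∞) (h : Fin 3)
    (hmt : mass ≠ ⊤) (hsum : ∑ n, mu n ≤ mass) (hsrc : SrcOK K.T K.P K.B K.N mu mass h) :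
    ∑ n, mu n * Zh U n H ≤ 1 / 5 * ∑ n, mu n * Zh U n (Hs H 1) +
      4 / 5 * (mass * ∑' y, Q.q h y * ∑ e ∈ Finset.Icc 1 4, K.N e * Zh U (chain e) (Hs H y)) := by
  have hn : Norm Q := hey.1 Q ⟨K⟩
  have hconst : ∀ (h : Fin 3) (C : ℝ≥0∞), opY Q h (fun _ _ => C) = C := fun h C =>
    hey.2.2.1 Q h C hn
  have hmn : ∀ n, mu n ≠ ⊤ := fun n => ne_top_of_le_ne_top hmt
    ((Finset.single_le_sum (f := mu) (fun _ _ => zero_le) (Finset.mem_univ n)).trans hsum)
  have hL : ∀ L : ℕ, ∑ n, mu n * Zh U n H ≤ (1 / 5 * ∑ n, mu n * Zh U n (Hs H 1) +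
      4 / 5 * (mass * ∑' y, Q.q h y * ∑ e ∈ Finset.Icc 1 4, K.N e * Zh U (chain e) (Hs H y))) +
      1 / 5 * C * ∑ n, mu n * opN Q n (fun y m => Ik Q L y m) := by
    intro L
    have h1 : ∑ n, mu n * Zh U n H ≤ ∑ n, mu n * (1 / 5 * Zh U n (Hs H 1) +
        1 / 5 * ((∑' x, ∑ n', opN Q n (fun y m => Mk Q L y m x n') * Zh U n' (Hs H x)) +
        C * opN Q n (fun y m => Ik Q L y m))) := by
      refine Finset.sum_le_sum fun n _ => mul_le_mul_right ?_ _
      rw [← opN_psi L n (fun x n' => Zh U n' (Hs H x)) C]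
      exact basic1 hn hD hU hH hC L n
    refine h1.trans ?_
    have h2 : ∑ n, mu n * (1 / 5 * Zh U n (Hs H 1) +
        1 / 5 * ((∑' x, ∑ n', opN Q n (fun y m => Mk Q L y m x n') * Zh U n' (Hs H x)) +
        C * opN Q n (fun y m => Ik Q L y m))) =
        (1 / 5 * ∑ n, mu n * Zh U n (Hs H 1) +
        1 / 5 * ∑ n, mu n * (∑' x, ∑ n', opN Q n (fun y m => Mk Q L y m x n') *
          Zh U n' (Hs H x))) + 1 / 5 * C * ∑ n, mu n * opN Q n (fun y m => Ik Q L y m) := by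
      simp only [Finset.mul_sum, ← Finset.sum_add_distrib]
      exact Finset.sum_congr rfl fun n _ => by ring
    rw [h2]
    refine add_le_add (add_le_add le_rfl ?_) le_rfl
    rw [← c45, mul_assoc, ← exch mu (fun n x n' => opN Q n (fun y m => Mk Q L y m x n'))]
    refine mul_le_mul_right ?_ _
    refine hdomin Q K mu mass h hmt hsrc (fun x n' => Zh U n' (Hs H x)) C hCt
      (fun x n => Zh_bdd hU n fun F => hC _) (fun x n => Zh_mono hU n fun F => Hs_succ hH x F)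
      (fun x n => Zh_low hU n (Hs_mono hH x))
      (fun x e e' he he' => Zh_chain hU (Hs_mono hH x) e e' he he')
      (fun x n' => ∑ n, mu n * (1 / 4 * opN Q n (fun y m => Mk Q L y m x n'))) ?_ ?_
    · have h3 := exch mu (fun n x n' => opN Q n (fun y m => Mk Q L y m x n')) (fun _ _ => 1)
      simp only [mul_one] at h3
      rw [h3]
      refine le_trans ?_ hsum
      rw [Finset.mul_sum]
      refine Finset.sum_le_sum fun n _ => ?_
      have h4 : ∑' x, ∑ n', opN Q n (fun y m => Mk Q L y m x n') ≤ 4 * 1 := by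
        rw [← opN_const Q hconst n 1]
        have h5 : ∑' x, ∑ n', opN Q n (fun y m => Mk Q L y m x n') =
            opN Q n (fun y m => ∑' x, ∑ n', Mk Q L y m x n') := by
          rw [opN_tsum Q n (fun x y m => ∑ n', Mk Q L y m x n')]
          exact tsum_congr fun x => (opN_fsum Q n (fun n' y m => Mk Q L y m x n')).symm
        rw [h5]
        refine opN_mono Q n fun y m => ?_
        rw [← hmass Q ⟨K⟩ L y m]
        exact le_self_add
      calc 1 / 4 * (mu n * ∑' x, ∑ n', opN Q n (fun y m => Mk Q L y m x n'))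
          ≤ 1 / 4 * (mu n * (4 * 1)) := by gcongr
        _ = 1 / 4 * 4 * mu n := by ring
        _ = mu n := by rw [c14, one_mul]
    · intro z n' hz
      rw [wt_sum (fun n x => mu n * (1 / 4 * opN Q n (fun y m => Mk Q L y m x n')))]
      refine Finset.sum_le_sum fun n _ => ?_
      rw [wt_mul (mu n) (fun x => 1 / 4 * opN Q n (fun y m => Mk Q L y m x n')),
        wt_mul (1 / 4) (fun x => opN Q n (fun y m => Mk Q L y m x n')),
        wt_opN Q n (fun x y m => Mk Q L y m x n')]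
      exact mul_le_mul_right (mul_le_mul_right (opN_wt_le K hWb L n n' z hz) _) _
  have ht : Filter.Tendsto (fun L : ℕ => (1 / 5 * ∑ n, mu n * Zh U n (Hs H 1) +
      4 / 5 * (mass * ∑' y, Q.q h y * ∑ e ∈ Finset.Icc 1 4, K.N e * Zh U (chain e) (Hs H y))) +
      1 / 5 * C * ∑ n, mu n * opN Q n (fun y m => Ik Q L y m)) Filter.atTop
      (nhds ((1 / 5 * ∑ n, mu n * Zh U n (Hs H 1) +
      4 / 5 * (mass * ∑' y, Q.q h y * ∑ e ∈ Finset.Icc 1 4, K.N e * Zh U (chain e) (Hs H y))) +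
      1 / 5 * C * ∑ n, mu n * 0)) := by
    refine Filter.Tendsto.add tendsto_const_nhds ?_
    refine ENNReal.Tendsto.const_mul ?_ (Or.inr (ENNReal.mul_ne_top
      (ENNReal.div_ne_top (by norm_num) (by norm_num)) hCt))
    refine tendsto_finsetSum _ fun n _ => ?_
    exact ENNReal.Tendsto.const_mul (err_tend K hIbd n) (Or.inr (hmn n))
  simp only [mul_zero, Finset.sum_const_zero, add_zero] at ht
  exact ge_of_tendsto' ht hL

/-! ### tails and the start -/

lemma two_half (i : ℕ) : (2 : ℝ≥0∞) ^ i * (1 / 2) ^ i = 1 := by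
  rw [← mul_pow, mul_one_div, ENNReal.div_self (by norm_num) (by norm_num), one_pow]

lemma tail_le (m ψ : ℕ → ℝ≥0∞) (hψ : ∀ j, ψ j ≤ ψ (j + 1)) :
    ∑' j, m j * ψ j ≤ (∑' j, 2 ^ j * m j) * ∑' j, (1 / 2) ^ (j + 1) * ψ j := by
  have hmono : Monotone ψ := monotone_nat_of_le_succ hψ
  rw [← ENNReal.tsum_mul_right]
  refine ENNReal.tsum_le_tsum fun i => ?_
  have h1 : (1 / 2) ^ i * ψ i ≤ ∑' j, ((1 / 2 : ℝ≥0∞)) ^ (j + 1) * ψ j := by
    refine le_trans ?_ (ENNReal.tsum_comp_le_tsum_of_injective (f := fun j => i + j)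
      (add_right_injective i) (fun j => ((1 / 2 : ℝ≥0∞)) ^ (j + 1) * ψ j))
    calc (1 / 2) ^ i * ψ i = (1 / 2) ^ i * ψ i * ∑' j : ℕ, ((1 / 2 : ℝ≥0∞)) ^ (j + 1) := by
          rw [geo1, mul_one]
      _ = ∑' j : ℕ, (1 / 2) ^ i * ψ i * ((1 / 2 : ℝ≥0∞)) ^ (j + 1) := by
          rw [ENNReal.tsum_mul_left]
      _ ≤ ∑' j : ℕ, ((1 / 2 : ℝ≥0∞)) ^ (i + j + 1) * ψ (i + j) := by
          refine ENNReal.tsum_le_tsum fun j => ?_
          calc (1 / 2) ^ i * ψ i * ((1 / 2 : ℝ≥0∞)) ^ (j + 1)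
              = ((1 / 2 : ℝ≥0∞)) ^ (i + j + 1) * ψ i := by ring
            _ ≤ ((1 / 2 : ℝ≥0∞)) ^ (i + j + 1) * ψ (i + j) :=
              mul_le_mul_right (hmono (Nat.le_add_right i j)) _
  calc m i * ψ i = 2 ^ i * (1 / 2) ^ i * (m i * ψ i) := by rw [two_half, one_mul]
    _ = 2 ^ i * m i * ((1 / 2) ^ i * ψ i) := by ring
    _ ≤ 2 ^ i * m i * ∑' j, ((1 / 2 : ℝ≥0∞)) ^ (j + 1) * ψ j := mul_le_mul_right h1 _

lemma split6 (f : ℕ → ℝ≥0∞) : ∑' x, f x = ∑ x ∈ Finset.range 6, f x + ∑' j, f (6 + j) := by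
  refine Eq.trans (Summable.sum_add_tsum_nat_add' (f := f) (k := 6) ENNReal.summable).symm ?_
  congr 1
  exact tsum_congr fun j => by rw [add_comm]

lemma start_le (m t φ : ℕ → CS → ℝ≥0∞) (C : ℝ≥0∞) (hC : C ≠ ⊤) (hφC : ∀ x n, φ x n ≤ C)
    (hφ : ∀ x n, φ x n ≤ φ (x + 1) n) (hb : ∀ x n, φ 0 14 ≤ φ x n)
    (hm : ∑' x, ∑ n', m x n' ≤ 1)
    (hw : ∀ z n', z ≤ 6 → ¬ (z = 0 ∧ n' = 14) → wt (fun x => m x n') z ≤ t z n')
    (ht : ∑ z ∈ Finset.range 6, ∑ n', t z n' + ∑ n', t 6 n' = 1) :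
    ∑' x, ∑ n', m x n' * φ x n' ≤ ∑ x ∈ Finset.range 6, ∑ n', t x n' * φ x n' +
      ∑ n', t 6 n' * ∑' j, (1 / 2) ^ (j + 1) * φ (6 + j) n' := by
  obtain ⟨b, hbdef⟩ : ∃ b, b = φ 0 14 := ⟨_, rfl⟩
  have hbt : b ≠ ⊤ := hbdef ▸ ne_top_of_le_ne_top hC (hφC 0 14)
  obtain ⟨ψ, hψdef⟩ : ∃ ψ : ℕ → CS → ℝ≥0∞, ψ = fun x n => φ x n - b := ⟨_, rfl⟩
  have hφψ : ∀ x n, φ x n = b + ψ x n := by
    intro x n
    rw [hψdef]
    exact (add_tsub_cancel_of_le (hbdef ▸ hb x n)).symm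
  have hψ0 : ψ 0 14 = 0 := by
    rw [hψdef, hbdef]
    exact tsub_self _
  have hψm : ∀ x n, ψ x n ≤ ψ (x + 1) n := by
    intro x n
    rw [hψdef]
    exact tsub_le_tsub_right (hφ x n) b
  have h1 : ∑' x, ∑ n', m x n' * φ x n' = b * (∑' x, ∑ n', m x n') + ∑' x, ∑ n', m x n' * ψ x n' := by
    rw [← ENNReal.tsum_mul_left, ← ENNReal.tsum_add]
    refine tsum_congr fun x => ?_
    rw [Finset.mul_sum, ← Finset.sum_add_distrib]
    refine Finset.sum_congr rfl fun n' _ => ?_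
    rw [hφψ]
    ring
  have h2 : ∑' x, ∑ n', m x n' * ψ x n' ≤ ∑ x ∈ Finset.range 6, ∑ n', t x n' * ψ x n' +
      ∑ n', t 6 n' * ∑' j, (1 / 2) ^ (j + 1) * ψ (6 + j) n' := by
    rw [split6]
    refine add_le_add (Finset.sum_le_sum fun x hx => Finset.sum_le_sum fun n' _ => ?_) ?_
    · have hx6 := Finset.mem_range.mp hx
      by_cases h0 : x = 0 ∧ n' = 14
      · rw [h0.1, h0.2, hψ0, mul_zero, mul_zero]
      · have h3 := hw x n' hx6.le h0
        unfold wt at h3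
        rw [if_pos hx6] at h3
        exact mul_le_mul_left h3 _
    · rw [Summable.tsum_finsetSum fun _ _ => ENNReal.summable]
      refine Finset.sum_le_sum fun n' _ => ?_
      refine (tail_le (fun j => m (6 + j) n') (fun j => ψ (6 + j) n') fun j => ?_).trans ?_
      · exact hψm (6 + j) n'
      · have h3 := hw 6 n' le_rfl (by omega)
        unfold wt at h3
        rw [if_neg (by norm_num)] at h3
        exact mul_le_mul_left h3 _
  have h3 : ∀ n', ∑' j, ((1 / 2 : ℝ≥0∞)) ^ (j + 1) * φ (6 + j) n' =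
      b + ∑' j, ((1 / 2 : ℝ≥0∞)) ^ (j + 1) * ψ (6 + j) n' := by
    intro n'
    have h4 : ∀ j : ℕ, ((1 / 2 : ℝ≥0∞)) ^ (j + 1) * φ (6 + j) n' =
        b * (1 / 2) ^ (j + 1) + (1 / 2) ^ (j + 1) * ψ (6 + j) n' := by
      intro j
      rw [hφψ]
      ring
    rw [tsum_congr h4, ENNReal.tsum_add, ENNReal.tsum_mul_left, geo1, mul_one]
  have h4 : ∑ x ∈ Finset.range 6, ∑ n', t x n' * φ x n' +
      ∑ n', t 6 n' * ∑' j, (1 / 2) ^ (j + 1) * φ (6 + j) n' =
      b * (∑ z ∈ Finset.range 6, ∑ n', t z n' + ∑ n', t 6 n') +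
      (∑ x ∈ Finset.range 6, ∑ n', t x n' * ψ x n' +
      ∑ n', t 6 n' * ∑' j, (1 / 2) ^ (j + 1) * ψ (6 + j) n') := by
    have h5 : ∑ x ∈ Finset.range 6, ∑ n', t x n' * φ x n' =
        b * (∑ z ∈ Finset.range 6, ∑ n', t z n') +
        ∑ x ∈ Finset.range 6, ∑ n', t x n' * ψ x n' := by
      simp only [Finset.mul_sum, ← Finset.sum_add_distrib]
      refine Finset.sum_congr rfl fun x _ => Finset.sum_congr rfl fun n' _ => ?_
      rw [hφψ]
      ring
    have h6 : ∑ n', t 6 n' * ∑' j, (1 / 2) ^ (j + 1) * φ (6 + j) n' =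
        b * (∑ n', t 6 n') + ∑ n', t 6 n' * ∑' j, (1 / 2) ^ (j + 1) * ψ (6 + j) n' := by
      rw [Finset.mul_sum, ← Finset.sum_add_distrib]
      refine Finset.sum_congr rfl fun n' _ => ?_
      rw [h3]
      ring
    rw [h5, h6]
    ring
  rw [h1, h4, ht]
  exact add_le_add (mul_le_mul_right hm _) h2

/-! ### the claims -/

lemma EY_succ1 (k : ℕ) (G : List ℕ → ℝ≥0∞) : EY Q (k + 1) 1 G =
    1 / 5 * EY Q k 1 (fun l => G (1 :: l)) +
      4 / 5 * ∑' y, Q.q 1 y * EY Q k 2 (fun l => G (y :: l)) := by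
  rw [EY]
  beta_reduce
  unfold opY
  rw [if_neg (by decide), if_pos rfl]

lemma EY_succ2 (k : ℕ) (G : List ℕ → ℝ≥0∞) : EY Q (k + 1) 2 G =
    1 / 5 * EY Q k 2 (fun l => G (1 :: l)) +
      4 / 5 * ∑' y, Q.q 2 y * EY Q k 2 (fun l => G (y :: l)) := by
  rw [EY]
  beta_reduce
  unfold opY
  rw [if_neg (by decide), if_neg (by decide)]

lemma EY_succ0 (k : ℕ) (G : List ℕ → ℝ≥0∞) : EY Q (k + 1) 0 G =
    ∑' y, Q.q 0 y * EY Q k 1 (fun l => G (y :: l)) := by
  rw [EY]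
  beta_reduce
  unfold opY
  rw [if_pos rfl]

lemma EY_zero (h : Fin 3) (H : (ℕ → ℕ) → ℝ≥0∞) : EY Q 0 h (fun l => H (cum l)) = H (fun _ => 0) := by
  rw [EY]
  beta_reduce
  congr 1
  funext k
  simp [cum]

lemma Hs_cum (H : (ℕ → ℕ) → ℝ≥0∞) (y : ℕ) (k : ℕ) (h : Fin 3) :
    EY Q k h (fun l => Hs H y (cum l)) = EY Q k h (fun l => H (cum (y :: l))) := by
  congr 1
  funext l
  rw [cum_cons]

lemma starN_sum (N : ℕ → ℝ≥0∞) (f : CS → ℝ≥0∞) :
    ∑ n, starN N n * f n = ∑ e ∈ Finset.Icc 1 4, N e * f (chain e) := by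
  unfold starN
  simp_rw [Finset.sum_mul]
  rw [Finset.sum_comm]
  refine Finset.sum_congr rfl fun e _ => ?_
  rw [Finset.sum_eq_single (chain e)]
  · rw [if_pos rfl]
  · intro n _ hn
    rw [if_neg hn, zero_mul]
  · intro h
    exact absurd (Finset.mem_univ _) h

lemma N_sum' (K : Cert Q) : ∑ e ∈ Finset.Icc 1 4, K.N e = 1 := by
  rw [← K.N_sum]
  have h : Finset.Icc 1 4 = ({1, 2, 3, 4} : Finset ℕ) := by decide
  rw [h]
  simp [add_assoc]

lemma claimN (K : Cert Q) (hD : S_D) (hmass : S_mass) (hIbd : S_Ibd) (hWb : S_Wb)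
    (hdomin : S_domin) (hey : S_ey) (hU : UAx Q U) (k : ℕ) :
    ∀ (H : (ℕ → ℕ) → ℝ≥0∞) (C : ℝ≥0∞), C ≠ ⊤ → Monotone H → (∀ F, H F ≤ C) → DepOn k H →
      ∑ e ∈ Finset.Icc 1 4, K.N e * Zh U (chain e) H ≤ EY Q k 2 (fun l => H (cum l)) := by
  induction k with
  | zero =>
    intro H C _ _ _ hk
    rw [EY_zero]
    calc ∑ e ∈ Finset.Icc 1 4, K.N e * Zh U (chain e) H
        ≤ ∑ e ∈ Finset.Icc 1 4, K.N e * H (fun _ => 0) := by
          refine Finset.sum_le_sum fun e _ => mul_le_mul_right ?_ _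
          exact iSup₂_le fun s _ => hU.base s H hk
      _ = H (fun _ => 0) := by rw [← Finset.sum_mul, N_sum' K, one_mul]
  | succ k ih =>
    intro H C hCt hH hC hk
    have h1 := basic K hD hmass hIbd hWb hdomin hey hU hCt hH hC (starN K.N) 1 2
      ENNReal.one_ne_top (by
        have h := starN_sum K.N (fun _ => 1)
        simp only [mul_one] at h
        rw [h, N_sum' K]) K.src_N
    rw [starN_sum, starN_sum, one_mul] at h1
    refine h1.trans ?_
    rw [EY_succ2]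
    refine add_le_add (mul_le_mul_right ?_ _) (mul_le_mul_right (ENNReal.tsum_le_tsum fun y =>
      mul_le_mul_right ?_ _) _)
    · rw [← Hs_cum]
      exact ih (Hs H 1) C hCt (Hs_mono hH 1) (fun F => hC _) (Hs_dep hk 1)
    · rw [← Hs_cum]
      exact ih (Hs H y) C hCt (Hs_mono hH y) (fun F => hC _) (Hs_dep hk y)

lemma claimT (K : Cert Q) (hD : S_D) (hmass : S_mass) (hIbd : S_Ibd) (hWb : S_Wb)
    (hdomin : S_domin) (hey : S_ey) (hU : UAx Q U) (k : ℕ) :
    ∀ x, x ≤ 6 → ∀ (H : (ℕ → ℕ) → ℝ≥0∞) (C : ℝ≥0∞), C ≠ ⊤ → Monotone H → (∀ F, H F ≤ C) →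
      DepOn k H → ∑ n, K.t x n * Zh U n H ≤ K.T 0 x * EY Q k 1 (fun l => H (cum l)) := by
  induction k with
  | zero =>
    intro x hx H C _ _ _ hk
    rw [EY_zero]
    calc ∑ n, K.t x n * Zh U n H ≤ ∑ n, K.t x n * H (fun _ => 0) := by
          refine Finset.sum_le_sum fun e _ => mul_le_mul_right ?_ _
          exact iSup₂_le fun s _ => hU.base s H hk
      _ = K.T 0 x * H (fun _ => 0) := by rw [← Finset.sum_mul, K.t_sum x hx]
  | succ k ih =>
    intro x hx H C hCt hH hC hk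
    have h1 := basic K hD hmass hIbd hWb hdomin hey hU hCt hH hC (K.t x) (K.T 0 x) 1
      (ne_top_of_le_ne_top ENNReal.one_ne_top (T_le K 0 x hx)) (K.t_sum x hx).le (K.src_t x hx)
    refine h1.trans ?_
    rw [EY_succ1, mul_add]
    refine add_le_add ?_ ?_
    · rw [← mul_assoc, mul_comm (K.T 0 x), mul_assoc, ← Hs_cum]
      exact mul_le_mul_right (ih x hx (Hs H 1) C hCt (Hs_mono hH 1) (fun F => hC _)
        (Hs_dep hk 1)) _
    · rw [← mul_assoc, ← mul_assoc, mul_comm (K.T 0 x)]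
      refine mul_le_mul_right (ENNReal.tsum_le_tsum fun y => mul_le_mul_right ?_ _) _
      rw [← Hs_cum]
      exact claimN K hD hmass hIbd hWb hdomin hey hU k (Hs H y) C hCt (Hs_mono hH y)
        (fun F => hC _) (Hs_dep hk y)

end Z

end clo_aux

theorem t_clo (hD : S_D) (hmass : S_mass) (hIbd : S_Ibd) (hWb : S_Wb) (hdomin : S_domin)
    (hey : S_ey) : S_clo := by
  intro Q hK U hU k H C hCt hH hC hk
  obtain ⟨K⟩ := hK
  have hn : Norm Q := hey.1 Q ⟨K⟩
  have hm : Monotone (fun F => H (cons0 F)) := fun F F' h => hH (clo_aux.cons0_mono h)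
  have hL : ∀ L : ℕ, U 2 (fun _ => 0) (fun F => H (cons0 F)) ≤
      (∑ x ∈ Finset.range 6, ∑ n', K.t x n' * Zh U n' (clo_aux.Hs H x) +
        ∑ n', K.t 6 n' * ∑' j, (1 / 2) ^ (j + 1) * Zh U n' (clo_aux.Hs H (6 + j))) +
        C * Ik Q L 2 0 := by
    intro L
    have h1 := hD Q U hn hU (fun F => H (cons0 F)) C hm (fun F => hC _) L 2 (fun _ => 0)
    rw [clo_aux.c_zero] at h1
    refine h1.trans (add_le_add ?_ le_rfl)
    refine clo_aux.start_le (fun x n' => Mk Q L 2 0 x n') K.t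
      (fun x n' => Zh U n' (clo_aux.Hs H x)) C hCt (fun x n => clo_aux.Zh_bdd hU n fun F => hC _)
      (fun x n => clo_aux.Zh_mono hU n fun F => clo_aux.Hs_succ hH x F) ?_ ?_ ?_ ?_
    · intro x n
      refine (clo_aux.Zh_bot hU (clo_aux.Hs_mono hH 0) n).trans (clo_aux.Zh_mono hU n fun F => ?_)
      exact hH (clo_aux.cons0_mono fun j => Nat.add_le_add_right (Nat.zero_le x) (F j))
    · rw [← hmass Q ⟨K⟩ L 2 0]
      exact le_self_add
    · intro z n' hz h0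
      exact ((hWb Q K L 0 n' z hz).1 2 (by norm_num)).trans (K.t_ge z n' hz h0)
    · have h7 : ∑ z ∈ Finset.range 7, K.T 0 z = ∑ z ∈ Finset.range 6, K.T 0 z + K.T 0 6 :=
        Finset.sum_range_succ _ _
      rw [← K.T_sum 0, h7]
      congr 1
      · exact Finset.sum_congr rfl fun z hz => K.t_sum z (Finset.mem_range.mp hz).le
      · exact K.t_sum 6 le_rfl
  have ht : Filter.Tendsto (fun L : ℕ =>
      (∑ x ∈ Finset.range 6, ∑ n', K.t x n' * Zh U n' (clo_aux.Hs H x) +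
        ∑ n', K.t 6 n' * ∑' j, (1 / 2) ^ (j + 1) * Zh U n' (clo_aux.Hs H (6 + j))) +
        C * Ik Q L 2 0) Filter.atTop (nhds (
      (∑ x ∈ Finset.range 6, ∑ n', K.t x n' * Zh U n' (clo_aux.Hs H x) +
        ∑ n', K.t 6 n' * ∑' j, (1 / 2) ^ (j + 1) * Zh U n' (clo_aux.Hs H (6 + j))) +
        C * 0)) := by
    refine Filter.Tendsto.add tendsto_const_nhds ?_
    exact ENNReal.Tendsto.const_mul (clo_aux.Ik_tend K hIbd 2 0) (Or.inr hCt)
  rw [mul_zero, add_zero] at ht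
  refine (ge_of_tendsto' ht hL).trans ?_
  rw [clo_aux.EY_succ0, clo_aux.q_exp K 0]
  refine add_le_add (Finset.sum_le_sum fun x hx => ?_) ?_
  · rw [← clo_aux.Hs_cum]
    exact clo_aux.claimT K hD hmass hIbd hWb hdomin hey hU k x (Finset.mem_range.mp hx).le
      (clo_aux.Hs H x) C hCt (clo_aux.Hs_mono hH x) (fun F => hC _) (clo_aux.Hs_dep hk x)
  · have h2 : ∑ n', K.t 6 n' * ∑' j, (1 / 2) ^ (j + 1) * Zh U n' (clo_aux.Hs H (6 + j)) =
        ∑' j, (1 / 2) ^ (j + 1) * ∑ n', K.t 6 n' * Zh U n' (clo_aux.Hs H (6 + j)) := by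
      simp_rw [← ENNReal.tsum_mul_left, Finset.mul_sum]
      rw [Summable.tsum_finsetSum fun _ _ => ENNReal.summable]
      refine Finset.sum_congr rfl fun n' _ => tsum_congr fun j => by ring
    rw [h2, ← ENNReal.tsum_mul_left]
    refine ENNReal.tsum_le_tsum fun j => ?_
    rw [← clo_aux.Hs_cum]
    calc (1 / 2) ^ (j + 1) * ∑ n', K.t 6 n' * Zh U n' (clo_aux.Hs H (6 + j))
        ≤ (1 / 2) ^ (j + 1) * (K.T 0 6 * EY Q k 1 (fun l => clo_aux.Hs H (6 + j) (cum l))) :=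
          mul_le_mul_right (clo_aux.claimT K hD hmass hIbd hWb hdomin hey hU k 6 le_rfl
            (clo_aux.Hs H (6 + j)) C hCt (clo_aux.Hs_mono hH (6 + j)) (fun F => hC _)
            (clo_aux.Hs_dep hk (6 + j))) _
      _ = K.T 0 6 * ((1 / 2) ^ (j + 1) * EY Q k 1 (fun l => clo_aux.Hs H (6 + j) (cum l))) := by
          ring

end FT4
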