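import Pool.Agent.helper237_FT4.Stmts

/-!
# FT4: basic facts on `opY`, `EY` (helper182)
-/

set_option autoImplicit false

open MeasureTheory ProbabilityTheory
open scoped ENNReal BigOperators

namespace FT4

namespace ey_aux

theorem fifth : (1 / 5 : ℝ≥0∞) + 4 / 5 = 1 := by
  rw [ENNReal.div_add_div_same]
  norm_num
  exact ENNReal.div_self (by norm_num) (by norm_num)

theorem geo : ∑' j : ℕ, (1 / 2 : ℝ≥0∞) ^ (j + 1) = 1 := by
  rw [ENNReal.tsum_geometric_add_one]
  rw [one_div, ENNReal.one_sub_inv_two, inv_inv]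
  exact ENNReal.inv_mul_cancel (by norm_num) (by norm_num)

theorem tail6 {Q : Par} (K : Cert Q) (h : Fin 3) : ∑' j, Q.q h (6 + j) = K.T h 6 := by
  simp_rw [K.q_ge h]
  rw [ENNReal.tsum_mul_left, geo, mul_one]

theorem tail_succ (f : ℕ → ℝ≥0∞) (k : ℕ) :
    ∑' j, f (k + j) = f k + ∑' j, f (k + 1 + j) := by
  rw [tsum_eq_zero_add' ENNReal.summable]
  simp only [add_zero]
  congr 1
  exact tsum_congr (fun j => by congr 1; omega)

theorem norm {Q : Par} (hc : Nonempty (Cert Q)) : Norm Q := by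
  obtain ⟨K⟩ := hc
  intro h
  have h0 : ∑' y, Q.q h y = ∑' y, Q.q h (0 + y) := by simp
  rw [h0, tail_succ, tail_succ, tail_succ, tail_succ, tail_succ, tail_succ]
  have h6 := tail6 K h
  norm_num at h6 ⊢
  rw [h6, K.q_lt h 0 (by norm_num), K.q_lt h 1 (by norm_num), K.q_lt h 2 (by norm_num),
    K.q_lt h 3 (by norm_num), K.q_lt h 4 (by norm_num), K.q_lt h 5 (by norm_num)]
  have := K.T_sum h
  simp only [Finset.sum_range_succ, Finset.sum_range_zero, zero_add] at this
  rw [← this]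
  ring

theorem opY_mono (Q : Par) (h : Fin 3) (F F' : ℕ → Fin 3 → ℝ≥0∞)
    (hF : ∀ y h', F y h' ≤ F' y h') : opY Q h F ≤ opY Q h F' := by
  unfold opY
  split_ifs
  · exact ENNReal.tsum_le_tsum (fun y => mul_le_mul_right (hF y 1) _)
  · exact add_le_add (mul_le_mul_right (hF _ _) _)
      (mul_le_mul_right (ENNReal.tsum_le_tsum (fun y => mul_le_mul_right (hF y 2) _)) _)
  · exact add_le_add (mul_le_mul_right (hF _ _) _)
      (mul_le_mul_right (ENNReal.tsum_le_tsum (fun y => mul_le_mul_right (hF y 2) _)) _)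

theorem opY_const (Q : Par) (h : Fin 3) (C : ℝ≥0∞) (hN : Norm Q) :
    opY Q h (fun _ _ => C) = C := by
  unfold opY
  split_ifs
  · rw [ENNReal.tsum_mul_right, hN, one_mul]
  · rw [ENNReal.tsum_mul_right, hN, one_mul, ← add_mul, fifth, one_mul]
  · rw [ENNReal.tsum_mul_right, hN, one_mul, ← add_mul, fifth, one_mul]

theorem EY_mono (Q : Par) (k : ℕ) : ∀ (h : Fin 3) (G G' : List ℕ → ℝ≥0∞),
    (∀ l, l.length = k → G l ≤ G' l) → EY Q k h G ≤ EY Q k h G' := by
  induction k with
  | zero => intro h G G' hG; exact hG [] rfl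
  | succ k ih =>
    intro h G G' hG
    show opY Q h (fun y h' => EY Q k h' (fun l => G (y :: l))) ≤
      opY Q h (fun y h' => EY Q k h' (fun l => G' (y :: l)))
    exact opY_mono Q h _ _ (fun y h' => ih h' _ _ (fun l hl => hG _ (by simp [hl])))

theorem EY_const (Q : Par) (k : ℕ) : ∀ (h : Fin 3) (C : ℝ≥0∞), Norm Q →
    EY Q k h (fun _ => C) = C := by
  induction k with
  | zero => intro h C _; rfl
  | succ k ih =>
    intro h C hN
    show opY Q h (fun y h' => EY Q k h' (fun l => C)) = C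
    simp_rw [ih _ C hN]
    exact opY_const Q h C hN

end ey_aux

theorem t_ey : S_ey :=
  ⟨fun _ h => ey_aux.norm h, ey_aux.opY_mono, ey_aux.opY_const,
    fun Q k h G G' hG => ey_aux.EY_mono Q k h G G' hG,
    fun Q k h C hN => ey_aux.EY_const Q k h C hN⟩

end FT4
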