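import Pool.Agent.helper237_FT4.Stmts
import Pool.Agent.helper237_FT4.T_ey

/-!
# FT4: the response of a subtree is dominated (helper182)
-/

set_option autoImplicit false

open MeasureTheory ProbabilityTheory
open scoped ENNReal BigOperators

namespace FT4

namespace dom_aux

theorem row_length (L : ℕ) (η : Vx → ℕ → Al) (v : Vx) : (row L η v).length = L := by
  simp [row]

theorem row_take (L : ℕ) (η : Vx → ℕ → Al) (v : Vx) : (row L η v).take L = row L η v :=
  List.take_of_length_le (by rw [row_length])

theorem cum_zero (l : List ℕ) : cum l 0 = 0 := by simp [cum]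

theorem base {Q : Par} (hN : Norm Q) {Ω : Type} [MeasurableSpace Ω] (P : Measure Ω)
    [IsProbabilityMeasure P] (ξ : Vx → ℕ → Ω → Al) (L : ℕ) (v : Vx) : Dom Q P ξ L 0 v := by
  intro H C _ hm _ _
  have e : ∫⁻ ω, H (fv L (fun v k => ξ v k ω) 0 v) ∂P = H (fun _ => 0) := by
    show ∫⁻ ω, H (fun _ => 0) ∂P = H (fun _ => 0)
    rw [lintegral_const, measure_univ, mul_one]
  rw [e, ← ey_aux.EY_const Q L 0 (H (fun _ => 0)) hN]
  exact ey_aux.EY_mono Q L 0 _ _ (fun l _ => hm (fun j => Nat.zero_le _))

theorem exits_pen (hp : S_path) (r : List Rt) (ys : Fin 4 → List ℕ) :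
    (fun E => exits r (pen E) (fun c => cum (ys c))) =
      cons0 (fun j => exits r (2 + j) (fun c => cum (ys c))) := by
  funext E
  cases E with
  | zero =>
    have h0 := (hp.2.1 r (fun c => cum (ys c)) (fun c => cum_zero _)).2
    simp [cons0, pen, h0]
  | succ j =>
    simp only [cons0, pen, Nat.add_eq_zero_iff, one_ne_zero, and_false, if_false,
      Nat.add_sub_cancel]
    congr 1
    omega

end dom_aux

theorem t_dom (hp : S_path) (hr : S_repl) (hrow : S_row) (hu : S_uax) (hc : S_clo) : S_dom := by
  intro Q hQ Ω _ P _ ξ hξ L n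
  have hN : Norm Q := ey_aux.norm hQ
  induction n with
  | zero => intro v; exact dom_aux.base hN P ξ L v
  | succ n ih =>
    intro v H C hC hm hb hd
    cases L with
    | zero =>
      have e : ∀ ω, H (fv 0 (fun v k => ξ v k ω) (n + 1) v) = H (cum []) := by
        intro ω
        refine hd _ _ (fun j hj => ?_)
        have h5 := hp.2.2.2.2.1 ((row 0 (fun v k => ξ v k ω) v).map route) (pen j)
          (fun c => fv 0 (fun v k => ξ v k ω) n (c :: v))
        have h6 : ((row 0 (fun v k => ξ v k ω) v).map route).length = 0 := by
          rw [List.length_map, dom_aux.row_length]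
        rw [h6] at h5
        show exits _ _ _ = _
        rw [Nat.le_zero.1 (h5.2.trans h5.1)]
        simp [cum]
      simp_rw [e]
      rw [lintegral_const, measure_univ, mul_one]
      exact le_rfl
    | succ k =>
      have h1 := hr Q hN Ω P ξ hξ (k + 1) n v (fun c => ih (c :: v))
        (fun r g => H (fun E => exits ((r.take (k + 1)).map route) (pen E) g)) C hC
        (fun r g g' h => hm (fun E => (hp.1 _ _ _ g g' le_rfl h).2))
        (fun r g => hb _)
        (fun r g g' h => by
          congr 1
          funext E
          refine (hp.2.2.2.2.2 _ _ g g' (fun c j hj => h c j (hj.trans ?_))).2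
          rw [List.length_map]
          exact List.length_take_le _ _)
      simp only [dom_aux.row_take] at h1
      refine h1.trans ?_
      have h2 := (hrow Ω P ξ hξ (k + 1) v (fun r => EY4 Q (fun _ => 0) (fun _ => k + 1)
        (fun ys => H (fun E => exits r (pen E) (fun c => cum (ys c)))))).1
      rw [h2]
      have h3 : EA (k + 1) (fun r => EY4 Q (fun _ => 0) (fun _ => k + 1)
          (fun ys => H (fun E => exits r (pen E) (fun c => cum (ys c))))) =
          UL Q (k + 1) (fun _ => k + 1) 2 (fun _ => 0) (fun F => H (cons0 F)) := by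
        unfold UL
        congr 1
        funext r
        congr 1
        funext ys
        rw [dom_aux.exits_pen hp]
      rw [h3]
      refine le_trans ?_ (hc Q hQ (UU Q) (hu Q hQ) k H C hC hm hb hd)
      unfold UU
      exact le_iSup_of_le (k + 1) (le_iSup_of_le (fun _ => k + 1)
        (le_iSup_of_le (fun _ => le_rfl) le_rfl))

end FT4
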