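import Pool.Agent.helper237_FT4.Stmts

/-!
# FT4: domination of an effective entry (S_domin)
-/

set_option autoImplicit false

open scoped ENNReal BigOperators

namespace FT4

namespace domin_aux

/-- Abel summation over four levels -/
lemma abel4 (w1 w2 w3 w4 N1 N2 N3 N4 W p1 p2 p3 p4 : ℝ≥0∞) (hN : N1 + N2 + N3 + N4 = 1)
    (h1 : w1 ≤ N1 * W) (h2 : w1 + w2 ≤ (N1 + N2) * W) (h3 : w1 + w2 + w3 ≤ (N1 + N2 + N3) * W)
    (h4 : w1 + w2 + w3 + w4 ≤ W) (h43 : p4 ≤ p3) (h32 : p3 ≤ p2) (h21 : p2 ≤ p1) :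
    w1 * p1 + w2 * p2 + w3 * p3 + w4 * p4 ≤ W * (N1 * p1 + N2 * p2 + N3 * p3 + N4 * p4) := by
  obtain ⟨d3, rfl⟩ := exists_add_of_le h43
  obtain ⟨d2, rfl⟩ := exists_add_of_le h32
  obtain ⟨d1, rfl⟩ := exists_add_of_le h21
  calc w1 * (p4 + d3 + d2 + d1) + w2 * (p4 + d3 + d2) + w3 * (p4 + d3) + w4 * p4
      = (w1 + w2 + w3 + w4) * p4 + (w1 + w2 + w3) * d3 + (w1 + w2) * d2 + w1 * d1 := by ring
    _ ≤ W * p4 + (N1 + N2 + N3) * W * d3 + (N1 + N2) * W * d2 + N1 * W * d1 := by gcongr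
    _ = (N1 + N2 + N3 + N4) * W * p4 + (N1 + N2 + N3) * W * d3 + (N1 + N2) * W * d2 +
        N1 * W * d1 := by rw [hN, one_mul]
    _ = W * (N1 * (p4 + d3 + d2 + d1) + N2 * (p4 + d3 + d2) + N3 * (p4 + d3) + N4 * p4) := by
        ring

/-- the bottom outcome -/
lemma abel3 (w1 w2 w3 N1 N2 N3 S M p1 p2 p3 : ℝ≥0∞)
    (h1 : w1 + N1 * S ≤ N1 * M) (h2 : w1 + w2 + (N1 + N2) * S ≤ (N1 + N2) * M)
    (h3 : w1 + w2 + w3 + (N1 + N2 + N3) * S ≤ (N1 + N2 + N3) * M)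
    (h32 : p3 ≤ p2) (h21 : p2 ≤ p1) :
    w1 * p1 + w2 * p2 + w3 * p3 + S * (N1 * p1 + N2 * p2 + N3 * p3) ≤
      M * (N1 * p1 + N2 * p2 + N3 * p3) := by
  obtain ⟨d2, rfl⟩ := exists_add_of_le h32
  obtain ⟨d1, rfl⟩ := exists_add_of_le h21
  calc w1 * (p3 + d2 + d1) + w2 * (p3 + d2) + w3 * p3 +
        S * (N1 * (p3 + d2 + d1) + N2 * (p3 + d2) + N3 * p3)
      = (w1 + w2 + w3 + (N1 + N2 + N3) * S) * p3 + (w1 + w2 + (N1 + N2) * S) * d2 +
        (w1 + N1 * S) * d1 := by ring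
    _ ≤ ((N1 + N2 + N3) * M) * p3 + ((N1 + N2) * M) * d2 + (N1 * M) * d1 := by gcongr
    _ = M * (N1 * (p3 + d2 + d1) + N2 * (p3 + d2) + N3 * p3) := by ring

/-- Abel summation over the outcomes -/
lemma abel7 (a M : ℝ≥0∞) (W T P : ℕ → ℝ≥0∞)
    (h0 : a + (W 1 + W 2 + W 3 + W 4 + W 5 + W 6) * P 0 ≤ M * P 0)
    (h1 : W 1 + W 2 + W 3 + W 4 + W 5 + W 6 ≤ M * (T 1 + T 2 + T 3 + T 4 + T 5 + T 6))
    (h2 : W 2 + W 3 + W 4 + W 5 + W 6 ≤ M * (T 2 + T 3 + T 4 + T 5 + T 6))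
    (h3 : W 3 + W 4 + W 5 + W 6 ≤ M * (T 3 + T 4 + T 5 + T 6))
    (h4 : W 4 + W 5 + W 6 ≤ M * (T 4 + T 5 + T 6))
    (h5 : W 5 + W 6 ≤ M * (T 5 + T 6)) (h6 : W 6 ≤ M * T 6)
    (hT : T 0 + T 1 + T 2 + T 3 + T 4 + T 5 + T 6 = 1)
    (hP : ∀ z, z < 6 → P z ≤ P (z + 1)) :
    a + (W 1 * P 1 + W 2 * P 2 + W 3 * P 3 + W 4 * P 4 + W 5 * P 5 + W 6 * P 6) ≤
      M * (T 0 * P 0 + T 1 * P 1 + T 2 * P 2 + T 3 * P 3 + T 4 * P 4 + T 5 * P 5 +
        T 6 * P 6) := by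
  obtain ⟨d1, e1⟩ := exists_add_of_le (hP 0 (by norm_num))
  obtain ⟨d2, e2⟩ := exists_add_of_le (hP 1 (by norm_num))
  obtain ⟨d3, e3⟩ := exists_add_of_le (hP 2 (by norm_num))
  obtain ⟨d4, e4⟩ := exists_add_of_le (hP 3 (by norm_num))
  obtain ⟨d5, e5⟩ := exists_add_of_le (hP 4 (by norm_num))
  obtain ⟨d6, e6⟩ := exists_add_of_le (hP 5 (by norm_num))
  norm_num at e1 e2 e3 e4 e5 e6
  rw [e6, e5, e4, e3, e2, e1]
  generalize P 0 = p at *
  calc a + (W 1 * (p + d1) + W 2 * (p + d1 + d2) + W 3 * (p + d1 + d2 + d3) +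
        W 4 * (p + d1 + d2 + d3 + d4) + W 5 * (p + d1 + d2 + d3 + d4 + d5) +
        W 6 * (p + d1 + d2 + d3 + d4 + d5 + d6))
      = (a + (W 1 + W 2 + W 3 + W 4 + W 5 + W 6) * p) +
        (W 1 + W 2 + W 3 + W 4 + W 5 + W 6) * d1 + (W 2 + W 3 + W 4 + W 5 + W 6) * d2 +
        (W 3 + W 4 + W 5 + W 6) * d3 + (W 4 + W 5 + W 6) * d4 + (W 5 + W 6) * d5 +
        W 6 * d6 := by ring
    _ ≤ M * p + M * (T 1 + T 2 + T 3 + T 4 + T 5 + T 6) * d1 +
        M * (T 2 + T 3 + T 4 + T 5 + T 6) * d2 + M * (T 3 + T 4 + T 5 + T 6) * d3 +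
        M * (T 4 + T 5 + T 6) * d4 + M * (T 5 + T 6) * d5 + M * T 6 * d6 := by gcongr
    _ = M * (T 0 + T 1 + T 2 + T 3 + T 4 + T 5 + T 6) * p +
        M * (T 1 + T 2 + T 3 + T 4 + T 5 + T 6) * d1 +
        M * (T 2 + T 3 + T 4 + T 5 + T 6) * d2 + M * (T 3 + T 4 + T 5 + T 6) * d3 +
        M * (T 4 + T 5 + T 6) * d4 + M * (T 5 + T 6) * d5 + M * T 6 * d6 := by
        rw [hT, mul_one]
    _ = M * (T 0 * p + T 1 * (p + d1) + T 2 * (p + d1 + d2) + T 3 * (p + d1 + d2 + d3) +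
        T 4 * (p + d1 + d2 + d3 + d4) + T 5 * (p + d1 + d2 + d3 + d4 + d5) +
        T 6 * (p + d1 + d2 + d3 + d4 + d5 + d6)) := by ring

lemma icc14 (f : ℕ → ℝ≥0∞) : ∑ e ∈ Finset.Icc 1 4, f e = f 1 + f 2 + f 3 + f 4 := by
  rw [show Finset.Icc 1 4 = {1, 2, 3, 4} by decide]
  simp
  ring

lemma icc11 (f : ℕ → ℝ≥0∞) : ∑ e ∈ Finset.Icc 1 1, f e = f 1 := by simp

lemma icc12 (f : ℕ → ℝ≥0∞) : ∑ e ∈ Finset.Icc 1 2, f e = f 1 + f 2 := by
  rw [show Finset.Icc 1 2 = {1, 2} by decide]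
  simp

lemma icc13 (f : ℕ → ℝ≥0∞) : ∑ e ∈ Finset.Icc 1 3, f e = f 1 + f 2 + f 3 := by
  rw [show Finset.Icc 1 3 = {1, 2, 3} by decide]
  simp
  ring

lemma icc16 (f : ℕ → ℝ≥0∞) : ∑ e ∈ Finset.Icc 1 6, f e = f 1 + f 2 + f 3 + f 4 + f 5 + f 6 := by
  rw [show Finset.Icc 1 6 = {1, 2, 3, 4, 5, 6} by decide]
  simp
  ring

lemma icc26 (f : ℕ → ℝ≥0∞) : ∑ e ∈ Finset.Icc 2 6, f e = f 2 + f 3 + f 4 + f 5 + f 6 := by
  rw [show Finset.Icc 2 6 = {2, 3, 4, 5, 6} by decide]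
  simp
  ring

lemma icc36 (f : ℕ → ℝ≥0∞) : ∑ e ∈ Finset.Icc 3 6, f e = f 3 + f 4 + f 5 + f 6 := by
  rw [show Finset.Icc 3 6 = {3, 4, 5, 6} by decide]
  simp
  ring

lemma icc46 (f : ℕ → ℝ≥0∞) : ∑ e ∈ Finset.Icc 4 6, f e = f 4 + f 5 + f 6 := by
  rw [show Finset.Icc 4 6 = {4, 5, 6} by decide]
  simp
  ring

lemma icc56 (f : ℕ → ℝ≥0∞) : ∑ e ∈ Finset.Icc 5 6, f e = f 5 + f 6 := by
  rw [show Finset.Icc 5 6 = {5, 6} by decide]
  simp

lemma icc66 (f : ℕ → ℝ≥0∞) : ∑ e ∈ Finset.Icc 6 6, f e = f 6 := by simp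

lemma range7 (f : ℕ → ℝ≥0∞) :
    ∑ z ∈ Finset.range 7, f z = f 0 + (f 1 + f 2 + f 3 + f 4 + f 5 + f 6) := by
  simp only [Finset.sum_range_succ, Finset.sum_range_zero]
  ring

/-- the finite inequality -/
lemma fin_ineq (w : ℕ → ℕ → ℝ≥0∞) (N T : ℕ → ℝ≥0∞) (M : ℝ≥0∞) (ψ : ℕ → ℕ → ℝ≥0∞)
    (h2 : ∀ k, 1 ≤ k → k ≤ 6 → ∑ z ∈ Finset.Icc k 6, ∑ e ∈ Finset.Icc 1 4, w z e ≤
      M * ∑ z ∈ Finset.Icc k 6, T z)
    (h3 : ∀ z i, 1 ≤ z → z ≤ 6 → 1 ≤ i → i ≤ 3 → ∑ e ∈ Finset.Icc 1 i, w z e ≤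
      (∑ e ∈ Finset.Icc 1 i, N e) * ∑ e ∈ Finset.Icc 1 4, w z e)
    (h4 : ∀ i, 1 ≤ i → i ≤ 3 → ∑ e ∈ Finset.Icc 1 i, w 0 e +
      (∑ e ∈ Finset.Icc 1 i, N e) * ∑ z ∈ Finset.Icc 1 6, ∑ e ∈ Finset.Icc 1 4, w z e ≤
      (∑ e ∈ Finset.Icc 1 i, N e) * M)
    (hN : N 1 + N 2 + N 3 + N 4 = 1) (hT : ∑ z ∈ Finset.range 7, T z = 1)
    (hψz : ∀ z e, z < 6 → e ≤ 4 → ψ z e ≤ ψ (z + 1) e)
    (hψe : ∀ z e, z ≤ 6 → e < 4 → ψ z (e + 1) ≤ ψ z e) (h04 : ψ 0 4 = 0) :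
    ∑ z ∈ Finset.range 7, ∑ e ∈ Finset.Icc 1 4, w z e * ψ z e ≤
      M * ∑ z ∈ Finset.range 7, T z * ∑ e ∈ Finset.Icc 1 4, N e * ψ z e := by
  set W : ℕ → ℝ≥0∞ := fun z => ∑ e ∈ Finset.Icc 1 4, w z e with hW
  set P : ℕ → ℝ≥0∞ := fun z => ∑ e ∈ Finset.Icc 1 4, N e * ψ z e with hP
  have hz : ∀ z, 1 ≤ z → z ≤ 6 → ∑ e ∈ Finset.Icc 1 4, w z e * ψ z e ≤ W z * P z := by
    intro z hz1 hz6
    have a1 := h3 z 1 hz1 hz6 (by norm_num) (by norm_num)
    have a2 := h3 z 2 hz1 hz6 (by norm_num) (by norm_num)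
    have a3 := h3 z 3 hz1 hz6 (by norm_num) (by norm_num)
    rw [icc11, icc11] at a1
    rw [icc12, icc12] at a2
    rw [icc13, icc13] at a3
    simp only [hW, hP]
    rw [icc14, icc14 (fun e => N e * ψ z e)]
    exact abel4 _ _ _ _ _ _ _ _ _ _ _ _ _ hN a1 a2 a3 (by rw [icc14])
      (hψe z 3 hz6 (by norm_num)) (hψe z 2 hz6 (by norm_num)) (hψe z 1 hz6 (by norm_num))
  have hz0 : (∑ e ∈ Finset.Icc 1 4, w 0 e * ψ 0 e) +
      (W 1 + W 2 + W 3 + W 4 + W 5 + W 6) * P 0 ≤ M * P 0 := by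
    have a1 := h4 1 (by norm_num) (by norm_num)
    have a2 := h4 2 (by norm_num) (by norm_num)
    have a3 := h4 3 (by norm_num) (by norm_num)
    rw [icc11, icc11, icc16] at a1
    rw [icc12, icc12, icc16] at a2
    rw [icc13, icc13, icc16] at a3
    have e1 : P 0 = N 1 * ψ 0 1 + N 2 * ψ 0 2 + N 3 * ψ 0 3 := by
      simp only [hP]
      rw [icc14, h04, mul_zero, add_zero]
    rw [e1, icc14, h04, mul_zero, add_zero]
    exact abel3 _ _ _ _ _ _ _ _ _ _ _ a1 a2 a3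
      (hψe 0 2 (by norm_num) (by norm_num)) (hψe 0 1 (by norm_num) (by norm_num))
  have hPm : ∀ z, z < 6 → P z ≤ P (z + 1) := by
    intro z hz
    apply Finset.sum_le_sum
    intro e he
    have := (Finset.mem_Icc.1 he).2
    gcongr
    exact hψz z e hz this
  have b1 := h2 1 (by norm_num) (by norm_num)
  have b2 := h2 2 (by norm_num) (by norm_num)
  have b3 := h2 3 (by norm_num) (by norm_num)
  have b4 := h2 4 (by norm_num) (by norm_num)
  have b5 := h2 5 (by norm_num) (by norm_num)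
  have b6 := h2 6 (by norm_num) (by norm_num)
  rw [icc16, icc16] at b1
  rw [icc26, icc26] at b2
  rw [icc36, icc36] at b3
  rw [icc46, icc46] at b4
  rw [icc56, icc56] at b5
  rw [icc66, icc66] at b6
  rw [range7] at hT
  have key := abel7 (∑ e ∈ Finset.Icc 1 4, w 0 e * ψ 0 e) M W T P hz0 b1 b2 b3 b4 b5 b6
    (by rw [← hT]; ring) hPm
  rw [range7, range7]
  calc _ ≤ (∑ e ∈ Finset.Icc 1 4, w 0 e * ψ 0 e) + (W 1 * P 1 + W 2 * P 2 + W 3 * P 3 +
        W 4 * P 4 + W 5 * P 5 + W 6 * P 6) := by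
        gcongr
        · exact hz 1 (by norm_num) (by norm_num)
        · exact hz 2 (by norm_num) (by norm_num)
        · exact hz 3 (by norm_num) (by norm_num)
        · exact hz 4 (by norm_num) (by norm_num)
        · exact hz 5 (by norm_num) (by norm_num)
        · exact hz 6 (by norm_num) (by norm_num)
    _ ≤ _ := key
    _ = _ := by
        congr 1
        ring

lemma half_sum : ∑' j : ℕ, (1 / 2 : ℝ≥0∞) ^ (j + 1) = 1 := by
  rw [ENNReal.tsum_geometric_add_one, one_div, ENNReal.one_sub_inv_two, inv_inv]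
  exact ENNReal.inv_mul_cancel (by norm_num) (by norm_num)

lemma half_const (c : ℝ≥0∞) : ∑' j : ℕ, (1 / 2 : ℝ≥0∞) ^ (j + 1) * c = c := by
  rw [ENNReal.tsum_mul_right, half_sum, one_mul]

lemma split6 (f : ℕ → ℝ≥0∞) : ∑' x, f x = ∑ x ∈ Finset.range 6, f x + ∑' j, f (6 + j) := by
  have h := (ENNReal.summable (f := fun n => f (n + 6))).sum_add_tsum_nat_add' (f := f)
  rw [← h]
  congr 1
  apply tsum_congr
  intro j
  rw [add_comm]

lemma tail_ge (g : ℕ → ℝ≥0∞) (hg : ∀ x, g x ≤ g (x + 1)) (j : ℕ) :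
    (1 / 2) ^ j * g j ≤ ∑' i : ℕ, (1 / 2) ^ (i + 1) * g i := by
  have hm : Monotone g := monotone_nat_of_le_succ hg
  have h := (ENNReal.summable (f := fun n => (1 / 2 : ℝ≥0∞) ^ (n + j + 1) * g (n + j)))
    |>.sum_add_tsum_nat_add' (f := fun i => (1 / 2 : ℝ≥0∞) ^ (i + 1) * g i)
  rw [← h]
  refine le_trans ?_ le_add_self
  calc (1 / 2 : ℝ≥0∞) ^ j * g j = ∑' i : ℕ, (1 / 2 : ℝ≥0∞) ^ (i + 1) * ((1 / 2) ^ j * g j) := by
        rw [half_const]
    _ ≤ ∑' n : ℕ, (1 / 2 : ℝ≥0∞) ^ (n + j + 1) * g (n + j) := by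
        apply ENNReal.tsum_le_tsum
        intro n
        rw [← mul_assoc, ← pow_add, show n + 1 + j = n + j + 1 by ring]
        gcongr
        exact hm (by omega)

/-- the tail of a function bounded by its tilted mass -/
lemma tail_le (a g : ℕ → ℝ≥0∞) (hg : ∀ x, g x ≤ g (x + 1)) :
    ∑' j, a j * g j ≤ (∑' j, 2 ^ j * a j) * ∑' i : ℕ, (1 / 2) ^ (i + 1) * g i := by
  rw [← ENNReal.tsum_mul_right]
  apply ENNReal.tsum_le_tsum
  intro j
  have h2 : (2 : ℝ≥0∞) ^ j * (1 / 2) ^ j = 1 := by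
    rw [← mul_pow, one_div, ENNReal.mul_inv_cancel (by norm_num) (by norm_num), one_pow]
  calc a j * g j = (2 ^ j * (1 / 2) ^ j) * (a j * g j) := by rw [h2, one_mul]
    _ = 2 ^ j * a j * ((1 / 2) ^ j * g j) := by ring
    _ ≤ _ := by
        gcongr
        exact tail_ge g hg j

lemma q_sum (Q : Par) (K : Cert Q) (h : Fin 3) (Ψ : ℕ → ℝ≥0∞) :
    ∑' y, Q.q h y * Ψ y = ∑ y ∈ Finset.range 6, K.T h y * Ψ y +
      K.T h 6 * ∑' j, (1 / 2) ^ (j + 1) * Ψ (6 + j) := by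
  rw [split6]
  congr 1
  · apply Finset.sum_congr rfl
    intro y hy
    rw [K.q_lt h y (Finset.mem_range.1 hy)]
  · rw [← ENNReal.tsum_mul_left]
    apply tsum_congr
    intro j
    rw [K.q_ge]
    ring

end domin_aux

open domin_aux in
theorem t_domin : S_domin := by
  intro Q K mu mass h hmass hsrc φ C hC hφC hφx hφl hφe m hm hw
  obtain ⟨hs1, hs2, hs3, hs4⟩ := hsrc
  set V : ℕ → CS → ℝ≥0∞ := fun z n' => ∑ n, mu n * (1 / 4 * Jw K.T K.P K.B n n' z) with hV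
  set w : ℕ → ℕ → ℝ≥0∞ := ww K.T K.P K.B mu with hwdef
  have hww : ∀ z e, w z e = ∑ n' ∈ Finset.univ.filter (fun n' => 4 - aN n' = e), V z n' := by
    intro z e
    simp only [hwdef, ww, hV, Finset.mul_sum]
    rw [Finset.sum_comm]
  set b : ℝ≥0∞ := φ 0 (chain 4) with hbdef
  set ψ : ℕ → ℕ → ℝ≥0∞ := fun x e => φ x (chain e) - b with hψ
  have hφmono : ∀ n, Monotone (fun x => φ x n) := fun n => monotone_nat_of_le_succ (fun x => hφx x n)
  have hb : ∀ x e, e ≤ 4 → b ≤ φ x (chain e) := fun x e he =>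
    (hφe 0 e 4 he le_rfl).trans (hφmono _ (Nat.zero_le x))
  have hφψ : ∀ x e, e ≤ 4 → φ x (chain e) = b + ψ x e := fun x e he =>
    (add_tsub_cancel_of_le (hb x e he)).symm
  have hψx : ∀ x e, ψ x e ≤ ψ (x + 1) e := fun x e => tsub_le_tsub_right (hφx x _) b
  have hψe : ∀ x e, e < 4 → ψ x (e + 1) ≤ ψ x e := fun x e he =>
    tsub_le_tsub_right (hφe x e (e + 1) (by omega) (by omega)) b
  set ψ6 : ℕ → ℕ → ℝ≥0∞ := fun z e => if z < 6 then ψ z e else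
    ∑' j : ℕ, (1 / 2) ^ (j + 1) * ψ (6 + j) e with hψ6
  have h6z : ∀ z e, z < 6 → e ≤ 4 → ψ6 z e ≤ ψ6 (z + 1) e := by
    intro z e hz he
    simp only [hψ6]
    rw [if_pos hz]
    by_cases hz1 : z + 1 < 6
    · rw [if_pos hz1]
      exact hψx z e
    · rw [if_neg hz1]
      rw [← half_const (ψ z e)]
      apply ENNReal.tsum_le_tsum
      intro j
      gcongr
      exact (monotone_nat_of_le_succ (fun x => hψx x e)) (by omega)
  have h6e : ∀ z e, z ≤ 6 → e < 4 → ψ6 z (e + 1) ≤ ψ6 z e := by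
    intro z e _ he
    simp only [hψ6]
    split_ifs
    · exact hψe z e he
    · apply ENNReal.tsum_le_tsum
      intro j
      gcongr
      exact hψe _ e he
  have h6lt : ∀ z e, z < 6 → ψ6 z e = ψ z e := by
    intro z e hz
    simp only [hψ6]
    rw [if_pos hz]
  have h66 : ∀ e, ψ6 6 e = ∑' j : ℕ, (1 / 2) ^ (j + 1) * ψ (6 + j) e := by
    intro e
    simp only [hψ6]
    rw [if_neg (by norm_num)]
  have h604 : ψ6 0 4 = 0 := by
    simp only [hψ6]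
    rw [if_pos (by norm_num)]
    exact tsub_self _
  have hN4 : ∑ e ∈ Finset.Icc 1 4, K.N e = 1 := by
    rw [icc14, K.N_sum]
  -- one count state
  have hone : ∀ (n' : CS) (e : ℕ), ∑' x, m x n' * ψ x e ≤
      ∑ z ∈ Finset.range 7, V z n' * ψ6 z e := by
    intro n' e
    rw [split6, Finset.sum_range_succ _ 6]
    apply add_le_add
    · apply Finset.sum_le_sum
      intro z hz
      have hz6 := Finset.mem_range.1 hz
      have h1 := hw z n' hz6.le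
      simp only [wt] at h1
      rw [if_pos hz6] at h1
      simp only [hψ6]
      rw [if_pos hz6]
      gcongr
    · have h1 := hw 6 n' le_rfl
      simp only [wt] at h1
      rw [if_neg (by norm_num)] at h1
      refine (tail_le (fun j => m (6 + j) n') (fun j => ψ (6 + j) e)
        (fun x => hψx (6 + x) e)).trans ?_
      simp only [hψ6]
      rw [if_neg (by norm_num)]
      gcongr
  -- grouping by the number of awake children
  have hgrp : ∀ z, z ∈ Finset.range 7 → ∑ n', V z n' * ψ6 z (4 - aN n') =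
      ∑ e ∈ Finset.Icc 1 4, w z e * ψ6 z e := by
    intro z hz
    have hz7 := Finset.mem_range.1 hz
    have hmaps : ∀ n' ∈ (Finset.univ : Finset CS), 4 - aN n' ∈ Finset.range 5 := by
      intro n' _
      rw [Finset.mem_range]
      omega
    rw [← Finset.sum_fiberwise_of_maps_to hmaps]
    have hfib : ∀ e ∈ Finset.range 5, ∑ n' ∈ Finset.univ.filter (fun n' => 4 - aN n' = e),
        V z n' * ψ6 z (4 - aN n') = w z e * ψ6 z e := by
      intro e _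
      rw [hww, Finset.sum_mul]
      apply Finset.sum_congr rfl
      intro n' hn'
      rw [(Finset.mem_filter.1 hn').2]
    rw [Finset.sum_congr rfl hfib, icc14]
    simp only [Finset.sum_range_succ, Finset.sum_range_zero]
    rw [hs1 z (by omega)]
    ring
  have hfin := fin_ineq w K.N (K.T h) mass ψ6 hs2 hs3 hs4 K.N_sum (K.T_sum h) h6z h6e h604
  -- left side
  have hleft : ∑' x, ∑ n', m x n' * φ x n' ≤ mass * b +
      ∑ z ∈ Finset.range 7, ∑ e ∈ Finset.Icc 1 4, w z e * ψ6 z e := by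
    calc ∑' x, ∑ n', m x n' * φ x n'
        ≤ ∑' x, (∑ n', m x n' * b + ∑ n', m x n' * ψ x (4 - aN n')) := by
          apply ENNReal.tsum_le_tsum
          intro x
          rw [← Finset.sum_add_distrib]
          apply Finset.sum_le_sum
          intro n' _
          rw [← mul_add, ← hφψ x (4 - aN n') (by omega)]
          gcongr
          exact hφl x n'
      _ = (∑' x, ∑ n', m x n') * b + ∑ n', ∑' x, m x n' * ψ x (4 - aN n') := by
          rw [ENNReal.tsum_add, ← ENNReal.tsum_mul_right]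
          congr 1
          · apply tsum_congr
            intro x
            rw [Finset.sum_mul]
          · exact Summable.tsum_finsetSum (fun _ _ => ENNReal.summable)
      _ ≤ mass * b + ∑ n', ∑ z ∈ Finset.range 7, V z n' * ψ6 z (4 - aN n') := by
          gcongr with n' _
          exact hone n' _
      _ = mass * b + ∑ z ∈ Finset.range 7, ∑ e ∈ Finset.Icc 1 4, w z e * ψ6 z e := by
          rw [Finset.sum_comm, Finset.sum_congr rfl hgrp]
  -- right side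
  have hright : ∑' y, Q.q h y * ∑ e ∈ Finset.Icc 1 4, K.N e * φ y (chain e) =
      b + ∑ z ∈ Finset.range 7, K.T h z * ∑ e ∈ Finset.Icc 1 4, K.N e * ψ6 z e := by
    have e1 : ∀ y, ∑ e ∈ Finset.Icc 1 4, K.N e * φ y (chain e) =
        b + ∑ e ∈ Finset.Icc 1 4, K.N e * ψ y e := by
      intro y
      calc ∑ e ∈ Finset.Icc 1 4, K.N e * φ y (chain e)
          = ∑ e ∈ Finset.Icc 1 4, (K.N e * b + K.N e * ψ y e) := by
            apply Finset.sum_congr rfl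
            intro e he
            rw [hφψ y e (Finset.mem_Icc.1 he).2, mul_add]
        _ = _ := by rw [Finset.sum_add_distrib, ← Finset.sum_mul, hN4, one_mul]
    have e2 : ∑' y, Q.q h y * b = b := by
      rw [q_sum Q K, half_const, ← Finset.sum_mul, ← add_mul, ← Finset.sum_range_succ,
        K.T_sum, one_mul]
    calc ∑' y, Q.q h y * ∑ e ∈ Finset.Icc 1 4, K.N e * φ y (chain e)
        = ∑' y, (Q.q h y * b + Q.q h y * ∑ e ∈ Finset.Icc 1 4, K.N e * ψ y e) := by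
          apply tsum_congr
          intro y
          rw [e1, mul_add]
      _ = b + ∑' y, Q.q h y * ∑ e ∈ Finset.Icc 1 4, K.N e * ψ y e := by
          rw [ENNReal.tsum_add, e2]
      _ = _ := by
          have eA : ∑ y ∈ Finset.range 6, K.T h y * ∑ e ∈ Finset.Icc 1 4, K.N e * ψ y e =
              ∑ y ∈ Finset.range 6, K.T h y * ∑ e ∈ Finset.Icc 1 4, K.N e * ψ6 y e := by
            apply Finset.sum_congr rfl
            intro z hz
            congr 1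
            apply Finset.sum_congr rfl
            intro e _
            rw [h6lt z e (Finset.mem_range.1 hz)]
          have eB : ∑' j : ℕ, (1 / 2 : ℝ≥0∞) ^ (j + 1) *
              ∑ e ∈ Finset.Icc 1 4, K.N e * ψ (6 + j) e =
              ∑ e ∈ Finset.Icc 1 4, K.N e * ψ6 6 e := by
            simp only [Finset.mul_sum]
            rw [Summable.tsum_finsetSum (fun _ _ => ENNReal.summable)]
            apply Finset.sum_congr rfl
            intro e _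
            rw [h66, ← ENNReal.tsum_mul_left]
            apply tsum_congr
            intro j
            ring
          rw [q_sum Q K, eA, eB, Finset.sum_range_succ _ 6]
  rw [hright, mul_add]
  exact hleft.trans (by gcongr)

end FT4
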