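import Pool.Agent.helper237_FT4.Stmts

/-!
# FT4, task inv: legal sequences stay below the least solution (helper278)

`cfg idxS` explores the vertex-wise system; the invariant is that the number of queue entries at a
vertex plus the number of departures equals the number of arrivals.
-/

set_option autoImplicit false

open scoped BigOperators

namespace FT4

namespace inv_aux

/-- the instruction read from the digit pair `a` at `x` -/
def insA (x : Vx) (a : Al) : Rt := if x = [] then routeR a else route a

theorem mv_insA (x : Vx) (a : Al) :
    (∃ c, insA x a = some c ∧ mv a x = c :: x) ∨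
      (insA x a = none ∧ ∃ e z, x = e :: z ∧ mv a x = z) := by
  cases x with
  | nil => left; exact ⟨a.1, by simp [insA, routeR], by simp [mv]⟩
  | cons e z =>
    by_cases h : a.2 = 0
    · right; exact ⟨by simp [insA, route, h], e, z, rfl, by simp [mv, h]⟩
    · left; exact ⟨a.1, by simp [insA, route, h], by simp [mv, h]⟩

/-- the first `u` instructions at `x` -/
def pre (η : Vx → ℕ → Al) (x : Vx) (u : ℕ) : List Rt :=
  (List.range u).map (fun j => insA x (η x j))

theorem pre_succ (η : Vx → ℕ → Al) (x : Vx) (u : ℕ) :
    pre η x (u + 1) = pre η x u ++ [insA x (η x u)] := by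
  simp [pre, List.range_succ]

theorem pre_length (η : Vx → ℕ → Al) (x : Vx) (u : ℕ) : (pre η x u).length = u := by
  simp [pre]

/-- entries into a vertex from its parent -/
def nE (η : Vx → ℕ → Al) (D : Vx → ℕ) : Vx → ℕ
  | [] => 0
  | c :: w => (pre η w (D w)).count (some c)

/-- upward departures -/
def nU (η : Vx → ℕ → Al) (D : Vx → ℕ) (v : Vx) : ℕ := (pre η v (D v)).count none

/-- frogs put from outside -/
def pp (η : Vx → ℕ → Al) (D : Vx → ℕ) (v : Vx) : ℕ := if v = [] then 1 else pen (nE η D v)

def arr (η : Vx → ℕ → Al) (D : Vx → ℕ) (v : Vx) : ℕ := pp η D v + ∑ c : Fin 4, nU η D (c :: v)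

def qc (q : List (Vx × ℕ × Vx)) (v : Vx) : ℕ := (q.map (fun e => e.2.2)).count v

theorem nE_update (η : Vx → ℕ → Al) (D : Vx → ℕ) (x : Vx) (c : Fin 4) (w : Vx) :
    nE η (Function.update D x (D x + 1)) (c :: w) =
      nE η D (c :: w) + if w = x ∧ insA x (η x (D x)) = some c then 1 else 0 := by
  by_cases h : w = x
  · subst h
    simp only [nE, Function.update_self, pre_succ, List.count_append, true_and]
    by_cases h2 : insA w (η w (D w)) = some c
    · simp [h2]
    · simp [h2]
  · simp [nE, h]

theorem nU_update (η : Vx → ℕ → Al) (D : Vx → ℕ) (x : Vx) (w : Vx) :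
    nU η (Function.update D x (D x + 1)) w =
      nU η D w + if w = x ∧ insA x (η x (D x)) = none then 1 else 0 := by
  by_cases h : w = x
  · subst h
    simp only [nU, Function.update_self, pre_succ, List.count_append, true_and]
    by_cases h2 : insA w (η w (D w)) = none
    · simp [h2]
    · simp [h2]
  · simp [nU, h]

theorem pen_succ (E : ℕ) : pen (E + 1) = pen E + 1 + if E = 0 then 1 else 0 := by
  unfold pen
  by_cases h : E = 0
  · simp [h]
  · simp [h]

theorem pen_mono {E E' : ℕ} (h : E ≤ E') : pen E ≤ pen E' := by
  unfold pen
  split_ifs <;> omega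

/-- the arrivals after one more departure from `x` -/
theorem arr_update (η : Vx → ℕ → Al) (D : Vx → ℕ) (x : Vx) (w : Vx) :
    arr η (Function.update D x (D x + 1)) w =
      arr η D w + (if w = mv (η x (D x)) x then
        (1 + if (insA x (η x (D x)) ≠ none ∧ nE η D (mv (η x (D x)) x) = 0) then 1 else 0) else 0) := by
  rcases mv_insA x (η x (D x)) with ⟨c, hc, hm⟩ | ⟨hc, e, z, hx, hm⟩
  · have hU : ∀ d : Fin 4, nU η (Function.update D x (D x + 1)) (d :: w) = nU η D (d :: w) := by
      intro d
      rw [nU_update, hc]; simp
    unfold arr
    simp only [hU]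
    rw [hm, hc]
    cases w with
    | nil => simp [pp]
    | cons d u =>
      simp only [pp, reduceCtorEq, if_false, nE_update, hc, Option.some.injEq, List.cons.injEq,
        ne_eq, not_false_eq_true, true_and]
      by_cases h1 : u = x ∧ c = d
      · obtain ⟨h1, h2⟩ := h1
        subst h1; subst h2
        simp only [and_self, if_true, pen_succ]
        omega
      · have h2 : ¬ (d = c ∧ u = x) := fun hh => h1 ⟨hh.2, hh.1.symm⟩
        rw [if_neg h1, if_neg h2]; simp
  · have hE : nE η (Function.update D x (D x + 1)) w = nE η D w := by
      cases w with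
      | nil => rfl
      | cons d u => rw [nE_update, hc]; simp
    unfold arr
    have hp : pp η (Function.update D x (D x + 1)) w = pp η D w := by
      unfold pp; rw [hE]
    rw [hp, hm, hc]
    have : ∑ c : Fin 4, nU η (Function.update D x (D x + 1)) (c :: w) =
        ∑ c : Fin 4, nU η D (c :: w) + if w = z then 1 else 0 := by
      simp only [nU_update, hc, and_true, Finset.sum_add_distrib]
      congr 1
      by_cases hw : w = z
      · subst hw
        subst hx
        simp [List.cons.injEq]
      · rw [if_neg hw]
        apply Finset.sum_eq_zero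
        intro c _
        rw [if_neg]
        rintro rfl
        simp only [List.cons.injEq] at hx
        exact hw hx.2
    rw [this]
    by_cases hw : w = z
    · simp [hw]; ring
    · simp [hw]

structure Inv (η : Vx → ℕ → Al) (C : Cfg) (t : ℕ) : Prop where
  ne : C.q ≠ []
  cnt : ∀ v, qc C.q v + C.dep v = arr η C.dep v
  visE : ∀ v, v ∈ C.vis ↔ v = [] ∨ 0 < nE η C.dep v
  qvis : ∀ e ∈ C.q, e.2.2 ∈ C.vis
  visT : ∀ c z, c :: z ∈ C.vis → z ∈ C.vis
  qlen : ∀ e ∈ C.q, e.2.2.length ≤ t
  dle : ∀ v, C.dep v ≤ t
  dlen : ∀ v, 0 < C.dep v → v.length < t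

theorem inv_init (η : Vx → ℕ → Al) : Inv η Cfg.init 0 := by
  have hE : ∀ v, nE η (fun _ => 0) v = 0 := by
    intro v
    cases v with
    | nil => rfl
    | cons c w => simp [nE, pre]
  have hU : ∀ v, nU η (fun _ => 0) v = 0 := by
    intro v
    simp [nU, pre]
  refine ⟨by simp [Cfg.init], ?_, ?_, ?_, ?_, ?_, ?_, ?_⟩
  · intro v
    simp only [Cfg.init, arr, pp, hE, hU, qc]
    by_cases hv : v = []
    · subst hv; simp
    · have : ¬ ([] : Vx) = v := fun h => hv h.symm
      simp [hv, this, pen]
  · intro v
    simp [Cfg.init, hE]
  · intro e he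
    simp only [Cfg.init, List.mem_singleton] at he ⊢
    subst he; rfl
  · intro c z h
    simp [Cfg.init] at h
  · intro e he
    simp only [Cfg.init, List.mem_singleton] at he
    subst he; simp
  · intro v; simp [Cfg.init]
  · intro v h; simp [Cfg.init] at h

theorem qc_append (q q' : List (Vx × ℕ × Vx)) (v : Vx) : qc (q ++ q') v = qc q v + qc q' v := by
  simp [qc]

theorem qc_cons (e : Vx × ℕ × Vx) (q : List (Vx × ℕ × Vx)) (v : Vx) :
    qc (e :: q) v = qc q v + if e.2.2 = v then 1 else 0 := by
  simp [qc, List.count_cons]

theorem qc_nil (v : Vx) : qc [] v = 0 := rfl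

theorem mv_length (a : Al) (x : Vx) : (mv a x).length ≤ x.length + 1 := by
  rcases mv_insA x a with ⟨c, _, hm⟩ | ⟨_, e, z, hx, hm⟩
  · rw [hm]; simp
  · rw [hm, hx, List.length_cons]; omega

theorem inv_core (η : Vx → ℕ → Al) (r : List (Vx × ℕ × Vx)) (vis : List Vx) (D : Vx → ℕ)
    (v0 : Vx) (k0 : ℕ) (x : Vx) (t : ℕ) (h : Inv η ⟨(v0, k0, x) :: r, vis, D⟩ t)
    (a : Al) (y : Vx) (ha : a = η x (D x)) (hy : y = mv a x) :
    Inv η ⟨r ++ (v0, k0 + 1, y) :: (if y ∈ vis then [] else [(y, 0, y)]),
      if y ∈ vis then vis else y :: vis, Function.update D x (D x + 1)⟩ (t + 1) := by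
    obtain ⟨ne, cnt, visE, qvis, visT, qlen, dle, dlen⟩ := h
    simp only at ne cnt visE qvis visT qlen dle dlen
    have hx : x ∈ vis := qvis (v0, k0, x) (by simp)
    have hxl : x.length ≤ t := qlen (v0, k0, x) (by simp)
    have hylen : y.length ≤ t + 1 := hy ▸ (mv_length a x).trans (by omega)
    have hytail : ∀ c z, c :: z = y → y ∉ vis → z ∈ vis := by
      intro c z hcz hyv
      rcases mv_insA x a with ⟨d, _, hm⟩ | ⟨_, e, z', hx', hm⟩
      · rw [← hy, ← hcz] at hm
        simp only [List.cons.injEq] at hm
        rw [hm.2]; exact hx
      · exfalso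
        apply hyv
        rw [hy, hm]
        rw [hx'] at hx
        exact visT e z' hx
    -- whether `y` is new
    have hnew : (insA x a ≠ none ∧ nE η D y = 0) ↔ y ∉ vis := by
      rcases mv_insA x a with ⟨d, hd, hm⟩ | ⟨hd, e, z', hx', hm⟩
      · rw [visE, ← hy] at *
        rw [hd, hm]
        simp
      · have : y ∈ vis := by
          rw [hy, hm]
          rw [hx'] at hx
          exact visT e z' hx
        simp [hd, this]
    refine ⟨?_, ?_, ?_, ?_, ?_, ?_, ?_, ?_⟩
    · simp
    · intro w
      have h1 := cnt w
      rw [qc_cons] at h1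
      simp only at h1
      have h2 := arr_update η D x w
      rw [← ha, ← hy] at h2
      simp only
      rw [h2, qc_append, qc_cons, ← h1]
      simp only
      have h3 : Function.update D x (D x + 1) w = D w + if x = w then 1 else 0 := by
        by_cases hw : x = w
        · subst hw; simp
        · rw [Function.update_of_ne (fun hh => hw hh.symm)]; simp [hw]
      rw [h3]
      by_cases hv : y ∈ vis
      · have h4 : ¬ (insA x a ≠ none ∧ nE η D y = 0) := by rw [hnew]; simpa using hv
        rw [if_pos hv, if_neg h4, qc_nil]
        by_cases hw : y = w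
        · have hw' : w = y := hw.symm
          simp only [if_pos hw, if_pos hw']; omega
        · have hw' : ¬ w = y := fun hh => hw hh.symm
          simp only [if_neg hw, if_neg hw']; omega
      · have h4 : (insA x a ≠ none ∧ nE η D y = 0) := by rw [hnew]; exact hv
        rw [if_neg hv, if_pos h4, qc_cons, qc_nil]
        by_cases hw : y = w
        · have hw' : w = y := hw.symm
          simp only [if_pos hw, if_pos hw']; omega
        · have hw' : ¬ w = y := fun hh => hw hh.symm
          simp only [if_neg hw, if_neg hw']; omega
    · intro w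
      simp only
      have hE : nE η (Function.update D x (D x + 1)) w =
          nE η D w + if insA x a ≠ none ∧ w = y then 1 else 0 := by
        cases w with
        | nil =>
          rcases mv_insA x a with ⟨d, hd, hm⟩ | ⟨hd, e, z', hx', hm⟩
          · have : ¬ ([] : Vx) = y := by rw [hy, hm]; simp
            simp [nE, this]
          · simp [nE, hd]
        | cons c u =>
          rw [nE_update, ← ha]
          congr 1
          rcases mv_insA x a with ⟨d, hd, hm⟩ | ⟨hd, e, z', hx', hm⟩
          · rw [hy, hm, hd]
            by_cases h1 : u = x ∧ d = c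
            · obtain ⟨h1, h2⟩ := h1
              subst h1; subst h2; simp
            · have h2 : ¬ (c = d ∧ u = x) := fun hh => h1 ⟨hh.2, hh.1.symm⟩
              simp [h1, h2]
          · simp [hd]
      rw [hE]
      by_cases hv : y ∈ vis
      · rw [if_pos hv, visE]
        have hy2 := (visE y).1 hv
        by_cases hw : w = y
        · subst hw
          constructor
          · rintro (h5 | h5)
            · exact Or.inl h5
            · exact Or.inr (by omega)
          · intro _
            exact hy2
        · simp [hw]
      · rw [if_neg hv, List.mem_cons, visE]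
        have h4 := hnew.2 hv
        by_cases hw : w = y
        · simp [hw, h4.1]
        · simp [hw]
    · intro e he
      simp only at he ⊢
      have hyin : y ∈ (if y ∈ vis then vis else y :: vis) := by
        split_ifs with h5
        · exact h5
        · simp
      have hsub : ∀ z, z ∈ vis → z ∈ (if y ∈ vis then vis else y :: vis) := by
        intro z hz
        split_ifs with h5
        · exact hz
        · simp [hz]
      rw [List.mem_append, List.mem_cons] at he
      rcases he with he | he | he
      · exact hsub _ (qvis e (by simp [he]))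
      · subst he; exact hyin
      · split_ifs at he with h5
        · simp at he
        · simp only [List.mem_singleton] at he
          subst he
          exact hyin
    · intro c z hcz
      simp only at hcz ⊢
      split_ifs at hcz ⊢ with h5
      · exact visT c z hcz
      · rw [List.mem_cons] at hcz ⊢
        rcases hcz with hcz | hcz
        · exact Or.inr (hytail c z hcz h5)
        · exact Or.inr (visT c z hcz)
    · intro e he
      simp only at he
      rw [List.mem_append, List.mem_cons] at he
      rcases he with he | he | he
      · exact (qlen e (by simp [he])).trans (by omega)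
      · subst he; exact hylen
      · split_ifs at he with h5
        · simp at he
        · simp only [List.mem_singleton] at he
          subst he
          exact hylen
    · intro w
      simp only
      by_cases hw : w = x
      · subst hw
        rw [Function.update_self]
        have := dle w
        omega
      · rw [Function.update_of_ne hw]
        exact (dle w).trans (by omega)
    · intro w hw0
      simp only at hw0
      by_cases hw : w = x
      · subst hw
        omega
      · rw [Function.update_of_ne hw] at hw0
        exact (dlen w hw0).trans (by omega)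

theorem inv_step (η : Vx → ℕ → Al) (C : Cfg) (t : ℕ) (h : Inv η C t) :
    Inv η (C.step (η (idxS C).1 (idxS C).2)) (t + 1) := by
  obtain ⟨q, vis, D⟩ := C
  cases q with
  | nil => exact absurd rfl h.ne
  | cons e r =>
    obtain ⟨v0, k0, x⟩ := e
    exact inv_core η r vis D v0 k0 x t h _ _ rfl rfl

theorem inv_all (η : Vx → ℕ → Al) (t : ℕ) : Inv η (cfg idxS η t) t := by
  induction t with
  | zero => exact inv_init η
  | succ t ih => exact inv_step η _ t ih

/-! ### comparison with the least solution -/

/-- the instructions of the cut-off system -/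
def rr (L : ℕ) (η : Vx → ℕ → Al) (v : Vx) : List Rt := (row L η v).map (insA v)

theorem rr_take (L : ℕ) (η : Vx → ℕ → Al) (v : Vx) (u : ℕ) (hu : u ≤ L) :
    (rr L η v).take u = pre η v u := by
  unfold rr row pre
  apply List.ext_getElem
  · simp [hu]
  · intro i h1 h2
    simp

theorem rr_length (L : ℕ) (η : Vx → ℕ → Al) (v : Vx) : (rr L η v).length = L := by
  simp [rr, row]

theorem rr_nil (L : ℕ) (η : Vx → ℕ → Al) : rr L η [] = (row L η []).map routeR := by
  unfold rr
  congr 1

theorem rr_cons (L : ℕ) (η : Vx → ℕ → Al) (c : Fin 4) (v : Vx) :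
    rr L η (c :: v) = (row L η (c :: v)).map route := by
  unfold rr
  congr 1

theorem ups_mono (r : List Rt) {u u' : ℕ} (h : u ≤ u') : ups r u ≤ ups r u' := by
  unfold ups
  exact List.Sublist.count_le _ (List.take_sublist_take_left h)

theorem dep_mono_p (r : List Rt) {p p' : ℕ} (g : Fin 4 → ℕ → ℕ) (h : p ≤ p') :
    dep r p g ≤ dep r p' g := by
  unfold dep
  apply Nat.find_mono
  rintro n (hn | hn)
  · exact Or.inl hn
  · right
    unfold tot at hn ⊢
    omega

theorem lt_dep (r : List Rt) (p : ℕ) (g : Fin 4 → ℕ → ℕ) (u : ℕ) (h1 : u ≤ dep r p g)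
    (h2 : u < r.length) (h3 : u < tot r p g u) : u + 1 ≤ dep r p g := by
  rcases Nat.lt_or_ge u (dep r p g) with h | h
  · exact h
  · exfalso
    have he : u = dep r p g := le_antisymm h1 h
    have := Nat.find_spec (dep_ex r p g)
    rw [show Nat.find (dep_ex r p g) = dep r p g from rfl, ← he] at this
    rcases this with h4 | h4 <;> omega

/-- the bound for the number of departures from `v` -/
def bd (L : ℕ) (η : Vx → ℕ → Al) (D : Vx → ℕ) (v : Vx) : ℕ :=
  dep (rr L η v) (pp η D v) (fun c => fv L η (L - v.length) (c :: v))

theorem nE_mono (η : Vx → ℕ → Al) (D D' : Vx → ℕ) (h : ∀ v, D v ≤ D' v) (v : Vx) :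
    nE η D v ≤ nE η D' v := by
  cases v with
  | nil => exact le_rfl
  | cons c w =>
    show (pre η w (D w)).count (some c) ≤ (pre η w (D' w)).count (some c)
    have h1 := rr_take (D' w) η w (D w) (h w)
    have h2 := rr_take (D' w) η w (D' w) le_rfl
    rw [← h1, ← h2]
    exact List.Sublist.count_le _ (List.take_sublist_take_left (h w))

theorem pp_mono (η : Vx → ℕ → Al) (D D' : Vx → ℕ) (h : ∀ v, D v ≤ D' v) (v : Vx) :
    pp η D v ≤ pp η D' v := by
  unfold pp
  split_ifs
  · exact le_rfl
  · exact pen_mono (nE_mono η D D' h v)

theorem main_bd (η : Vx → ℕ → Al) (L t : ℕ) (ht : t ≤ L) (v : Vx) :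
    (cfg idxS η t).dep v ≤ bd L η (cfg idxS η t).dep v := by
  induction t generalizing v with
  | zero => exact Nat.zero_le _
  | succ t ih =>
    have ih := ih (by omega)
    have hI := inv_all η t
    have hI' := inv_all η (t + 1)
    revert hI hI' ih
    rw [show cfg idxS η (t + 1) = (cfg idxS η t).step (η (idxS (cfg idxS η t)).1
      (idxS (cfg idxS η t)).2) from rfl]
    generalize cfg idxS η t = C
    intro ih hI hI'
    obtain ⟨q, vis, D⟩ := C
    obtain ⟨ne, cnt, visE, qvis, visT, qlen, dle, dlen⟩ := hI
    simp only at ne cnt visE qvis visT qlen dle dlen ih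
    cases q with
    | nil => exact absurd rfl ne
    | cons e r =>
      obtain ⟨v0, k0, x⟩ := e
      have hxl : x.length ≤ t := qlen (v0, k0, x) (by simp)
      simp only [idxS, Cfg.step]
      have hmono : ∀ w, D w ≤ Function.update D x (D x + 1) w := by
        intro w
        by_cases hw : w = x
        · subst hw; rw [Function.update_self]; omega
        · rw [Function.update_of_ne hw]
      by_cases hv : v = x
      · subst hv
        rw [Function.update_self]
        -- the number of arrivals exceeds the number of departures
        have h1 := cnt v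
        rw [qc_cons] at h1
        simp only [if_true] at h1
        have h2 : D v < arr η D v := by omega
        have hlt : D v < tot (rr L η v) (pp η D v) (fun c => fv L η (L - v.length) (c :: v))
            (D v) := by
          refine h2.trans_le ?_
          unfold arr tot
          refine Nat.add_le_add_left (Finset.sum_le_sum fun c _ => ?_) _
          obtain ⟨n, hn⟩ : ∃ n, L - v.length = n + 1 := ⟨L - v.length - 1, by omega⟩
          have hc : cntc c (rr L η v) (D v) = nE η D (c :: v) := by
            unfold cntc nE
            rw [rr_take L η v (D v) ((dle v).trans (by omega))]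
          rw [hc, hn]
          have hb := ih (c :: v)
          unfold bd at hb
          have hl : L - (c :: v).length = n := by simp; omega
          rw [hl, rr_cons] at hb
          have hpp : pp η D (c :: v) = pen (nE η D (c :: v)) := by simp [pp]
          rw [hpp] at hb
          show nU η D (c :: v) ≤ exits _ _ _
          unfold exits
          refine le_trans ?_ (ups_mono _ hb)
          unfold nU ups
          rw [← rr_cons, rr_take L η (c :: v) (D (c :: v)) ((dle _).trans (by omega))]
        have h3 := lt_dep (rr L η v) (pp η D v) (fun c => fv L η (L - v.length) (c :: v)) (D v)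
          (ih v) (by rw [rr_length]; have := dle v; omega) hlt
        refine h3.trans ?_
        unfold bd
        exact dep_mono_p _ _ (pp_mono η _ _ hmono v)
      · rw [Function.update_of_ne hv]
        refine (ih v).trans ?_
        unfold bd
        exact dep_mono_p _ _ (pp_mono η _ _ hmono v)

end inv_aux

theorem t_inv : S_inv := by
  intro η L t ht
  have h := inv_aux.main_bd η L t ht []
  unfold inv_aux.bd at h
  rw [inv_aux.rr_nil] at h
  simpa [droot, inv_aux.pp] using h

end FT4
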