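import Pool.Agent.helper237_FT4.Stmts
import Pool.Agent.helper237_FT4.T_ey

/-!
# FT4: lower levels dominate (helper182)
-/

set_option autoImplicit false

open MeasureTheory ProbabilityTheory
open scoped ENNReal BigOperators

namespace FT4

namespace lev_aux

/-- layer cake formula for monotone sequences -/
theorem layer (f φ : ℕ → ℝ≥0∞) (hφ : Monotone φ) :
    ∑' y, f y * φ y = φ 0 * ∑' y, f y + ∑' i, (φ (i + 1) - φ i) * ∑' j, f (i + 1 + j) := by
  have h1 : ∀ y, φ y = φ 0 + ∑' i, (if i < y then (φ (i + 1) - φ i) else 0) := by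
    intro y
    have h2 : ∑' i, (if i < y then (φ (i + 1) - φ i) else 0)
        = ∑ i ∈ Finset.range y, (φ (i + 1) - φ i) := by
      rw [tsum_eq_sum (s := Finset.range y)]
      · exact Finset.sum_congr rfl (fun i hi => by rw [if_pos (Finset.mem_range.1 hi)])
      · intro i hi
        rw [if_neg (fun h => hi (Finset.mem_range.2 h))]
    rw [h2]
    induction y with
    | zero => simp
    | succ y ih =>
      rw [Finset.sum_range_succ, ← add_assoc, ← ih (by
        rw [tsum_eq_sum (s := Finset.range y)]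
        · exact Finset.sum_congr rfl (fun i hi => by rw [if_pos (Finset.mem_range.1 hi)])
        · intro i hi
          rw [if_neg (fun h => hi (Finset.mem_range.2 h))])]
      exact (add_tsub_cancel_of_le (hφ (Nat.le_succ y))).symm
  have h3 : ∀ y, f y * φ y = φ 0 * f y + ∑' i, (φ (i + 1) - φ i) * (if i < y then f y else 0) := by
    intro y
    conv_lhs => rw [h1 y]
    rw [mul_add, mul_comm (f y) (φ 0), ← ENNReal.tsum_mul_left]
    congr 1
    exact tsum_congr (fun i => by split_ifs <;> simp [mul_comm])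
  rw [tsum_congr h3, ENNReal.tsum_add, ENNReal.tsum_mul_left, ENNReal.tsum_comm]
  congr 1
  refine tsum_congr (fun i => ?_)
  rw [ENNReal.tsum_mul_left]
  congr 1
  rw [← Summable.sum_add_tsum_nat_add' (f := fun y => if i < y then f y else 0) (k := i + 1)
    ENNReal.summable]
  rw [Finset.sum_eq_zero (fun y hy => if_neg (by have := Finset.mem_range.1 hy; omega)), zero_add]
  exact tsum_congr (fun j => by rw [if_pos (by omega)]; congr 1; omega)

/-- stochastic domination -/
theorem stoch (f g φ : ℕ → ℝ≥0∞) (hφ : Monotone φ) (h0 : ∑' y, f y ≤ ∑' y, g y)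
    (hk : ∀ k, 1 ≤ k → ∑' j, f (k + j) ≤ ∑' j, g (k + j)) :
    ∑' y, f y * φ y ≤ ∑' y, g y * φ y := by
  rw [layer f φ hφ, layer g φ hφ]
  exact add_le_add (mul_le_mul_right h0 _)
    (ENNReal.tsum_le_tsum (fun i => mul_le_mul_right (hk (i + 1) (by omega)) _))

theorem tail_le {Q : Par} (K : Cert Q) (h : Fin 3) (k : ℕ) (hk : k ≤ 6) :
    ∑' j, Q.q h (k + j) = ∑ z ∈ Finset.Icc k 6, K.T h z := by
  have h6 : ∑' j, Q.q h (6 + j) = K.T h 6 := ey_aux.tail6 K h
  obtain ⟨m, rfl⟩ : ∃ m, k = 6 - m := ⟨6 - k, by omega⟩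
  have hm : m ≤ 6 ∨ 6 < m := le_or_gt m 6
  clear hk
  induction m with
  | zero => simpa using h6
  | succ m ih =>
    by_cases hm6 : m < 6
    · rw [ey_aux.tail_succ]
      have e : 6 - (m + 1) + 1 = 6 - m := by omega
      rw [e, ih (Or.inl hm6.le), K.q_lt h _ (by omega)]
      have hI : Finset.Icc (6 - (m + 1)) 6 = insert (6 - (m + 1)) (Finset.Icc (6 - m) 6) := by
        ext z
        simp only [Finset.mem_Icc, Finset.mem_insert]
        omega
      rw [hI, Finset.sum_insert (by simp only [Finset.mem_Icc]; omega)]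
    · have e : 6 - (m + 1) = 6 - m := by omega
      rw [e]
      exact ih (by omega)

theorem tail_ge {Q : Par} (K : Cert Q) (h : Fin 3) (m : ℕ) :
    ∑' j, Q.q h (6 + m + j) = K.T h 6 * (1 / 2) ^ m := by
  have e : ∀ j, Q.q h (6 + m + j) = K.T h 6 * ((1 / 2) ^ m * (1 / 2) ^ (j + 1)) := by
    intro j
    rw [add_assoc, K.q_ge h, ← pow_add]
    congr 2
  rw [tsum_congr e, ENNReal.tsum_mul_left, ENNReal.tsum_mul_left, ey_aux.geo, mul_one]

theorem dom21 {Q : Par} (K : Cert Q) (k : ℕ) (hk : 1 ≤ k) :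
    ∑' j, Q.q 2 (k + j) ≤ ∑' j, Q.q 1 (k + j) := by
  by_cases h6 : k ≤ 6
  · rw [tail_le K 2 k h6, tail_le K 1 k h6]
    exact K.ord21 k hk h6
  · obtain ⟨m, rfl⟩ : ∃ m, k = 6 + m := ⟨k - 6, by omega⟩
    rw [tail_ge K, tail_ge K]
    have := K.ord21 6 (by norm_num) le_rfl
    simp only [Finset.Icc_self, Finset.sum_singleton] at this
    exact mul_le_mul_left this _

theorem dom10 {Q : Par} (K : Cert Q) (k : ℕ) (hk : 1 ≤ k) :
    ∑' j, ((if k + j = 1 then 1 / 5 else 0) + 4 / 5 * Q.q 1 (k + j)) ≤ ∑' j, Q.q 0 (k + j) := by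
  rw [ENNReal.tsum_add, ENNReal.tsum_mul_left]
  have hd : ∑' j, (if k + j = 1 then (1 / 5 : ℝ≥0∞) else 0) = if k = 1 then 1 / 5 else 0 := by
    rw [tsum_eq_single 0]
    · simp
    · intro j hj
      rw [if_neg (by omega)]
  rw [hd]
  by_cases h6 : k ≤ 6
  · rw [tail_le K 1 k h6, tail_le K 0 k h6]
    exact K.ord10 k hk h6
  · obtain ⟨m, rfl⟩ : ∃ m, k = 6 + m := ⟨k - 6, by omega⟩
    rw [tail_ge K, tail_ge K, if_neg (by omega), zero_add, ← mul_assoc]
    have := K.ord10 6 (by norm_num) le_rfl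
    simp only [Finset.Icc_self, Finset.sum_singleton] at this
    norm_num at this
    refine mul_le_mul_left ?_ _
    simpa using this

theorem cum_cons (y : ℕ) (l : List ℕ) (j : ℕ) : cum (y :: l) (j + 1) = y + cum l j := by
  simp [cum]

theorem cmono_cons {k : ℕ} {G : List ℕ → ℝ≥0∞} (hG : CMono (k + 1) G) (y : ℕ) :
    CMono k (fun l => G (y :: l)) := by
  intro l l' hl hl' h
  refine hG _ _ (by simp [hl]) (by simp [hl']) (fun j => ?_)
  cases j with
  | zero => simp [cum]
  | succ j => rw [cum_cons, cum_cons]; exact Nat.add_le_add_left (h j) _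

theorem mono_y {Q : Par} {k : ℕ} {G : List ℕ → ℝ≥0∞} (hG : CMono (k + 1) G) (h : Fin 3) :
    Monotone (fun y => EY Q k h (fun l => G (y :: l))) := by
  intro y y' hy
  refine ey_aux.EY_mono Q k h _ _ (fun l hl => ?_)
  refine hG _ _ (by simp [hl]) (by simp [hl]) (fun j => ?_)
  cases j with
  | zero => simp [cum]
  | succ j => rw [cum_cons, cum_cons]; exact Nat.add_le_add_right hy _

theorem main {Q : Par} (K : Cert Q) (k : ℕ) : ∀ (h h' : Fin 3) (G : List ℕ → ℝ≥0∞),
    CMono k G → h' ≤ h → EY Q k h G ≤ EY Q k h' G := by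
  have hN : Norm Q := ey_aux.norm ⟨K⟩
  induction k with
  | zero => intro h h' G _ _; exact le_rfl
  | succ k ih =>
    intro h h' G hG hh
    have s21 : EY Q (k + 1) 2 G ≤ EY Q (k + 1) 1 G := by
      show opY Q 2 (fun y h' => EY Q k h' (fun l => G (y :: l))) ≤
        opY Q 1 (fun y h' => EY Q k h' (fun l => G (y :: l)))
      have e2 : ∀ F, opY Q 2 F = 1 / 5 * F 1 2 + 4 / 5 * ∑' y, Q.q 2 y * F y 2 := fun F => rfl
      have e1 : ∀ F, opY Q 1 F = 1 / 5 * F 1 1 + 4 / 5 * ∑' y, Q.q 1 y * F y 2 := fun F => rfl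
      rw [e2, e1]
      refine add_le_add (mul_le_mul_right (ih 2 1 _ (cmono_cons hG 1) (by decide)) _)
        (mul_le_mul_right ?_ _)
      exact stoch _ _ _ (mono_y hG 2) (by rw [hN, hN]) (fun k hk => dom21 K k hk)
    have s10 : EY Q (k + 1) 1 G ≤ EY Q (k + 1) 0 G := by
      show opY Q 1 (fun y h' => EY Q k h' (fun l => G (y :: l))) ≤
        opY Q 0 (fun y h' => EY Q k h' (fun l => G (y :: l)))
      have e1 : ∀ F, opY Q 1 F = 1 / 5 * F 1 1 + 4 / 5 * ∑' y, Q.q 1 y * F y 2 := fun F => rfl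
      have e0 : ∀ F, opY Q 0 F = ∑' y, Q.q 0 y * F y 1 := fun F => rfl
      rw [e1, e0]
      set Φ : ℕ → ℝ≥0∞ := fun y => EY Q k 1 (fun l => G (y :: l)) with hΦ
      have hΦm : Monotone Φ := mono_y hG 1
      calc 1 / 5 * EY Q k 1 (fun l => G (1 :: l)) +
            4 / 5 * ∑' y, Q.q 1 y * EY Q k 2 (fun l => G (y :: l))
          ≤ 1 / 5 * Φ 1 + 4 / 5 * ∑' y, Q.q 1 y * Φ y := by
            refine add_le_add le_rfl (mul_le_mul_right (ENNReal.tsum_le_tsum (fun y =>
              mul_le_mul_right (ih 2 1 _ (cmono_cons hG y) (by decide)) _)) _)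
        _ = ∑' y, ((if y = 1 then 1 / 5 else 0) + 4 / 5 * Q.q 1 y) * Φ y := by
            simp_rw [add_mul]
            rw [ENNReal.tsum_add]
            congr 1
            · rw [tsum_eq_single 1]
              · simp
              · intro y hy; simp [hy]
            · rw [← ENNReal.tsum_mul_left]
              exact tsum_congr (fun y => by rw [mul_assoc])
        _ ≤ ∑' y, Q.q 0 y * Φ y := by
            refine stoch _ _ _ hΦm ?_ (fun k hk => dom10 K k hk)
            rw [hN, ENNReal.tsum_add, ENNReal.tsum_mul_left, hN, mul_one]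
            rw [tsum_eq_single 1 (by intro y hy; simp [hy])]
            simp only [if_true]
            rw [ey_aux.fifth]
    fin_cases h <;> fin_cases h'
    · exact le_rfl
    · exact absurd hh (by decide)
    · exact absurd hh (by decide)
    · exact s10
    · exact le_rfl
    · exact absurd hh (by decide)
    · exact s21.trans s10
    · exact s21
    · exact le_rfl

end lev_aux

theorem t_lev : S_lev := fun _ hc k h h' G hG hh => by
  obtain ⟨K⟩ := hc
  exact lev_aux.main K k h h' G hG hh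

end FT4
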