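import Pool.Agent.helper237_FT4.Stmts

/-!
# Project FT4, task `main` (helper93)

The final assembly: monotone convergence for the number of departures from the root.
-/

set_option autoImplicit false

open MeasureTheory ProbabilityTheory
open scoped ENNReal BigOperators

namespace FT4

namespace main_aux

theorem dep_le_step (C : Cfg) (a : Al) (x : Vx) : C.dep x ≤ (C.step a).dep x := by
  rw [Cfg.step]
  split
  · exact le_rfl
  · simp only [Function.update_apply]
    split_ifs with h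
    · rw [h]
      exact Nat.le_succ _
    · exact le_rfl

theorem dep_mono (idx : Cfg → Vx × ℕ) (η : Vx → ℕ → Al) (x : Vx) :
    Monotone (fun t => (cfg idx η t).dep x) :=
  monotone_nat_of_le_succ (fun _ => dep_le_step _ _ x)

end main_aux

open main_aux in
theorem t_main (hfair : S_fair) (hadapt : S_adapt) (hinv : S_inv) (hroot : S_root)
    (hcert : S_cert) : S_main := by
  intro Ω _ P _ ξ hmeas hind hlaw S hS0 hS1
  obtain ⟨Q, hQ⟩ := hcert
  have hξ : IID P ξ := ⟨hmeas, hind, hlaw⟩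
  have hb : ∀ t : ℕ, ∫⁻ ω, ((cfg idxF (fun v k => ξ v k ω) t).dep [] : ℝ≥0∞) ∂P ≤ 25 := by
    intro t
    rw [(hadapt Ω P ξ hξ t).2]
    refine le_trans (lintegral_mono (fun ω => ?_)) (hroot Q hQ Ω P ξ hξ t)
    exact Nat.cast_le.2 (hinv (fun v k => ξ v k ω) t t le_rfl)
  have hm : ∀ t : ℕ, Measurable
      (fun ω => ((cfg idxF (fun v k => ξ v k ω) t).dep [] : ℝ≥0∞)) := fun t =>
    (measurable_of_countable (fun n : ℕ => (n : ℝ≥0∞))).comp (hadapt Ω P ξ hξ t).1
  have hmono : Monotone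
      (fun (t : ℕ) (ω : Ω) => ((cfg idxF (fun v k => ξ v k ω) t).dep [] : ℝ≥0∞)) := by
    intro t t' h ω
    simp only
    exact_mod_cast dep_mono idxF (fun v k => ξ v k ω) [] h
  have hsup : ∫⁻ ω, ⨆ t : ℕ, ((cfg idxF (fun v k => ξ v k ω) t).dep [] : ℝ≥0∞) ∂P ≤ 25 := by
    rw [lintegral_iSup hm hmono]
    exact iSup_le hb
  have hfin : ∀ᵐ ω ∂P, ⨆ t : ℕ, ((cfg idxF (fun v k => ξ v k ω) t).dep [] : ℝ≥0∞) < ⊤ := by
    refine ae_lt_top (Measurable.iSup hm) ?_
    exact ne_top_of_le_ne_top (by finiteness) hsup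
  filter_upwards [hfin] with ω hω
  obtain ⟨B, hB⟩ := ENNReal.exists_nat_gt hω.ne
  refine hfair (fun v k => ξ v k ω) (fun v k => S v k ω) (fun v => hS0 v ω)
    (fun v k => hS1 v k ω) B (fun t => ?_)
  have h1 : ((cfg idxF (fun v k => ξ v k ω) t).dep [] : ℝ≥0∞) ≤ B :=
    (le_iSup (fun t : ℕ => ((cfg idxF (fun v k => ξ v k ω) t).dep [] : ℝ≥0∞)) t).trans hB.le
  exact_mod_cast h1

end FT4
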