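import Pool.Agent.helper237_FT4.Stmts
import Pool.Agent.helper237_FT4.Lin

/-!
# FT4: the total mass of the completed and of the unfinished runs is one
-/

set_option autoImplicit false

open scoped ENNReal BigOperators

namespace FT4

namespace mass_aux

theorem tsum_shift (f : ℕ → ℝ≥0∞) :
    ∑' x, (if x = 0 then 0 else f (x - 1)) = ∑' x, f x := by
  rw [tsum_eq_zero_add' ENNReal.summable]
  simp

theorem main (Q : Par) (hQ : Norm Q) (L : ℕ) : ∀ (p : ℕ) (n : CS),
    (∑' x, ∑ n', Mk Q L p n x n') + Ik Q L p n = 1 := by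
  have h0 : ∀ n : CS, ∑' x : ℕ, ∑ n' : CS, (if x = 0 ∧ n' = n then (1 : ℝ≥0∞) else 0) = 1 := by
    intro n
    rw [tsum_eq_single 0]
    · simp
    · intro x hx
      simp [hx]
  induction L with
  | zero =>
    intro p n
    by_cases hp : p = 0
    · subst hp
      simp only [Mk, Ik, true_and, if_true, add_zero]
      exact h0 n
    · simp [Mk, Ik, hp]
  | succ L ih =>
    intro p n
    by_cases hp : p = 0
    · subst hp
      simp only [Mk, Ik, if_true, add_zero]
      exact h0 n
    · have e1 : ∀ x : ℕ, ∑ n' : CS, Mk Q (L + 1) p n x n' =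
          1 / 5 * (if x = 0 then 0 else ∑ n' : CS, Mk Q L (p - 1) n (x - 1) n') +
          1 / 5 * opN Q n (fun y m => ∑ n' : CS, Mk Q L (p - 1 + y) m x n') := by
        intro x
        rw [Lin.opN_sum Finset.univ Q n (fun n' y m => Mk Q L (p - 1 + y) m x n'), Finset.mul_sum]
        simp only [Mk, hp, if_false]
        rw [Finset.sum_add_distrib]
        congr 1
        rw [← Finset.mul_sum]
        congr 1
        split_ifs
        · simp
        · rfl
      have e2 : Ik Q (L + 1) p n = 1 / 5 * Ik Q L (p - 1) n +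
          1 / 5 * opN Q n (fun y m => Ik Q L (p - 1 + y) m) := by
        simp only [Ik, hp, if_false]
      rw [tsum_congr e1, e2, ENNReal.tsum_add, ENNReal.tsum_mul_left, ENNReal.tsum_mul_left,
        tsum_shift (fun x => ∑ n' : CS, Mk Q L (p - 1) n x n'),
        ← Lin.opN_tsum Q n (fun x y m => ∑ n' : CS, Mk Q L (p - 1 + y) m x n')]
      have e3 : opN Q n (fun y m => ∑' x, ∑ n' : CS, Mk Q L (p - 1 + y) m x n') +
          opN Q n (fun y m => Ik Q L (p - 1 + y) m) = 4 := by
        rw [← Lin.opN_add]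
        simp only [ih]
        rw [Lin.opN_const Q hQ, mul_one]
      calc _ = 1 / 5 * ((∑' x, ∑ n' : CS, Mk Q L (p - 1) n x n') + Ik Q L (p - 1) n) +
            1 / 5 * (opN Q n (fun y m => ∑' x, ∑ n' : CS, Mk Q L (p - 1 + y) m x n') +
              opN Q n (fun y m => Ik Q L (p - 1 + y) m)) := by ring
        _ = 1 / 5 * 1 + 1 / 5 * 4 := by rw [ih, e3]
        _ = 1 / 5 + 4 / 5 := by rw [mul_one]; congr 1; rw [one_div, mul_comm, div_eq_mul_inv]
        _ = 1 := Lin.fifth_add

end mass_aux

theorem t_mass (he : S_ey) : S_mass := fun Q hQ L p n => mass_aux.main Q (he.1 Q hQ) L p n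

end FT4
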