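import Pool.Agent.helper237_FT4.Stmts

/-!
# Frog model on the 4-ary tree: replacing the four children by dominating ones (`S_repl`)
-/

set_option autoImplicit false

open MeasureTheory ProbabilityTheory
open scoped ENNReal BigOperators

namespace FT4

namespace repl_aux

/-! ### `opY` and `EY` -/

theorem opY_mono (Q : Par) (h : Fin 3) (F F' : ℕ → Fin 3 → ℝ≥0∞)
    (hF : ∀ y h', F y h' ≤ F' y h') : opY Q h F ≤ opY Q h F' := by
  unfold opY
  split_ifs
  · exact ENNReal.tsum_le_tsum fun y => mul_le_mul' le_rfl (hF y 1)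
  · exact add_le_add (mul_le_mul' le_rfl (hF 1 1))
      (mul_le_mul' le_rfl (ENNReal.tsum_le_tsum fun y => mul_le_mul' le_rfl (hF y 2)))
  · exact add_le_add (mul_le_mul' le_rfl (hF 1 2))
      (mul_le_mul' le_rfl (ENNReal.tsum_le_tsum fun y => mul_le_mul' le_rfl (hF y 2)))

theorem fifth : (1 / 5 : ℝ≥0∞) + 4 / 5 = 1 := by
  rw [ENNReal.div_add_div_same]
  have : (1 : ℝ≥0∞) + 4 = 5 := by norm_num
  rw [this]
  exact ENNReal.div_self (by norm_num) (by norm_num)

theorem opY_const (Q : Par) (hQ : Norm Q) (h : Fin 3) (C : ℝ≥0∞) :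
    opY Q h (fun _ _ => C) = C := by
  unfold opY
  split_ifs
  · rw [ENNReal.tsum_mul_right, hQ, one_mul]
  · rw [ENNReal.tsum_mul_right, hQ, one_mul, ← add_mul, fifth, one_mul]
  · rw [ENNReal.tsum_mul_right, hQ, one_mul, ← add_mul, fifth, one_mul]

theorem EY_mono (Q : Par) : ∀ (k : ℕ) (h : Fin 3) (G G' : List ℕ → ℝ≥0∞),
    (∀ l, G l ≤ G' l) → EY Q k h G ≤ EY Q k h G'
  | 0, _, _, _ => fun hG => hG []
  | k + 1, h, G, G' => fun hG =>
      opY_mono Q h (fun y h' => EY Q k h' (fun l => G (y :: l)))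
        (fun y h' => EY Q k h' (fun l => G' (y :: l)))
        fun y h' => EY_mono Q k h' _ _ fun l => hG (y :: l)

theorem EY_const (Q : Par) (hQ : Norm Q) : ∀ (k : ℕ) (h : Fin 3) (C : ℝ≥0∞),
    EY Q k h (fun _ => C) = C
  | 0, _, _ => rfl
  | k + 1, h, C => by
      have : EY Q (k + 1) h (fun _ => C) =
          opY Q h (fun y h' => EY Q k h' (fun _ => C)) := rfl
      rw [this]
      simp only [EY_const Q hQ k]
      exact opY_const Q hQ h C

theorem EY_le (Q : Par) (hQ : Norm Q) (k : ℕ) (h : Fin 3) (C : ℝ≥0∞) (G : List ℕ → ℝ≥0∞)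
    (hG : ∀ l, G l ≤ C) : EY Q k h G ≤ C :=
  (EY_mono Q k h G (fun _ => C) hG).trans (EY_const Q hQ k h C).le

/-! ### `exits` looks at finitely many coordinates -/

theorem cntc_le (c : Fin 4) (r : List Rt) (u : ℕ) : cntc c r u ≤ r.length := by
  unfold cntc
  exact (List.count_le_length).trans (by simp)

theorem exits_congr (r : List Rt) (p : ℕ) (g g' : Fin 4 → ℕ → ℕ)
    (h : ∀ c k, k ≤ r.length → g c k = g' c k) : exits r p g = exits r p g' := by
  have ht : tot r p g = tot r p g' := by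
    funext u
    unfold tot
    congr 1
    exact Finset.sum_congr rfl fun c _ => h c _ (cntc_le c r u)
  unfold exits dep
  congr 1
  congr 1
  funext u
  rw [ht]

/-! ### truncation to the coordinates `≤ L` -/

def ext (L : ℕ) (a : Fin (L + 1) → ℕ) (k : ℕ) : ℕ := a ⟨min k L, by omega⟩

def trc (L : ℕ) (F : ℕ → ℕ) : Fin (L + 1) → ℕ := fun i => F i

theorem ext_trc (L : ℕ) (F : ℕ → ℕ) (k : ℕ) (hk : k ≤ L) : ext L (trc L F) k = F k := by
  unfold ext trc
  simp [min_eq_left hk]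

/-! ### measurability -/

theorem fv_meas {Ω : Type} [MeasurableSpace Ω] (ξ : Vx → ℕ → Ω → Al) (L n : ℕ) :
    ∀ w : Vx, (∀ u k, Measurable (ξ (u ++ w) k)) → ∀ E,
      Measurable (fun ω => fv L (fun v k => ξ v k ω) n w E) := by
  induction n with
  | zero =>
    intro w _ E
    simp only [fv]
    exact measurable_const
  | succ n ih =>
    intro w hw E
    have h1 : ∀ (c : Fin 4) (k : ℕ),
        Measurable (fun ω => fv L (fun v k => ξ v k ω) n (c :: w) k) := by
      intro c k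
      refine ih (c :: w) (fun u k => ?_) k
      have := hw (u ++ [c]) k
      simpa using this
    have h2 : Measurable (fun ω => (fun j : Fin L => ξ w j ω,
        fun (c : Fin 4) => trc L (fv L (fun v k => ξ v k ω) n (c :: w)))) := by
      refine Measurable.prodMk ?_ ?_
      · exact measurable_pi_lambda _ fun j => by simpa using hw [] j
      · exact measurable_pi_lambda _ fun c => measurable_pi_lambda _ fun k => h1 c k
    have h3 : (fun ω => fv L (fun v k => ξ v k ω) (n + 1) w E) =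
        (fun q : (Fin L → Al) × (Fin 4 → Fin (L + 1) → ℕ) =>
          exits ((List.ofFn q.1).map route) (pen E) (fun c => ext L (q.2 c))) ∘
        (fun ω => (fun j : Fin L => ξ w j ω,
          fun (c : Fin 4) => trc L (fv L (fun v k => ξ v k ω) n (c :: w)))) := by
      funext ω
      simp only [fv, Function.comp, row]
      refine exits_congr _ _ _ _ fun c k hk => ?_
      rw [ext_trc]
      simpa using hk
    rw [h3]
    exact (Measurable.of_discrete).comp h2

/-! ### integration of a function of two independent discrete variables -/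

theorem lint_indep {Ω A B : Type} [MeasurableSpace Ω] [MeasurableSpace A] [MeasurableSpace B]
    [Countable A] [Countable B] [MeasurableSingletonClass A] [MeasurableSingletonClass B]
    (P : Measure Ω) [IsProbabilityMeasure P] (X : Ω → A) (Y : Ω → B) (hX : Measurable X)
    (hY : Measurable Y) (h : IndepFun X Y P) (Φ : B → A → ℝ≥0∞) :
    ∫⁻ ω, Φ (Y ω) (X ω) ∂P = ∫⁻ ω, ∫⁻ ω', Φ (Y ω) (X ω') ∂P ∂P := by
  have hm : Measurable (fun p : B × A => Φ p.1 p.2) := Measurable.of_discrete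
  have e1 : ∫⁻ ω, Φ (Y ω) (X ω) ∂P =
      ∫⁻ p : B × A, Φ p.1 p.2 ∂(P.map (fun ω => (Y ω, X ω))) := by
    rw [lintegral_map hm (hY.prodMk hX)]
  have e2 := (indepFun_iff_map_prod_eq_prod_map_map hY.aemeasurable hX.aemeasurable).1 h.symm
  have : SFinite (P.map X) := inferInstance
  rw [e1, e2, lintegral_prod _ hm.aemeasurable]
  rw [lintegral_map (Measurable.of_discrete) hY]
  refine lintegral_congr fun ω => ?_
  rw [lintegral_map (Measurable.of_discrete) hX]

/-! ### independence of one child from the row and the other children -/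

/-- the truncated response of the child `c` -/
def X {Ω : Type} (ξ : Vx → ℕ → Ω → Al) (L n : ℕ) (v : Vx) (c : Fin 4) (ω : Ω) :
    Fin (L + 1) → ℕ := trc L (fv L (fun v k => ξ v k ω) n (c :: v))

/-- the row and the truncated responses of the children other than `c` -/
def Y {Ω : Type} (ξ : Vx → ℕ → Ω → Al) (L n : ℕ) (v : Vx) (c : Fin 4) (ω : Ω) :
    (Fin L → Al) × (Fin 4 → Fin (L + 1) → ℕ) :=
  (fun j => ξ v j ω, fun d => if d = c then fun _ => 0 else X ξ L n v d ω)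

theorem X_meas {Ω : Type} [MeasurableSpace Ω] (ξ : Vx → ℕ → Ω → Al) (L n : ℕ) (v : Vx)
    (c : Fin 4) (h : ∀ u k, Measurable (ξ (u ++ (c :: v)) k)) : Measurable (X ξ L n v c) :=
  measurable_pi_lambda _ fun k => fv_meas ξ L n (c :: v) h k

theorem Y_meas {Ω : Type} [MeasurableSpace Ω] (ξ : Vx → ℕ → Ω → Al) (L n : ℕ) (v : Vx)
    (c : Fin 4) (h0 : ∀ k, Measurable (ξ v k))
    (h : ∀ d, d ≠ c → ∀ u k, Measurable (ξ (u ++ (d :: v)) k)) : Measurable (Y ξ L n v c) := by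
  refine Measurable.prodMk ?_ ?_
  · exact measurable_pi_lambda _ fun j => h0 j
  · refine measurable_pi_lambda _ fun d => ?_
    by_cases hd : d = c
    · simp only [hd, if_true]
      exact measurable_const
    · simp only [hd, if_false]
      exact X_meas ξ L n v d (h d hd)

theorem XY_indep {Ω : Type} [m0 : MeasurableSpace Ω] (P : Measure Ω) [IsProbabilityMeasure P]
    (ξ : Vx → ℕ → Ω → Al) (hξ : IID P ξ) (L n : ℕ) (v : Vx) (c : Fin 4) :
    IndepFun (X ξ L n v c) (Y ξ L n v c) P := by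
  obtain ⟨hm, hi, -⟩ := hξ
  let m : Vx × ℕ → MeasurableSpace Ω := fun i => MeasurableSpace.comap (ξ i.1 i.2) inferInstance
  have hle : ∀ i, m i ≤ m0 := fun i => (hm i.1 i.2).comap_le
  have hi' : iIndep m P := hi
  let S : Set (Vx × ℕ) := {i | (c :: v) <:+ i.1}
  have hST : Disjoint S Sᶜ := disjoint_compl_right
  have hind := indep_iSup_of_disjoint hle hi' hST
  have hS : ∀ i ∈ S, Measurable[⨆ i ∈ S, m i] (ξ i.1 i.2) := by
    intro i hiS
    refine Measurable.mono (comap_measurable (ξ i.1 i.2)) ?_ le_rfl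
    exact le_iSup₂_of_le i hiS le_rfl
  have hT : ∀ i ∈ Sᶜ, Measurable[⨆ i ∈ Sᶜ, m i] (ξ i.1 i.2) := by
    intro i hiS
    refine Measurable.mono (comap_measurable (ξ i.1 i.2)) ?_ le_rfl
    exact le_iSup₂_of_le i hiS le_rfl
  have hX : Measurable[⨆ i ∈ S, m i] (X ξ L n v c) := by
    refine @X_meas Ω (⨆ i ∈ S, m i) ξ L n v c fun u k => ?_
    exact hS (u ++ (c :: v), k) (List.suffix_append u (c :: v))
  have hY : Measurable[⨆ i ∈ Sᶜ, m i] (Y ξ L n v c) := by
    refine @Y_meas Ω (⨆ i ∈ Sᶜ, m i) ξ L n v c (fun k => ?_) fun d hd u k => ?_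
    · refine hT (v, k) ?_
      intro hs
      have := List.IsSuffix.length_le hs
      simp at this
    · refine hT (u ++ (d :: v), k) ?_
      intro hs
      have h1 : (d :: v) <:+ (u ++ (d :: v)) := List.suffix_append u (d :: v)
      have h2 := List.suffix_of_suffix_length_le hs h1 (by simp)
      have h3 := h2.eq_of_length (by simp)
      simp at h3
      exact hd h3.symm
  rw [IndepFun_iff_Indep]
  exact indep_of_indep_of_le_left (indep_of_indep_of_le_right hind hY.comap_le) hX.comap_le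

/-- replacing one child -/
theorem rep1 (Q : Par) {Ω : Type} [m0 : MeasurableSpace Ω] (P : Measure Ω)
    [IsProbabilityMeasure P] (ξ : Vx → ℕ → Ω → Al) (hξ : IID P ξ) (L n : ℕ) (v : Vx)
    (c : Fin 4) (hD : Dom Q P ξ L n (c :: v))
    (Φ : (Fin L → Al) × (Fin 4 → Fin (L + 1) → ℕ) → (ℕ → ℕ) → ℝ≥0∞) (C : ℝ≥0∞) (hC : C ≠ ⊤)
    (h1 : ∀ b, Monotone (Φ b)) (h2 : ∀ b F, Φ b F ≤ C) (h3 : ∀ b, DepOn L (Φ b)) :
    ∫⁻ ω, Φ (Y ξ L n v c ω) (fv L (fun v k => ξ v k ω) n (c :: v)) ∂P ≤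
      ∫⁻ ω, EY Q L 0 (fun l => Φ (Y ξ L n v c ω) (cum l)) ∂P := by
  have e : ∀ b ω, Φ b (fv L (fun v k => ξ v k ω) n (c :: v)) = Φ b (ext L (X ξ L n v c ω)) := by
    intro b ω
    refine h3 b _ _ fun j hj => ?_
    rw [X, ext_trc L _ j hj]
  have hXm : Measurable (X ξ L n v c) := X_meas ξ L n v c fun u k => hξ.1 _ _
  have hYm : Measurable (Y ξ L n v c) :=
    Y_meas ξ L n v c (fun k => hξ.1 _ _) fun d _ u k => hξ.1 _ _
  calc ∫⁻ ω, Φ (Y ξ L n v c ω) (fv L (fun v k => ξ v k ω) n (c :: v)) ∂P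
      = ∫⁻ ω, (fun b a => Φ b (ext L a)) (Y ξ L n v c ω) (X ξ L n v c ω) ∂P :=
        lintegral_congr fun ω => e _ ω
    _ = ∫⁻ ω, ∫⁻ ω', (fun b a => Φ b (ext L a)) (Y ξ L n v c ω) (X ξ L n v c ω') ∂P ∂P :=
        lint_indep P _ _ hXm hYm (XY_indep P ξ hξ L n v c) (fun b a => Φ b (ext L a))
    _ = ∫⁻ ω, ∫⁻ ω', Φ (Y ξ L n v c ω) (fv L (fun v k => ξ v k ω') n (c :: v)) ∂P ∂P :=
        lintegral_congr fun ω => lintegral_congr fun ω' => (e _ ω').symm
    _ ≤ _ := lintegral_mono fun ω => hD _ C hC (h1 _) (h2 _) (h3 _)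

end repl_aux

open repl_aux in
theorem t_repl : S_repl := by
  intro Q hQ Ω _ P _ ξ hξ L n v hD G C hC hmono hbd hdep
  -- the row as a function of `Y`
  have hrow : ∀ (c : Fin 4) (ω : Ω), List.ofFn (Y ξ L n v c ω).1 = row L (fun v k => ξ v k ω) v :=
    fun _ _ => rfl
  have hY2 : ∀ (c d : Fin 4) (ω : Ω), d ≠ c →
      ∀ k, k ≤ L → ext L ((Y ξ L n v c ω).2 d) k = fv L (fun v k => ξ v k ω) n (d :: v) k := by
    intro c d ω hd k hk
    simp only [Y, hd, if_false]
    rw [X, ext_trc L _ k hk]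
  let D : List Al → (ℕ → ℕ) → (ℕ → ℕ) → (ℕ → ℕ) → (ℕ → ℕ) → ℝ≥0∞ :=
    fun r g0 g1 g2 g3 => G r ![g0, g1, g2, g3]
  have Dmono : ∀ r g0 g1 g2 g3 g0' g1' g2' g3', g0 ≤ g0' → g1 ≤ g1' → g2 ≤ g2' → g3 ≤ g3' →
      D r g0 g1 g2 g3 ≤ D r g0' g1' g2' g3' := by
    intro r g0 g1 g2 g3 g0' g1' g2' g3' h0 h1 h2 h3
    refine hmono _ _ _ fun c k => ?_
    fin_cases c
    · exact h0 k
    · exact h1 k
    · exact h2 k
    · exact h3 k
  have Ddep : ∀ r g0 g1 g2 g3 g0' g1' g2' g3', (∀ k, k ≤ L → g0 k = g0' k) →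
      (∀ k, k ≤ L → g1 k = g1' k) → (∀ k, k ≤ L → g2 k = g2' k) → (∀ k, k ≤ L → g3 k = g3' k) →
      D r g0 g1 g2 g3 = D r g0' g1' g2' g3' := by
    intro r g0 g1 g2 g3 g0' g1' g2' g3' h0 h1 h2 h3
    refine hdep _ _ _ fun c k hk => ?_
    fin_cases c
    · exact h0 k hk
    · exact h1 k hk
    · exact h2 k hk
    · exact h3 k hk
  have Dbd : ∀ r g0 g1 g2 g3, D r g0 g1 g2 g3 ≤ C := fun r g0 g1 g2 g3 => hbd _ _
  -- the functionals after the replacement of the last children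
  let D3 : List Al → (ℕ → ℕ) → (ℕ → ℕ) → (ℕ → ℕ) → ℝ≥0∞ :=
    fun r g0 g1 g2 => EY Q L 0 fun y3 => D r g0 g1 g2 (cum y3)
  let D2 : List Al → (ℕ → ℕ) → (ℕ → ℕ) → ℝ≥0∞ :=
    fun r g0 g1 => EY Q L 0 fun y2 => D3 r g0 g1 (cum y2)
  let D1 : List Al → (ℕ → ℕ) → ℝ≥0∞ :=
    fun r g0 => EY Q L 0 fun y1 => D2 r g0 (cum y1)
  let f : Fin 4 → Ω → ℕ → ℕ := fun c ω => fv L (fun v k => ξ v k ω) n (c :: v)
  let R : Ω → List Al := fun ω => row L (fun v k => ξ v k ω) v
  have s3 : ∫⁻ ω, D (R ω) (f 0 ω) (f 1 ω) (f 2 ω) (f 3 ω) ∂P ≤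
      ∫⁻ ω, D3 (R ω) (f 0 ω) (f 1 ω) (f 2 ω) ∂P := by
    have := rep1 Q P ξ hξ L n v 3 (hD 3)
      (fun b F => D (List.ofFn b.1) (ext L (b.2 0)) (ext L (b.2 1)) (ext L (b.2 2)) F) C hC
      (fun b F F' hF => Dmono _ _ _ _ _ _ _ _ _ le_rfl le_rfl le_rfl hF)
      (fun b F => Dbd _ _ _ _ _)
      (fun b F F' hF => Ddep _ _ _ _ _ _ _ _ _ (fun _ _ => rfl) (fun _ _ => rfl)
        (fun _ _ => rfl) hF)
    refine le_trans (le_of_eq (lintegral_congr fun ω => ?_)) (this.trans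
      (le_of_eq (lintegral_congr fun ω => ?_)))
    · exact Ddep _ _ _ _ _ _ _ _ _ (fun k hk => (hY2 3 0 ω (by decide) k hk).symm)
        (fun k hk => (hY2 3 1 ω (by decide) k hk).symm)
        (fun k hk => (hY2 3 2 ω (by decide) k hk).symm) (fun _ _ => rfl)
    · show EY Q L 0 _ = EY Q L 0 _
      congr 1
      funext l
      exact Ddep _ _ _ _ _ _ _ _ _ (fun k hk => (hY2 3 0 ω (by decide) k hk))
        (fun k hk => (hY2 3 1 ω (by decide) k hk))
        (fun k hk => (hY2 3 2 ω (by decide) k hk)) (fun _ _ => rfl)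
  have s2 : ∫⁻ ω, D3 (R ω) (f 0 ω) (f 1 ω) (f 2 ω) ∂P ≤ ∫⁻ ω, D2 (R ω) (f 0 ω) (f 1 ω) ∂P := by
    have := rep1 Q P ξ hξ L n v 2 (hD 2)
      (fun b F => D3 (List.ofFn b.1) (ext L (b.2 0)) (ext L (b.2 1)) F) C hC
      (fun b F F' hF => EY_mono _ _ _ _ _ fun l =>
        Dmono _ _ _ _ _ _ _ _ _ le_rfl le_rfl hF le_rfl)
      (fun b F => EY_le Q hQ _ _ _ _ fun l => Dbd _ _ _ _ _)
      (fun b F F' hF => by
        show EY Q L 0 _ = EY Q L 0 _
        congr 1
        funext l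
        exact Ddep _ _ _ _ _ _ _ _ _ (fun _ _ => rfl) (fun _ _ => rfl) hF
          (fun _ _ => rfl))
    refine le_trans (le_of_eq (lintegral_congr fun ω => ?_)) (this.trans
      (le_of_eq (lintegral_congr fun ω => ?_)))
    · show EY Q L 0 _ = EY Q L 0 _
      congr 1
      funext l
      exact Ddep _ _ _ _ _ _ _ _ _ (fun k hk => (hY2 2 0 ω (by decide) k hk).symm)
        (fun k hk => (hY2 2 1 ω (by decide) k hk).symm) (fun _ _ => rfl) (fun _ _ => rfl)
    · show EY Q L 0 _ = EY Q L 0 _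
      congr 1
      funext l2
      show EY Q L 0 _ = EY Q L 0 _
      congr 1
      funext l3
      exact Ddep _ _ _ _ _ _ _ _ _ (fun k hk => (hY2 2 0 ω (by decide) k hk))
        (fun k hk => (hY2 2 1 ω (by decide) k hk)) (fun _ _ => rfl) (fun _ _ => rfl)
  have s1 : ∫⁻ ω, D2 (R ω) (f 0 ω) (f 1 ω) ∂P ≤ ∫⁻ ω, D1 (R ω) (f 0 ω) ∂P := by
    have := rep1 Q P ξ hξ L n v 1 (hD 1)
      (fun b F => D2 (List.ofFn b.1) (ext L (b.2 0)) F) C hC
      (fun b F F' hF => EY_mono _ _ _ _ _ fun l => EY_mono _ _ _ _ _ fun l =>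
        Dmono _ _ _ _ _ _ _ _ _ le_rfl hF le_rfl le_rfl)
      (fun b F => EY_le Q hQ _ _ _ _ fun l => EY_le Q hQ _ _ _ _ fun l => Dbd _ _ _ _ _)
      (fun b F F' hF => by
        show EY Q L 0 _ = EY Q L 0 _
        congr 1
        funext l
        show EY Q L 0 _ = EY Q L 0 _
        congr 1
        funext l
        exact Ddep _ _ _ _ _ _ _ _ _ (fun _ _ => rfl) hF (fun _ _ => rfl)
          (fun _ _ => rfl))
    refine le_trans (le_of_eq (lintegral_congr fun ω => ?_)) (this.trans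
      (le_of_eq (lintegral_congr fun ω => ?_)))
    · show EY Q L 0 _ = EY Q L 0 _
      congr 1
      funext l
      show EY Q L 0 _ = EY Q L 0 _
      congr 1
      funext l
      exact Ddep _ _ _ _ _ _ _ _ _ (fun k hk => (hY2 1 0 ω (by decide) k hk).symm)
        (fun _ _ => rfl) (fun _ _ => rfl) (fun _ _ => rfl)
    · show EY Q L 0 _ = EY Q L 0 _
      congr 1
      funext l1
      show EY Q L 0 _ = EY Q L 0 _
      congr 1
      funext l2
      show EY Q L 0 _ = EY Q L 0 _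
      congr 1
      funext l3
      exact Ddep _ _ _ _ _ _ _ _ _ (fun k hk => (hY2 1 0 ω (by decide) k hk))
        (fun _ _ => rfl) (fun _ _ => rfl) (fun _ _ => rfl)
  have s0 : ∫⁻ ω, D1 (R ω) (f 0 ω) ∂P ≤ ∫⁻ ω, EY Q L 0 (fun y0 => D1 (R ω) (cum y0)) ∂P := by
    exact rep1 Q P ξ hξ L n v 0 (hD 0)
      (fun b F => D1 (List.ofFn b.1) F) C hC
      (fun b F F' hF => EY_mono _ _ _ _ _ fun l => EY_mono _ _ _ _ _ fun l =>
        EY_mono _ _ _ _ _ fun l => Dmono _ _ _ _ _ _ _ _ _ hF le_rfl le_rfl le_rfl)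
      (fun b F => EY_le Q hQ _ _ _ _ fun l => EY_le Q hQ _ _ _ _ fun l =>
        EY_le Q hQ _ _ _ _ fun l => Dbd _ _ _ _ _)
      (fun b F F' hF => by
        show EY Q L 0 _ = EY Q L 0 _
        congr 1
        funext l
        show EY Q L 0 _ = EY Q L 0 _
        congr 1
        funext l
        show EY Q L 0 _ = EY Q L 0 _
        congr 1
        funext l
        exact Ddep _ _ _ _ _ _ _ _ _ hF (fun _ _ => rfl) (fun _ _ => rfl)
          (fun _ _ => rfl))
  have efst : ∀ ω, G (R ω) (fun c => f c ω) = D (R ω) (f 0 ω) (f 1 ω) (f 2 ω) (f 3 ω) := by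
    intro ω
    show G _ _ = G _ _
    congr 1
    funext c
    fin_cases c <;> rfl
  have elst : ∀ ω, EY Q L 0 (fun y0 => D1 (R ω) (cum y0)) =
      EY4 Q (fun _ => 0) (fun _ => L) (fun ys => G (R ω) (fun c => cum (ys c))) := by
    intro ω
    unfold EY4
    show EY Q L 0 _ = EY Q L 0 _
    congr 1
    funext y0
    show EY Q L 0 _ = EY Q L 0 _
    congr 1
    funext y1
    show EY Q L 0 _ = EY Q L 0 _
    congr 1
    funext y2
    show EY Q L 0 _ = EY Q L 0 _
    congr 1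
    funext y3
    show G _ _ = G _ _
    congr 1
    funext c
    fin_cases c <;> rfl
  calc ∫⁻ ω, G (R ω) (fun c => f c ω) ∂P
      = ∫⁻ ω, D (R ω) (f 0 ω) (f 1 ω) (f 2 ω) (f 3 ω) ∂P := lintegral_congr efst
    _ ≤ ∫⁻ ω, EY Q L 0 (fun y0 => D1 (R ω) (cum y0)) ∂P := s3.trans (s2.trans (s1.trans s0))
    _ = _ := lintegral_congr elst

end FT4
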