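import Pool.Agent.helper237_FT4.Stmts
import Pool.Agent.helper237_FT4.T_ey

/-!
# FT4: expected number of departures from the root (helper182)
-/

set_option autoImplicit false

open MeasureTheory ProbabilityTheory
open scoped ENNReal BigOperators

namespace FT4

namespace root_aux

theorem row_length (L : ℕ) (η : Vx → ℕ → Al) (v : Vx) : (row L η v).length = L := by
  simp [row]

theorem row_take (L : ℕ) (η : Vx → ℕ → Al) (v : Vx) : (row L η v).take L = row L η v :=
  List.take_of_length_le (by rw [row_length])

end root_aux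

theorem t_root (hp : S_path) (hr : S_repl) (hrow : S_row) (hd : S_dom) (hE : S_rootE) :
    S_root := by
  intro Q hQ Ω _ P _ ξ hξ L
  have hN : Norm Q := ey_aux.norm hQ
  have h1 := hr Q hN Ω P ξ hξ L L [] (fun c => hd Q hQ Ω P ξ hξ L L [c])
    (fun r g => (dep ((r.take L).map routeR) 1 g : ℝ≥0∞)) (L : ℝ≥0∞) (ENNReal.natCast_ne_top L)
    (fun r g g' h => Nat.cast_le.2 (hp.1 _ _ _ g g' le_rfl h).1)
    (fun r g => Nat.cast_le.2 (((hp.2.2.2.2.1 _ _ g).1).trans (by
      rw [List.length_map]
      exact List.length_take_le _ _)))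
    (fun r g g' h => by
      congr 1
      refine (hp.2.2.2.2.2 _ _ g g' (fun c j hj => h c j (hj.trans ?_))).1
      rw [List.length_map]
      exact List.length_take_le _ _)
  simp only [root_aux.row_take] at h1
  refine le_trans (le_of_eq ?_) (h1.trans ?_)
  · rfl
  · rw [(hrow Ω P ξ hξ L [] (fun r => EY4 Q (fun _ => 0) (fun _ => L)
        (fun ys => (dep r 1 (fun c => cum (ys c)) : ℝ≥0∞)))).2]
    exact hE Q hQ L (fun _ => L) (fun _ => le_rfl)

end FT4
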