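import Pool.Agent.helper237_FT4.Stmts

/-!
# FT4: `S_rootE` (helper27), and commutation of the nested expectations
-/

set_option autoImplicit false

open MeasureTheory ProbabilityTheory
open scoped ENNReal BigOperators

namespace FT4

namespace rootE_aux

/-- a positive linear functional given by weights -/
def IsOp {α : Type} (Φ : (α → ℝ≥0∞) → ℝ≥0∞) : Prop :=
  ∃ w : α → ℝ≥0∞, ∀ G, Φ G = ∑' a, w a * G a

theorem IsOp.comm {α β : Type} {Φ : (α → ℝ≥0∞) → ℝ≥0∞} {Ψ : (β → ℝ≥0∞) → ℝ≥0∞}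
    (hΦ : IsOp Φ) (hΨ : IsOp Ψ) (F : α → β → ℝ≥0∞) :
    Φ (fun a => Ψ (fun b => F a b)) = Ψ (fun b => Φ (fun a => F a b)) := by
  obtain ⟨w, hw⟩ := hΦ
  obtain ⟨v, hv⟩ := hΨ
  simp only [hw, hv, ← ENNReal.tsum_mul_left]
  rw [ENNReal.tsum_comm]
  simp only [mul_left_comm]

theorem IsOp.add {α : Type} {Φ : (α → ℝ≥0∞) → ℝ≥0∞} (hΦ : IsOp Φ) (F G : α → ℝ≥0∞) :
    Φ (fun a => F a + G a) = Φ F + Φ G := by
  obtain ⟨w, hw⟩ := hΦ
  simp only [hw, mul_add, ENNReal.tsum_add]

theorem IsOp.smul {α : Type} {Φ : (α → ℝ≥0∞) → ℝ≥0∞} (hΦ : IsOp Φ) (c : ℝ≥0∞) (F : α → ℝ≥0∞) :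
    Φ (fun a => c * F a) = c * Φ F := by
  obtain ⟨w, hw⟩ := hΦ
  simp only [hw, ← ENNReal.tsum_mul_left, mul_left_comm]

theorem IsOp.zero {α : Type} {Φ : (α → ℝ≥0∞) → ℝ≥0∞} (hΦ : IsOp Φ) :
    Φ (fun _ => 0) = 0 := by
  obtain ⟨w, hw⟩ := hΦ
  simp [hw]

theorem IsOp.mono {α : Type} {Φ : (α → ℝ≥0∞) → ℝ≥0∞} (hΦ : IsOp Φ) {F G : α → ℝ≥0∞}
    (h : ∀ a, F a ≤ G a) : Φ F ≤ Φ G := by
  obtain ⟨w, hw⟩ := hΦ
  rw [hw, hw]
  exact ENNReal.tsum_le_tsum fun a => by gcongr; exact h a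

theorem IsOp.bind {α β γ : Type} {Φ : (α → ℝ≥0∞) → ℝ≥0∞} (hΦ : IsOp Φ)
    {Ψ : α → (β → ℝ≥0∞) → ℝ≥0∞} (hΨ : ∀ a, IsOp (Ψ a)) (f : α → β → γ) :
    IsOp (fun G : γ → ℝ≥0∞ => Φ (fun a => Ψ a (fun b => G (f a b)))) := by
  classical
  obtain ⟨w, hw⟩ := hΦ
  choose v hv using hΨ
  refine ⟨fun c => ∑' a, ∑' b, if f a b = c then w a * v a b else 0, fun G => ?_⟩
  simp only [hw, hv, ← ENNReal.tsum_mul_left, ← ENNReal.tsum_mul_right]
  symm
  rw [ENNReal.tsum_comm]
  refine tsum_congr fun a => ?_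
  rw [ENNReal.tsum_comm]
  refine tsum_congr fun b => ?_
  rw [tsum_eq_single (f a b)]
  · simp [mul_assoc]
  · intro c hc
    rw [if_neg (fun h => hc h.symm)]
    simp

theorem isOp_pure {α : Type} (a : α) : IsOp (fun G : α → ℝ≥0∞ => G a) := by
  classical
  refine ⟨fun x => if x = a then 1 else 0, fun G => ?_⟩
  rw [tsum_eq_single a]
  · simp
  · intro b hb
    simp [hb]

theorem isOp_map {α β : Type} {Φ : (α → ℝ≥0∞) → ℝ≥0∞} (hΦ : IsOp Φ) (f : α → β) :
    IsOp (fun G : β → ℝ≥0∞ => Φ (fun a => G (f a))) :=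
  hΦ.bind (Ψ := fun a G => G (f a)) (fun a => isOp_pure (f a)) (fun _ b => b)

theorem isOp_add {α : Type} {Φ Ψ : (α → ℝ≥0∞) → ℝ≥0∞} (hΦ : IsOp Φ) (hΨ : IsOp Ψ) :
    IsOp (fun G => Φ G + Ψ G) := by
  obtain ⟨w, hw⟩ := hΦ
  obtain ⟨v, hv⟩ := hΨ
  refine ⟨fun a => w a + v a, fun G => ?_⟩
  simp only [hw, hv, add_mul, ENNReal.tsum_add]

theorem isOp_smul {α : Type} {Φ : (α → ℝ≥0∞) → ℝ≥0∞} (c : ℝ≥0∞) (hΦ : IsOp Φ) :
    IsOp (fun G => c * Φ G) := by
  obtain ⟨w, hw⟩ := hΦ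
  refine ⟨fun a => c * w a, fun G => ?_⟩
  simp only [hw, ← ENNReal.tsum_mul_left, mul_assoc]

theorem isOp_sum {α ι : Type} (s : Finset ι) {Φ : ι → (α → ℝ≥0∞) → ℝ≥0∞}
    (hΦ : ∀ i, IsOp (Φ i)) : IsOp (fun G => ∑ i ∈ s, Φ i G) := by
  choose w hw using hΦ
  refine ⟨fun a => ∑ i ∈ s, w i a, fun G => ?_⟩
  simp only [hw, Finset.sum_mul]
  rw [Summable.tsum_finsetSum (fun _ _ => ENNReal.summable)]

theorem isOp_tsum {α : Type} (w : α → ℝ≥0∞) : IsOp (fun G => ∑' a, w a * G a) := ⟨w, fun _ => rfl⟩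

/-- `opY` on uncurried functions -/
noncomputable def opY' (Q : Par) (h : Fin 3) (F : ℕ × Fin 3 → ℝ≥0∞) : ℝ≥0∞ := opY Q h (fun y h' => F (y, h'))

theorem isOp_opY (Q : Par) (h : Fin 3) : IsOp (opY' Q h) := by
  unfold opY' opY
  by_cases h0 : h = 0
  · simp only [if_pos h0]
    exact isOp_map (isOp_tsum (Q.q 0)) (fun y => (y, (1 : Fin 3)))
  · simp only [if_neg h0]
    by_cases h1 : h = 1
    · simp only [if_pos h1]
      exact isOp_add (isOp_smul _ (isOp_pure _))
        (isOp_smul _ (isOp_map (isOp_tsum (Q.q 1)) (fun y => (y, (2 : Fin 3)))))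
    · simp only [if_neg h1]
      exact isOp_add (isOp_smul _ (isOp_pure _))
        (isOp_smul _ (isOp_map (isOp_tsum (Q.q 2)) (fun y => (y, (2 : Fin 3)))))

theorem isOp_EY (Q : Par) : ∀ (k : ℕ) (h : Fin 3), IsOp (EY Q k h)
  | 0, _ => isOp_pure []
  | k + 1, h =>
    (isOp_opY Q h).bind (Ψ := fun a => EY Q k a.2) (fun a => isOp_EY Q k a.2)
      (fun a l => a.1 :: l)

theorem isOp_ER : ∀ L : ℕ, IsOp (ER L)
  | 0 => isOp_pure []
  | L + 1 => isOp_sum _ fun c => isOp_smul _ (isOp_map (isOp_ER L) (fun r => some c :: r))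

theorem isOp_EA : ∀ L : ℕ, IsOp (EA L)
  | 0 => isOp_pure []
  | L + 1 => isOp_sum _ fun o => isOp_smul _ (isOp_map (isOp_EA L) (fun r => o :: r))

theorem isOp_EY4 (Q : Par) (s : Fin 4 → Fin 3) (hor : Fin 4 → ℕ) : IsOp (EY4 Q s hor) := by
  have h3 : ∀ y0 y1 y2 : List ℕ, IsOp (fun G : (Fin 4 → List ℕ) → ℝ≥0∞ =>
      EY Q (hor 3) (s 3) fun y3 => G ![y0, y1, y2, y3]) := fun y0 y1 y2 =>
    isOp_map (isOp_EY Q _ _) (fun y3 => ![y0, y1, y2, y3])
  have h2 : ∀ y0 y1 : List ℕ, IsOp (fun G : (Fin 4 → List ℕ) → ℝ≥0∞ =>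
      EY Q (hor 2) (s 2) fun y2 => EY Q (hor 3) (s 3) fun y3 => G ![y0, y1, y2, y3]) :=
    fun y0 y1 => (isOp_EY Q _ _).bind (h3 y0 y1) (fun _ b => b)
  have h1 : ∀ y0 : List ℕ, IsOp (fun G : (Fin 4 → List ℕ) → ℝ≥0∞ =>
      EY Q (hor 1) (s 1) fun y1 =>
      EY Q (hor 2) (s 2) fun y2 => EY Q (hor 3) (s 3) fun y3 => G ![y0, y1, y2, y3]) :=
    fun y0 => (isOp_EY Q _ _).bind (h2 y0) (fun _ b => b)
  exact (isOp_EY Q _ _).bind h1 (fun _ b => b)

/-- one more entry of a dominating child -/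
theorem EY_succ (Q : Par) (k : ℕ) (h : Fin 3) (G : List ℕ → ℝ≥0∞) :
    EY Q (k + 1) h G = opY Q h (fun y h' => EY Q k h' (fun l => G (y :: l))) := rfl

/-- `opY` commutes with a linear functional -/
theorem opY_comm {α : Type} {Φ : (α → ℝ≥0∞) → ℝ≥0∞} (hΦ : IsOp Φ) (Q : Par) (h : Fin 3)
    (F : α → ℕ → Fin 3 → ℝ≥0∞) :
    Φ (fun a => opY Q h (fun y h' => F a y h')) = opY Q h (fun y h' => Φ (fun a => F a y h')) :=
  hΦ.comm (isOp_opY Q h) (fun a b => F a b.1 b.2)

/-- pull out the next entry of child `c` -/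
theorem EY4_pull (Q : Par) (s : Fin 4 → Fin 3) (hor : Fin 4 → ℕ)
    (G : (Fin 4 → List ℕ) → ℝ≥0∞) (c : Fin 4) (hc : hor c ≠ 0) :
    EY4 Q s hor G = opY Q (s c) (fun y h =>
      EY4 Q (Function.update s c h) (Function.update hor c (hor c - 1))
        (fun ys => G (Function.update ys c (y :: ys c)))) := by
  obtain ⟨k, hk⟩ := Nat.exists_eq_succ_of_ne_zero hc
  have hu0 : ∀ (a b d e f : List ℕ), Function.update ![a, b, d, e] 0 f = ![f, b, d, e] := by
    intros; ext i; fin_cases i <;> simp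
  have hu1 : ∀ (a b d e f : List ℕ), Function.update ![a, b, d, e] 1 f = ![a, f, d, e] := by
    intros; ext i; fin_cases i <;> simp
  have hu2 : ∀ (a b d e f : List ℕ), Function.update ![a, b, d, e] 2 f = ![a, b, f, e] := by
    intros; ext i; fin_cases i <;> simp
  have hu3 : ∀ (a b d e f : List ℕ), Function.update ![a, b, d, e] 3 f = ![a, b, d, f] := by
    intros; ext i; fin_cases i <;> simp
  unfold EY4
  fin_cases c
  · simp only [Fin.zero_eta] at hk ⊢
    simp only [hk, Nat.succ_eq_add_one, Nat.add_sub_cancel, Function.update_self, hu0,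
      Function.update_of_ne (show (1 : Fin 4) ≠ 0 by decide),
      Function.update_of_ne (show (2 : Fin 4) ≠ 0 by decide),
      Function.update_of_ne (show (3 : Fin 4) ≠ 0 by decide), EY_succ]
    rfl
  · simp only [Fin.mk_one] at hk ⊢
    simp only [hk, Nat.succ_eq_add_one, Nat.add_sub_cancel, Function.update_self, hu1,
      Function.update_of_ne (show (0 : Fin 4) ≠ 1 by decide),
      Function.update_of_ne (show (2 : Fin 4) ≠ 1 by decide),
      Function.update_of_ne (show (3 : Fin 4) ≠ 1 by decide), EY_succ]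
    rw [← opY_comm (isOp_EY Q _ _)]
    rfl
  · simp only [Fin.reduceFinMk] at hk ⊢
    simp only [hk, Nat.succ_eq_add_one, Nat.add_sub_cancel, Function.update_self, hu2,
      Function.update_of_ne (show (0 : Fin 4) ≠ 2 by decide),
      Function.update_of_ne (show (1 : Fin 4) ≠ 2 by decide),
      Function.update_of_ne (show (3 : Fin 4) ≠ 2 by decide), EY_succ]
    rw [← opY_comm (isOp_EY Q _ _)]
    congr 1; funext y0
    rw [← opY_comm (isOp_EY Q _ _)]
    rfl
  · simp only [Fin.reduceFinMk] at hk ⊢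
    simp only [hk, Nat.succ_eq_add_one, Nat.add_sub_cancel, Function.update_self, hu3,
      Function.update_of_ne (show (0 : Fin 4) ≠ 3 by decide),
      Function.update_of_ne (show (1 : Fin 4) ≠ 3 by decide),
      Function.update_of_ne (show (2 : Fin 4) ≠ 3 by decide), EY_succ]
    rw [← opY_comm (isOp_EY Q _ _)]
    congr 1; funext y0
    rw [← opY_comm (isOp_EY Q _ _)]
    congr 1; funext y1
    rw [← opY_comm (isOp_EY Q _ _)]
    rfl

theorem tail_sum : ∑' j : ℕ, (1 / 2 : ℝ≥0∞) ^ (j + 1) * ((6 + j : ℕ) : ℝ≥0∞) = 7 := by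
  have h1 : HasSum (fun j : ℕ => ((1 : ℝ) / 2) ^ j) 2 := hasSum_geometric_two
  have h2 : HasSum (fun j : ℕ => (j : ℝ) * ((1 : ℝ) / 2) ^ j) 2 := by
    have := hasSum_coe_mul_geometric_of_norm_lt_one (𝕜 := ℝ) (r := (1 : ℝ) / 2) (by norm_num)
    have e : (1 : ℝ) / 2 / (1 - 1 / 2) ^ 2 = 2 := by norm_num
    rwa [e] at this
  have h3 : HasSum (fun j : ℕ => ((1 : ℝ) / 2) ^ (j + 1) * ((6 + j : ℕ) : ℝ)) 7 := by
    have h := (h1.mul_left 3).add (h2.mul_left (1 / 2))
    have e : (3 : ℝ) * 2 + 1 / 2 * 2 = 7 := by norm_num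
    rw [e] at h
    have e' : (fun j : ℕ => ((1 : ℝ) / 2) ^ (j + 1) * ((6 + j : ℕ) : ℝ)) =
        fun j : ℕ => 3 * ((1 : ℝ) / 2) ^ j + 1 / 2 * ((j : ℝ) * ((1 : ℝ) / 2) ^ j) := by
      funext j
      push_cast
      ring
    rw [e']
    exact h
  have h4 : ∀ j : ℕ, (1 / 2 : ℝ≥0∞) ^ (j + 1) * ((6 + j : ℕ) : ℝ≥0∞) =
      ENNReal.ofReal (((1 : ℝ) / 2) ^ (j + 1) * ((6 + j : ℕ) : ℝ)) := by
    intro j
    rw [ENNReal.ofReal_mul (by positivity), ENNReal.ofReal_natCast, ENNReal.ofReal_pow (by norm_num)]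
    congr 2
    rw [ENNReal.ofReal_div_of_pos (by norm_num)]
    simp
  rw [tsum_congr h4, ← ENNReal.ofReal_tsum_of_nonneg (fun j => by positivity) h3.summable,
    h3.tsum_eq]
  simp

theorem q_mean {Q : Par} (K : Cert Q) (h : Fin 3) :
    ∑' y, Q.q h y * (y : ℝ≥0∞) =
      ∑ z ∈ Finset.range 6, (z : ℝ≥0∞) * K.T h z + 7 * K.T h 6 := by
  have hs := (ENNReal.summable (f := fun n => Q.q h (n + 6) *
    ((n + 6 : ℕ) : ℝ≥0∞))).sum_add_tsum_nat_add' (f := fun y => Q.q h y * (y : ℝ≥0∞)) (k := 6)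
  rw [← hs]
  congr 1
  · refine Finset.sum_congr rfl fun y hy => ?_
    rw [K.q_lt h y (Finset.mem_range.mp hy), mul_comm]
  · have : ∀ j : ℕ, Q.q h (j + 6) * ((j + 6 : ℕ) : ℝ≥0∞) =
        K.T h 6 * ((1 / 2) ^ (j + 1) * ((6 + j : ℕ) : ℝ≥0∞)) := by
      intro j
      rw [add_comm j 6, K.q_ge h j, mul_assoc]
    rw [tsum_congr this, ENNReal.tsum_mul_left, tail_sum, mul_comm]

theorem mean_le {Q : Par} (K : Cert Q) (h : Fin 3) :
    opY Q h (fun y _ => (y : ℝ≥0∞)) ≤ 24 / 25 := by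
  unfold opY
  by_cases h0 : h = 0
  · rw [if_pos h0, q_mean K 0]
    exact K.mean0
  · rw [if_neg h0]
    by_cases h1 : h = 1
    · rw [if_pos h1, q_mean K 1]
      simpa using K.mean1
    · rw [if_neg h1, q_mean K 2]
      simpa using K.mean2

theorem EY4_const (he : S_ey) {Q : Par} (hQ : Norm Q) (s : Fin 4 → Fin 3) (hor : Fin 4 → ℕ)
    (C : ℝ≥0∞) : EY4 Q s hor (fun _ => C) = C := by
  unfold EY4
  simp only [he.2.2.2.2 Q _ _ C hQ]

theorem ER_const (L : ℕ) (C : ℝ≥0∞) : ER L (fun _ => C) = C := by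
  induction L with
  | zero => rfl
  | succ L ih =>
    simp only [ER, ih, Finset.sum_const, Finset.card_univ, Fintype.card_fin, nsmul_eq_mul]
    rw [← mul_assoc]
    have : ((4 : ℕ) : ℝ≥0∞) * (1 / 4) = 1 := by
      push_cast
      rw [one_div]
      exact ENNReal.mul_inv_cancel (by norm_num) (by norm_num)
    rw [this, one_mul]

theorem root_bound (hp : S_path) (he : S_ey) {Q : Par} (K : Cert Q) :
    ∀ (L : ℕ) (hor : Fin 4 → ℕ) (p : ℕ) (s : Fin 4 → Fin 3), (∀ c, L ≤ hor c) →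
      ER L (fun r => EY4 Q s hor (fun ys => (dep r p (fun c => cum (ys c)) : ℝ≥0∞))) ≤
        25 * (p : ℝ≥0∞) := by
  have hN : Norm Q := he.1 Q ⟨K⟩
  intro L
  induction L with
  | zero =>
    intro hor p s _
    have h0 : ∀ ys : Fin 4 → List ℕ, ((dep [] p (fun c => cum (ys c)) : ℕ) : ℝ≥0∞) = 0 := by
      intro ys
      have := (hp.2.2.2.2.1 [] p (fun c => cum (ys c))).1
      simp only [List.length_nil, Nat.le_zero] at this
      rw [this, Nat.cast_zero]
    simp only [ER, h0]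
    rw [EY4_const he hN]
    exact zero_le
  | succ L ih =>
    intro hor p s hL
    rcases Nat.eq_zero_or_pos p with hp0 | hp0
    · subst hp0
      have h0 : ∀ (r : List Rt) (ys : Fin 4 → List ℕ),
          ((dep r 0 (fun c => cum (ys c)) : ℕ) : ℝ≥0∞) = 0 := by
        intro r ys
        rw [(hp.2.1 r (fun c => cum (ys c)) (fun c => by simp [cum])).1, Nat.cast_zero]
      simp only [h0, EY4_const he hN, ER_const]
      exact zero_le
    · obtain ⟨p, rfl⟩ : ∃ m, p = m + 1 := ⟨p - 1, by omega⟩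
      have key : ∀ c : Fin 4, ER L (fun r => EY4 Q s hor (fun ys =>
          (dep (some c :: r) (p + 1) (fun d => cum (ys d)) : ℝ≥0∞))) ≤
          25 * ((p + 1 : ℕ) : ℝ≥0∞) := by
        intro c
        have hc : hor c ≠ 0 := by have := hL c; omega
        have e1 : ∀ r : List Rt, EY4 Q s hor (fun ys =>
            (dep (some c :: r) (p + 1) (fun d => cum (ys d)) : ℝ≥0∞)) =
            opY Q (s c) (fun y h =>
              EY4 Q (Function.update s c h) (Function.update hor c (hor c - 1))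
                (fun ys => 1 + (dep r (p + y) (fun d => cum (ys d)) : ℝ≥0∞))) := by
          intro r
          rw [EY4_pull Q s hor _ c hc]
          congr 1; funext y h
          congr 1; funext ys
          have := (hp.2.2.2.1 r p (Function.update ys c (y :: ys c)) c y (ys c) (by simp)).1
          rw [this]
          simp only [Function.update_idem, Function.update_eq_self]
          push_cast
          rfl
        simp only [e1]
        rw [opY_comm (isOp_ER L)]
        have e2 : ∀ y h, ER L (fun r =>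
            EY4 Q (Function.update s c h) (Function.update hor c (hor c - 1))
                (fun ys => 1 + (dep r (p + y) (fun d => cum (ys d)) : ℝ≥0∞))) ≤
            (1 + 25 * (p : ℝ≥0∞)) + 25 * (y : ℝ≥0∞) := by
          intro y h
          have e3 : ∀ r : List Rt, EY4 Q (Function.update s c h) (Function.update hor c (hor c - 1))
                (fun ys => 1 + (dep r (p + y) (fun d => cum (ys d)) : ℝ≥0∞)) =
              1 + EY4 Q (Function.update s c h) (Function.update hor c (hor c - 1))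
                (fun ys => (dep r (p + y) (fun d => cum (ys d)) : ℝ≥0∞)) := by
            intro r
            rw [(isOp_EY4 Q _ _).add (fun _ => 1), EY4_const he hN]
          simp only [e3]
          rw [(isOp_ER L).add (fun _ => 1), ER_const]
          have := ih (Function.update hor c (hor c - 1)) (p + y) (Function.update s c h) (by
            intro d
            by_cases hd : d = c
            · subst hd
              have := hL d
              simp only [Function.update_self]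
              omega
            · rw [Function.update_of_ne hd]
              have := hL d
              omega)
          calc _ ≤ 1 + 25 * ((p + y : ℕ) : ℝ≥0∞) := by gcongr
            _ = _ := by push_cast; ring
        calc _ ≤ opY Q (s c) (fun y _ => (1 + 25 * (p : ℝ≥0∞)) + 25 * (y : ℝ≥0∞)) :=
              he.2.1 Q _ _ _ (fun y h => e2 y h)
          _ = (1 + 25 * (p : ℝ≥0∞)) + 25 * opY Q (s c) (fun y _ => (y : ℝ≥0∞)) := by
              have a1 := (isOp_opY Q (s c)).add (fun _ => (1 + 25 * (p : ℝ≥0∞)))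
                (fun x => 25 * (x.1 : ℝ≥0∞))
              have a2 := (isOp_opY Q (s c)).smul 25 (fun x => (x.1 : ℝ≥0∞))
              unfold opY' at a1 a2
              simp only at a1 a2
              rw [a1, a2, he.2.2.1 Q (s c) _ hN]
          _ ≤ (1 + 25 * (p : ℝ≥0∞)) + 25 * (24 / 25) := by
              gcongr
              exact mean_le K (s c)
          _ = 25 * ((p + 1 : ℕ) : ℝ≥0∞) := by
              have : (25 : ℝ≥0∞) * (24 / 25) = 24 :=
                ENNReal.mul_div_cancel (by norm_num) (by norm_num)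
              rw [this]
              push_cast
              ring
      show ∑ c : Fin 4, 1 / 4 * ER L (fun r => EY4 Q s hor (fun ys =>
          (dep (some c :: r) (p + 1) (fun d => cum (ys d)) : ℝ≥0∞))) ≤ _
      calc _ ≤ ∑ _c : Fin 4, 1 / 4 * (25 * ((p + 1 : ℕ) : ℝ≥0∞)) := by
            refine Finset.sum_le_sum fun c _ => ?_
            gcongr
            exact key c
        _ = 25 * ((p + 1 : ℕ) : ℝ≥0∞) := by
            have := ER_const 1 (25 * ((p + 1 : ℕ) : ℝ≥0∞))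
            simpa [ER] using this

end rootE_aux

theorem t_rootE (hp : S_path) (he : S_ey) : S_rootE := by
  rintro Q ⟨K⟩ L hor hL
  simpa using rootE_aux.root_bound hp he K L hor 1 (fun _ => 0) hL

end FT4
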