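import Pool.Agent.helper237_FT4.Stmts

/-!
# Project FT4, task `row` (helper93)

The law of a row of digits.
-/

set_option autoImplicit false

open MeasureTheory ProbabilityTheory
open scoped ENNReal BigOperators

namespace FT4

namespace row_aux

section prob

variable {Ω : Type} [MeasurableSpace Ω] {P : Measure Ω} {ξ : Vx → ℕ → Ω → Al}

theorem meas_vec (hξ : IID P ξ) (v : Vx) (L : ℕ) :
    Measurable (fun ω => fun j : Fin L => ξ v j ω) :=
  measurable_pi_lambda _ (fun j => hξ.1 v j)

omit [MeasurableSpace Ω] in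
theorem event (ξ : Vx → ℕ → Ω → Al) (v : Vx) {L : ℕ} (a : Fin L → Al) :
    (fun ω => fun j : Fin L => ξ v j ω) ⁻¹' {a} =
      ⋂ j ∈ (Finset.univ : Finset (Fin L)), (fun ω => ξ v j ω) ⁻¹' {a j} := by
  ext ω
  simp only [Set.mem_preimage, Set.mem_singleton_iff, Finset.mem_univ, Set.iInter_true,
    Set.mem_iInter]
  exact funext_iff

theorem prob_vec (hξ : IID P ξ) (v : Vx) {L : ℕ} (a : Fin L → Al) :
    P ((fun ω => fun j : Fin L => ξ v j ω) ⁻¹' {a}) = (1 / 20) ^ L := by
  rw [event ξ v a]
  have hinj : Function.Injective (fun j : Fin L => ((v, (j : ℕ)) : Vx × ℕ)) := by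
    intro i j hij
    simp only [Prod.mk.injEq, true_and] at hij
    exact Fin.ext hij
  have h1 := hξ.2.1.precomp hinj
  have h2 := h1.measure_inter_preimage_eq_mul Finset.univ (sets := fun i => {a i})
    (fun i _ => measurableSet_singleton _)
  rw [h2]
  simp only [hξ.2.2, Finset.prod_const, Finset.card_univ, Fintype.card_fin]

theorem lint (hξ : IID P ξ) (v : Vx) (L : ℕ) (G : List Al → ℝ≥0∞) :
    ∫⁻ ω, G (row L (fun v k => ξ v k ω) v) ∂P =
      ∑ a : Fin L → Al, G (List.ofFn a) * (1 / 20) ^ L := by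
  calc ∫⁻ ω, G (row L (fun v k => ξ v k ω) v) ∂P
      = ∫⁻ ω, (fun a : Fin L → Al => G (List.ofFn a))
          ((fun ω => fun j : Fin L => ξ v j ω) ω) ∂P := rfl
    _ = ∫⁻ a : Fin L → Al, G (List.ofFn a) ∂(P.map (fun ω => fun j : Fin L => ξ v j ω)) :=
        (lintegral_map (μ := P) (f := fun a : Fin L → Al => G (List.ofFn a))
          (measurable_of_countable _) (meas_vec hξ v L)).symm
    _ = _ := by
        rw [lintegral_fintype]
        refine Finset.sum_congr rfl (fun a _ => ?_)
        rw [Measure.map_apply (meas_vec hξ v L) (measurableSet_singleton _), prob_vec hξ v a]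

end prob

theorem sum_cons (L : ℕ) (G : List Al → ℝ≥0∞) :
    ∑ a : Fin (L + 1) → Al, G (List.ofFn a) * (1 / 20) ^ (L + 1) =
      ∑ b : Al, 1 / 20 * ∑ a : Fin L → Al, G (b :: List.ofFn a) * (1 / 20) ^ L := by
  rw [← (Fin.consEquiv (fun _ : Fin (L + 1) => Al)).sum_comp, Fintype.sum_prod_type]
  refine Finset.sum_congr rfl (fun b _ => ?_)
  rw [Finset.mul_sum]
  refine Finset.sum_congr rfl (fun a _ => ?_)
  have h1 : (Fin.consEquiv (fun _ : Fin (L + 1) => Al)) (b, a) = Fin.cons b a := rfl
  rw [h1, List.ofFn_succ, pow_succ]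
  simp only [Fin.cons_zero, Fin.cons_succ]
  ring

theorem four_twenty : (4 : ℝ≥0∞) * (1 / 20) = 1 / 5 := by
  rw [← ENNReal.toReal_eq_toReal_iff' (by finiteness) (by finiteness)]
  simp only [ENNReal.toReal_mul, ENNReal.toReal_div, ENNReal.toReal_one, ENNReal.toReal_ofNat]
  norm_num

theorem five_twenty : (5 : ℝ≥0∞) * (1 / 20) = 1 / 4 := by
  rw [← ENNReal.toReal_eq_toReal_iff' (by finiteness) (by finiteness)]
  simp only [ENNReal.toReal_mul, ENNReal.toReal_div, ENNReal.toReal_one, ENNReal.toReal_ofNat]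
  norm_num

theorem sum_route (X : Rt → ℝ≥0∞) : ∑ b : Al, 1 / 20 * X (route b) = ∑ o : Rt, 1 / 5 * X o := by
  rw [Fintype.sum_prod_type, Fintype.sum_option]
  have h1 : ∀ c : Fin 4, ∑ u : Fin 5, 1 / 20 * X (route (c, u)) =
      1 / 20 * X none + 1 / 5 * X (some c) := by
    intro c
    rw [Fin.sum_univ_succ]
    have h2 : route (c, (0 : Fin 5)) = none := if_pos rfl
    have h3 : ∀ i : Fin 4, route (c, i.succ) = some c := fun i => if_neg (Fin.succ_ne_zero i)
    simp only [h2, h3, Finset.sum_const, Finset.card_univ, Fintype.card_fin, nsmul_eq_mul]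
    rw [← four_twenty]
    push_cast
    ring
  simp only [h1]
  rw [Finset.sum_add_distrib, Finset.sum_const, Finset.card_univ, Fintype.card_fin, nsmul_eq_mul,
    ← mul_assoc]
  push_cast
  rw [four_twenty]

theorem sum_routeR (X : Rt → ℝ≥0∞) :
    ∑ b : Al, 1 / 20 * X (routeR b) = ∑ c : Fin 4, 1 / 4 * X (some c) := by
  rw [Fintype.sum_prod_type, ← five_twenty]
  refine Finset.sum_congr rfl (fun c _ => ?_)
  simp only [routeR, Finset.sum_const, Finset.card_univ, Fintype.card_fin, nsmul_eq_mul]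
  push_cast
  ring

theorem sum_EA (L : ℕ) (G : List Rt → ℝ≥0∞) :
    ∑ a : Fin L → Al, G ((List.ofFn a).map route) * (1 / 20) ^ L = EA L G := by
  induction L generalizing G with
  | zero => simp [EA]
  | succ L ih =>
    rw [sum_cons L (fun l => G (l.map route)), EA]
    simp only [List.map_cons]
    rw [← sum_route (fun o => EA L (fun r => G (o :: r)))]
    refine Finset.sum_congr rfl (fun b _ => ?_)
    rw [ih (fun r => G (route b :: r))]

theorem sum_ER (L : ℕ) (G : List Rt → ℝ≥0∞) :
    ∑ a : Fin L → Al, G ((List.ofFn a).map routeR) * (1 / 20) ^ L = ER L G := by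
  induction L generalizing G with
  | zero => simp [ER]
  | succ L ih =>
    rw [sum_cons L (fun l => G (l.map routeR)), ER]
    simp only [List.map_cons]
    rw [← sum_routeR (fun o => ER L (fun r => G (o :: r)))]
    refine Finset.sum_congr rfl (fun b _ => ?_)
    rw [ih (fun r => G (routeR b :: r))]

end row_aux

open row_aux in
theorem t_row : S_row := by
  intro Ω _ P _ ξ hξ L v G
  refine ⟨?_, ?_⟩
  · rw [lint hξ v L (fun l => G (l.map route)), sum_EA]
  · rw [lint hξ v L (fun l => G (l.map routeR)), sum_ER]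

end FT4
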