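import Pool.Agent.helper237_FT4.Stmts

/-!
# Project FT4, task `uax` (helper93)

The properties of `UU`.
-/

set_option autoImplicit false

open MeasureTheory ProbabilityTheory
open scoped ENNReal BigOperators

namespace FT4

namespace uax_aux

theorem fifth5 : (5 : ℝ≥0∞) * (1 / 5) = 1 := by
  rw [← ENNReal.toReal_eq_toReal_iff' (by finiteness) (by finiteness)]
  simp only [ENNReal.toReal_mul, ENNReal.toReal_div, ENNReal.toReal_one, ENNReal.toReal_ofNat]
  norm_num

theorem EA_mono (L : ℕ) {G G' : List Rt → ℝ≥0∞} (h : ∀ r, G r ≤ G' r) : EA L G ≤ EA L G' := by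
  induction L generalizing G G' with
  | zero => exact h []
  | succ L ih =>
    simp only [EA]
    exact Finset.sum_le_sum (fun o _ => mul_le_mul_right (ih (fun r => h (o :: r))) _)

theorem EA_const (L : ℕ) (C : ℝ≥0∞) : EA L (fun _ => C) = C := by
  induction L with
  | zero => rfl
  | succ L ih =>
    simp only [EA, ih, Finset.sum_const, Finset.card_univ, Fintype.card_option, Fintype.card_fin,
      nsmul_eq_mul]
    have h : (((4 + 1 : ℕ)) : ℝ≥0∞) = 5 := by norm_num
    rw [h, ← mul_assoc, fifth5, one_mul]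

variable (hey : S_ey)

include hey

theorem EY_mono (Q : Par) (k : ℕ) (h : Fin 3) {G G' : List ℕ → ℝ≥0∞} (hG : ∀ l, G l ≤ G' l) :
    EY Q k h G ≤ EY Q k h G' := hey.2.2.2.1 Q k h G G' (fun l _ => hG l)

theorem EY4_mono (Q : Par) (s : Fin 4 → Fin 3) (hor : Fin 4 → ℕ)
    {G G' : (Fin 4 → List ℕ) → ℝ≥0∞} (h : ∀ ys, G ys ≤ G' ys) :
    EY4 Q s hor G ≤ EY4 Q s hor G' := by
  unfold EY4
  exact EY_mono hey Q _ _ (fun y0 => EY_mono hey Q _ _ (fun y1 => EY_mono hey Q _ _
    (fun y2 => EY_mono hey Q _ _ (fun y3 => h _))))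

theorem EY4_const (Q : Par) (hQ : Norm Q) (s : Fin 4 → Fin 3) (hor : Fin 4 → ℕ) (C : ℝ≥0∞) :
    EY4 Q s hor (fun _ => C) = C := by
  unfold EY4
  simp only [hey.2.2.2.2 Q _ _ C hQ]

theorem UL_mono (Q : Par) (L : ℕ) (hor : Fin 4 → ℕ) (p : ℕ) (s : Fin 4 → Fin 3)
    {H H' : (ℕ → ℕ) → ℝ≥0∞} (h : ∀ F, H F ≤ H' F) : UL Q L hor p s H ≤ UL Q L hor p s H' := by
  unfold UL
  exact EA_mono L (fun r => EY4_mono hey Q s hor (fun ys => h _))

theorem UL_const (Q : Par) (hQ : Norm Q) (L : ℕ) (hor : Fin 4 → ℕ) (p : ℕ) (s : Fin 4 → Fin 3)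
    (C : ℝ≥0∞) : UL Q L hor p s (fun _ => C) = C := by
  unfold UL
  simp only [EY4_const hey Q hQ s hor C, EA_const]

omit hey in
theorem UL_le_UU (Q : Par) (L : ℕ) (hor : Fin 4 → ℕ) (hhor : ∀ c, L ≤ hor c) (p : ℕ)
    (s : Fin 4 → Fin 3) (H : (ℕ → ℕ) → ℝ≥0∞) : UL Q L hor p s H ≤ UU Q p s H := by
  unfold UU
  exact le_iSup_of_le L (le_iSup_of_le hor (le_iSup_of_le hhor le_rfl))

omit hey in
theorem UU_le (Q : Par) (p : ℕ) (s : Fin 4 → Fin 3) (H : (ℕ → ℕ) → ℝ≥0∞) (C : ℝ≥0∞)
    (h : ∀ (L : ℕ) (hor : Fin 4 → ℕ), (∀ c, L ≤ hor c) → UL Q L hor p s H ≤ C) :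
    UU Q p s H ≤ C := by
  unfold UU
  exact iSup_le (fun L => iSup_le (fun hor => iSup_le (fun hh => h L hor hh)))

/-- lower levels give larger values -/
theorem UL_lev (hpath : S_path) (hlev : S_lev) (Q : Par) (hQ : Nonempty (Cert Q)) (L : ℕ)
    (hor : Fin 4 → ℕ) (p : ℕ) (s s' : Fin 4 → Fin 3) (H : (ℕ → ℕ) → ℝ≥0∞) (hH : Monotone H)
    (hs : ∀ c, s' c ≤ s c) : UL Q L hor p s H ≤ UL Q L hor p s' H := by
  unfold UL
  refine EA_mono L (fun r => ?_)
  have hm : ∀ (z z' : Fin 4 → List ℕ), (∀ c j, cum (z c) j ≤ cum (z' c) j) →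
      H (fun j => exits r (p + j) (fun c => cum (z c))) ≤
        H (fun j => exits r (p + j) (fun c => cum (z' c))) := by
    intro z z' hz
    refine hH (fun j => ?_)
    exact (hpath.1 r (p + j) (p + j) _ _ le_rfl (fun c k => hz c k)).2
  unfold EY4
  refine (hlev Q hQ _ _ _ _ ?_ (hs 0)).trans (EY_mono hey Q _ _ (fun y0 => ?_))
  · intro l l' _ _ hl
    refine EY_mono hey Q _ _ (fun y1 => EY_mono hey Q _ _ (fun y2 => EY_mono hey Q _ _
      (fun y3 => hm _ _ (fun c j => ?_))))
    fin_cases c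
    · exact hl j
    · exact le_rfl
    · exact le_rfl
    · exact le_rfl
  refine (hlev Q hQ _ _ _ _ ?_ (hs 1)).trans (EY_mono hey Q _ _ (fun y1 => ?_))
  · intro l l' _ _ hl
    refine EY_mono hey Q _ _ (fun y2 => EY_mono hey Q _ _ (fun y3 => hm _ _ (fun c j => ?_)))
    fin_cases c
    · exact le_rfl
    · exact hl j
    · exact le_rfl
    · exact le_rfl
  refine (hlev Q hQ _ _ _ _ ?_ (hs 2)).trans (EY_mono hey Q _ _ (fun y2 => ?_))
  · intro l l' _ _ hl
    refine EY_mono hey Q _ _ (fun y3 => hm _ _ (fun c j => ?_))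
    fin_cases c
    · exact le_rfl
    · exact le_rfl
    · exact hl j
    · exact le_rfl
  refine hlev Q hQ _ _ _ _ ?_ (hs 3)
  intro l l' _ _ hl
  refine hm _ _ (fun c j => ?_)
  fin_cases c
  · exact le_rfl
  · exact le_rfl
  · exact le_rfl
  · exact hl j

omit hey in
theorem exits_nil (p : ℕ) (g : Fin 4 → ℕ → ℕ) : exits [] p g = 0 := by
  simp [exits, ups]

end uax_aux

open uax_aux in
theorem t_uax (hpath : S_path) (hey : S_ey) (hlev : S_lev) (hustep : S_ustep) : S_uax := by
  intro Q hQ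
  have hN : Norm Q := hey.1 Q hQ
  refine ⟨?_, ?_, ?_, ?_, ?_, ?_⟩
  · intro p s H H' h
    exact UU_le Q p s H _ (fun L hor hh =>
      (UL_mono hey Q L hor p s h).trans (UL_le_UU Q L hor hh p s H'))
  · intro p s H C h
    exact UU_le Q p s H _ (fun L hor hh =>
      (UL_mono hey Q L hor p s (H' := fun _ => C) h).trans (UL_const hey Q hN L hor p s C).le)
  · intro p s s' H hH hs
    exact UU_le Q p s H _ (fun L hor hh =>
      (UL_lev hey hpath hlev Q hQ L hor p s s' H hH hs).trans (UL_le_UU Q L hor hh p s' H))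
  · intro p s H hH
    refine UU_le Q _ s H _ (fun L hor hh => ?_)
    rcases L with _ | L
    · have h1 : UL Q 0 hor (p + 1) s H = H (fun _ => 0) := by
        unfold UL EA
        simp only [exits_nil]
        exact EY4_const hey Q hN s hor _
      have h2 : ∀ (p' : ℕ) (s' : Fin 4 → Fin 3), H (fun _ => 0) ≤ UU Q p' s' H := by
        intro p' s'
        have h3 : UL Q 0 hor p' s' H = H (fun _ => 0) := by
          unfold UL EA
          simp only [exits_nil]
          exact EY4_const hey Q hN s' hor _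
        rw [← h3]
        exact UL_le_UU Q 0 hor (fun c => Nat.zero_le _) p' s' H
      have h4 : H (fun _ => 0) ≤ UU Q p s (fun F => H (fun j => 1 + F j)) := by
        have h3 : UL Q 0 hor p s (fun F => H (fun j => 1 + F j)) = H (fun _ => 1) := by
          unfold UL EA
          simp only [exits_nil]
          exact EY4_const hey Q hN s hor _
        refine le_trans (hH (fun _ => Nat.zero_le 1)) (h3.symm.le.trans ?_)
        exact UL_le_UU Q 0 hor (fun c => Nat.zero_le _) p s _
      have h5 : ∀ c : Fin 4, H (fun _ => 0) ≤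
          opY Q (s c) (fun y h => UU Q (p + y) (Function.update s c h) H) := by
        intro c
        refine (hey.2.2.1 Q (s c) (H (fun _ => 0)) hN).symm.le.trans ?_
        exact hey.2.1 Q (s c) _ _ (fun y h' => h2 _ _)
      rw [h1]
      calc H (fun _ => 0) = (5 * (1 / 5)) * H (fun _ => 0) := by rw [fifth5, one_mul]
        _ = 1 / 5 * H (fun _ => 0) + ∑ _c : Fin 4, 1 / 5 * H (fun _ => 0) := by
            rw [Finset.sum_const, Finset.card_univ, Fintype.card_fin, nsmul_eq_mul]
            push_cast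
            ring
        _ ≤ _ := by
            refine add_le_add (mul_le_mul_right h4 _) (Finset.sum_le_sum (fun c _ => ?_))
            exact mul_le_mul_right (h5 c) _
    · rw [hustep Q L hor p s H hh hN]
      refine add_le_add (mul_le_mul_right ?_ _) (Finset.sum_le_sum (fun c _ =>
        mul_le_mul_right ?_ _))
      · exact UL_le_UU Q L hor (fun c => (Nat.le_succ L).trans (hh c)) p s _
      · refine hey.2.1 Q (s c) _ _ (fun y h' => ?_)
        refine UL_le_UU Q L _ (fun c' => ?_) _ _ H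
        rw [Function.update_apply]
        have h1 := hh c
        have h2 := hh c'
        split_ifs <;> omega
  · intro s H
    refine UU_le Q _ s H _ (fun L hor hh => ?_)
    refine le_trans (le_of_eq ?_) (UL_le_UU Q L hor hh 1 s _)
    unfold UL
    congr 1
    funext r
    congr 1
    funext ys
    congr 1
    funext j
    rw [cons0]
    split_ifs with hj
    · rw [hj]
      exact (hpath.2.1 r _ (fun c => by simp [cum])).2
    · have : 0 + j = 1 + (j - 1) := by omega
      rw [this]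
  · intro s H hH
    refine UU_le Q _ s H _ (fun L hor hh => ?_)
    refine le_trans (le_of_eq ?_) (UL_const hey Q hN L hor 0 s (H (fun _ => 0))).le
    unfold UL
    congr 1
    funext r
    congr 1
    funext ys
    refine hH _ _ (fun j hj => ?_)
    have hj0 : j = 0 := Nat.le_zero.1 hj
    rw [hj0]
    exact (hpath.2.1 r _ (fun c => by simp [cum])).2

end FT4
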