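import Pool.Agent.helper237_FT4.T_rootE

/-!
# FT4: `S_ustep` (helper27)
-/

set_option autoImplicit false

open MeasureTheory ProbabilityTheory
open scoped ENNReal BigOperators

namespace FT4

open rootE_aux in
theorem t_ustep (hp : S_path) : S_ustep := by
  intro Q L hor p s H hL _
  unfold UL
  simp only [EA]
  rw [Fintype.sum_option]
  congr 1
  · have e : ∀ (r : List Rt) (ys : Fin 4 → List ℕ),
        (fun j => exits (none :: r) (p + 1 + j) (fun c => cum (ys c))) =
        fun j => 1 + exits r (p + j) (fun c => cum (ys c)) := by
      intro r ys
      funext j
      rw [show p + 1 + j = p + j + 1 by ring]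
      exact (hp.2.2.1 r (p + j) _).2
    simp only [e]
  · refine Finset.sum_congr rfl fun c _ => ?_
    congr 1
    have hc : hor c ≠ 0 := by have := hL c; omega
    have e1 : ∀ r : List Rt, EY4 Q s hor (fun ys =>
        H (fun j => exits (some c :: r) (p + 1 + j) (fun d => cum (ys d)))) =
        opY Q (s c) (fun y h =>
          EY4 Q (Function.update s c h) (Function.update hor c (hor c - 1))
            (fun ys => H (fun j => exits r (p + y + j) (fun d => cum (ys d))))) := by
      intro r
      rw [EY4_pull Q s hor _ c hc]
      congr 1; funext y h
      congr 1; funext ys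
      congr 1; funext j
      have := (hp.2.2.2.1 r (p + j) (Function.update ys c (y :: ys c)) c y (ys c) (by simp)).2
      rw [show p + 1 + j = p + j + 1 by ring, this]
      simp only [Function.update_idem, Function.update_eq_self]
      rw [show p + j + y = p + y + j by ring]
    simp only [e1]
    rw [opY_comm (isOp_EA L)]

end FT4
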