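import Mathlib

/-!
# Frog model on the 4-ary tree: definitions (project FT4, helper237)
-/

set_option autoImplicit false

open MeasureTheory ProbabilityTheory
open scoped ENNReal BigOperators

namespace FT4

/-- a vertex of the 4-ary tree: the list of children choices, most recent first -/
abbrev Vx := List (Fin 4)

/-- one random digit pair: the child and the up/down digit -/
abbrev Al := Fin 4 × Fin 5

/-- one step of a walk at `x` using the answer `a` -/
def mv (a : Al) (x : Vx) : Vx :=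
  if x = [] then [a.1] else if a.2 = 0 then x.tail else a.1 :: x

/-! ### the fair exploration of the model -/

/-- configuration: the queue of awake frogs `(home, time, position)`, the visited vertices,
the number of departures processed at each vertex -/
structure Cfg where
  q : List (Vx × ℕ × Vx)
  vis : List Vx
  dep : Vx → ℕ

def Cfg.init : Cfg := ⟨[([], 0, [])], [[]], fun _ => 0⟩

def Cfg.step (C : Cfg) (a : Al) : Cfg :=
  match C.q with
  | [] => C
  | (v, k, x) :: r =>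
    ⟨r ++ (v, k + 1, mv a x) :: (if mv a x ∈ C.vis then [] else [(mv a x, 0, mv a x)]),
     if mv a x ∈ C.vis then C.vis else mv a x :: C.vis,
     Function.update C.dep x (C.dep x + 1)⟩

/-- frog-wise index of the next digit -/
def idxF (C : Cfg) : Vx × ℕ :=
  match C.q with
  | [] => ([], 0)
  | (v, k, _) :: _ => (v, k)

/-- vertex-wise index of the next digit -/
def idxS (C : Cfg) : Vx × ℕ :=
  match C.q with
  | [] => ([], 0)
  | (_, _, x) :: _ => (x, C.dep x)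

/-- configuration after `t` steps, when the digits are read from `η` with index rule `idx` -/
def cfg (idx : Cfg → Vx × ℕ) (η : Vx → ℕ → Al) : ℕ → Cfg
  | 0 => Cfg.init
  | t + 1 => (cfg idx η t).step (η (idx (cfg idx η t)).1 (idx (cfg idx η t)).2)

/-! ### one vertex -/

/-- a routing instruction at a vertex: `none` = up, `some c` = into child `c` -/
abbrev Rt := Option (Fin 4)

def route (a : Al) : Rt := if a.2 = 0 then none else some a.1

def routeR (a : Al) : Rt := some a.1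

/-- how many of the first `u` instructions go into child `c` -/
def cntc (c : Fin 4) (r : List Rt) (u : ℕ) : ℕ := (r.take u).count (some c)

/-- how many of the first `u` instructions go up -/
def ups (r : List Rt) (u : ℕ) : ℕ := (r.take u).count none

/-- total number of arrivals at the vertex after `u` departures; `p` = arrivals from outside,
`g c k` = number of frogs returned by child `c` after `k` entries -/
def tot (r : List Rt) (p : ℕ) (g : Fin 4 → ℕ → ℕ) (u : ℕ) : ℕ := p + ∑ c, g c (cntc c r u)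

theorem dep_ex (r : List Rt) (p : ℕ) (g : Fin 4 → ℕ → ℕ) :
    ∃ u, r.length ≤ u ∨ tot r p g u ≤ u := ⟨r.length, Or.inl le_rfl⟩

/-- number of departures from the vertex (capped by the number of instructions) -/
def dep (r : List Rt) (p : ℕ) (g : Fin 4 → ℕ → ℕ) : ℕ := Nat.find (dep_ex r p g)

/-- number of upward departures -/
def exits (r : List Rt) (p : ℕ) (g : Fin 4 → ℕ → ℕ) : ℕ := ups r (dep r p g)

/-- number of frogs put at a vertex by `E` entries (the first entry wakes the frog living there) -/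
def pen (E : ℕ) : ℕ := if E = 0 then 0 else E + 1

/-- the first `L` digits at vertex `v` -/
def row (L : ℕ) (η : Vx → ℕ → Al) (v : Vx) : List Al := List.ofFn (fun j : Fin L => η v j)

/-- `fv L η n v E`: number of frogs that leave the subtree of `v` upwards after `E` entries,
in the vertex-wise reading, with depth cut at `n` levels and `L` instructions per vertex -/
def fv (L : ℕ) (η : Vx → ℕ → Al) : ℕ → Vx → ℕ → ℕ
  | 0, _ => fun _ => 0
  | n + 1, v => fun E => exits ((row L η v).map route) (pen E) (fun c => fv L η n (c :: v))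

/-- number of departures from the root in the vertex-wise reading -/
def droot (L : ℕ) (η : Vx → ℕ → Al) : ℕ :=
  dep ((row L η []).map routeR) 1 (fun c => fv L η L [c])

noncomputable section

/-! ### the dominating response -/

/-- three laws on `ℕ`: `q 0` first entry, `q 1` first later effective entry, `q 2` all others -/
structure Par where
  q : Fin 3 → ℕ → ℝ≥0∞

/-- one entry into a dominating child of level `h` (expectation of `F output newlevel`) -/
def opY (Q : Par) (h : Fin 3) (F : ℕ → Fin 3 → ℝ≥0∞) : ℝ≥0∞ :=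
  if h = 0 then ∑' y, Q.q 0 y * F y 1
  else if h = 1 then 1 / 5 * F 1 1 + 4 / 5 * ∑' y, Q.q 1 y * F y 2
  else 1 / 5 * F 1 2 + 4 / 5 * ∑' y, Q.q 2 y * F y 2

/-- expectation over the list of the next `k` outputs of a dominating child of level `h` -/
def EY (Q : Par) : ℕ → Fin 3 → (List ℕ → ℝ≥0∞) → ℝ≥0∞
  | 0, _ => fun G => G []
  | k + 1, h => fun G => opY Q h (fun y h' => EY Q k h' (fun l => G (y :: l)))

/-- four independent dominating children with levels `s` and horizons `hor` -/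
def EY4 (Q : Par) (s : Fin 4 → Fin 3) (hor : Fin 4 → ℕ) (G : (Fin 4 → List ℕ) → ℝ≥0∞) : ℝ≥0∞ :=
  EY Q (hor 0) (s 0) fun y0 => EY Q (hor 1) (s 1) fun y1 =>
    EY Q (hor 2) (s 2) fun y2 => EY Q (hor 3) (s 3) fun y3 => G ![y0, y1, y2, y3]

/-- expectation over `L` uniform instructions of a non-root vertex -/
def EA : ℕ → (List Rt → ℝ≥0∞) → ℝ≥0∞
  | 0 => fun G => G []
  | L + 1 => fun G => ∑ o : Rt, 1 / 5 * EA L (fun r => G (o :: r))

/-- expectation over `L` uniform instructions of the root -/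
def ER : ℕ → (List Rt → ℝ≥0∞) → ℝ≥0∞
  | 0 => fun G => G []
  | L + 1 => fun G => ∑ c : Fin 4, 1 / 4 * ER L (fun r => G (some c :: r))

/-- cumulative sums of a list of increments -/
def cum (l : List ℕ) (k : ℕ) : ℕ := (l.take k).sum

def cons0 (F : ℕ → ℕ) (j : ℕ) : ℕ := if j = 0 then 0 else F (j - 1)

/-- `H` looks only at the coordinates `0..k` -/
def DepOn (k : ℕ) (H : (ℕ → ℕ) → ℝ≥0∞) : Prop :=
  ∀ F F' : ℕ → ℕ, (∀ j, j ≤ k → F j = F' j) → H F = H F'

/-- value of `H` at the cumulative exits `(exits r (p + j))_j` of a vertex whose four children are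
dominating ones with levels `s` -/
def UL (Q : Par) (L : ℕ) (hor : Fin 4 → ℕ) (p : ℕ) (s : Fin 4 → Fin 3)
    (H : (ℕ → ℕ) → ℝ≥0∞) : ℝ≥0∞ :=
  EA L fun r => EY4 Q s hor fun ys => H (fun j => exits r (p + j) (fun c => cum (ys c)))

def UU (Q : Par) (p : ℕ) (s : Fin 4 → Fin 3) (H : (ℕ → ℕ) → ℝ≥0∞) : ℝ≥0∞ :=
  ⨆ (L : ℕ) (hor : Fin 4 → ℕ) (_ : ∀ c, L ≤ hor c), UL Q L hor p s H

/-- the properties of `UU` used by the closure argument -/
structure UAx (Q : Par) (U : ℕ → (Fin 4 → Fin 3) → ((ℕ → ℕ) → ℝ≥0∞) → ℝ≥0∞) : Prop where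
  mono : ∀ p s H H', (∀ F, H F ≤ H' F) → U p s H ≤ U p s H'
  bdd : ∀ p s H C, (∀ F, H F ≤ C) → U p s H ≤ C
  lev : ∀ p s s' H, Monotone H → (∀ c, s' c ≤ s c) → U p s H ≤ U p s' H
  step : ∀ p s H, Monotone H → U (p + 1) s H ≤
    1 / 5 * U p s (fun F => H (fun j => 1 + F j)) +
      ∑ c : Fin 4, 1 / 5 * opY Q (s c) (fun y h => U (p + y) (Function.update s c h) H)
  zero : ∀ s H, U 0 s H ≤ U 1 s (fun F => H (cons0 F))
  base : ∀ s H, DepOn 0 H → U 0 s H ≤ H (fun _ => 0)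

/-! ### count states -/

/-- the 15 count states `(a, b)`: `a` children of level 0, `b` of level 1, `4 - a - b` of level 2,
in the order (4,0),(3,1),(3,0),(2,2),(2,1),(2,0),(1,3),(1,2),(1,1),(1,0),(0,4),...,(0,0) -/
abbrev CS := Fin 15

def aN : CS → ℕ := ![4, 3, 3, 2, 2, 2, 1, 1, 1, 1, 0, 0, 0, 0, 0]
def bN : CS → ℕ := ![0, 1, 0, 2, 1, 0, 3, 2, 1, 0, 4, 3, 2, 1, 0]
def cN : CS → ℕ := ![0, 0, 1, 0, 1, 2, 0, 1, 2, 3, 0, 1, 2, 3, 4]
/-- one child goes from level 0 to level 1 -/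
def t01 : CS → CS := ![1, 3, 4, 6, 7, 8, 10, 11, 12, 13, 10, 11, 12, 13, 14]
/-- one child goes from level 1 to level 2 -/
def t12 : CS → CS := ![0, 2, 2, 4, 5, 5, 7, 8, 9, 9, 11, 12, 13, 14, 14]
/-- the state with `e` children of level 1 and `4 - e` of level 0 -/
def chain (e : ℕ) : CS := if e = 0 then 0 else if e = 1 then 1 else if e = 2 then 3
  else if e = 3 then 6 else 10

/-- count state of a labelled state -/
def cntS (s : Fin 4 → Fin 3) : CS :=
  let a := (Finset.univ.filter fun c => s c = 0).card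
  let b := (Finset.univ.filter fun c => s c = 1).card
  Fin.ofNat 15 ((if a = 4 then 0 else if a = 3 then 1 else if a = 2 then 3 else
    if a = 1 then 6 else 10) + (4 - a - b))

/-- one entry into a uniformly chosen child of a vertex in count state `n`, times 4 -/
def opN (Q : Par) (n : CS) (F : ℕ → CS → ℝ≥0∞) : ℝ≥0∞ :=
  (aN n : ℝ≥0∞) * opY Q 0 (fun y _ => F y (t01 n)) +
  (bN n : ℝ≥0∞) * opY Q 1 (fun y h => F y (if h = 1 then n else t12 n)) +
  (cN n : ℝ≥0∞) * opY Q 2 (fun y _ => F y n)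

/-- `Mk Q L p n x n'`: probability that `p` frogs at a vertex in count state `n` are all processed
within `L` steps, with `x` exits and final count state `n'` -/
def Mk (Q : Par) : ℕ → ℕ → CS → ℕ → CS → ℝ≥0∞
  | 0, p, n => fun x n' => if p = 0 ∧ x = 0 ∧ n' = n then 1 else 0
  | L + 1, p, n => fun x n' => if p = 0 then (if x = 0 ∧ n' = n then 1 else 0) else
      1 / 5 * (if x = 0 then 0 else Mk Q L (p - 1) n (x - 1) n') +
      1 / 5 * opN Q n (fun y m => Mk Q L (p - 1 + y) m x n')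

/-- probability that `p` frogs are not all processed within `L` steps -/
def Ik (Q : Par) : ℕ → ℕ → CS → ℝ≥0∞
  | 0, p, _ => if p = 0 then 0 else 1
  | L + 1, p, n => if p = 0 then 0 else
      1 / 5 * Ik Q L (p - 1) n + 1 / 5 * opN Q n (fun y m => Ik Q L (p - 1 + y) m)

/-- the `z`-th weight (`z < 6`: mass at `z`; `z ≥ 6`: the tilted tail mass) -/
def wt (m : ℕ → ℝ≥0∞) (z : ℕ) : ℝ≥0∞ := if z < 6 then m z else ∑' j, 2 ^ j * m (6 + j)

/-- upper value over labelled states with count state `n` -/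
def Zh (U : ℕ → (Fin 4 → Fin 3) → ((ℕ → ℕ) → ℝ≥0∞) → ℝ≥0∞) (n : CS) (H : (ℕ → ℕ) → ℝ≥0∞) : ℝ≥0∞ :=
  ⨆ (s : Fin 4 → Fin 3) (_ : cntS s = n), U 0 s H

/-! ### the certificate -/

/-- product of two kernels in the truncated algebra -/
def conv (A C : CS → CS → ℕ → ℝ≥0∞) (n n' : CS) (z : ℕ) : ℝ≥0∞ :=
  ∑ m : CS, ∑ x ∈ Finset.range 7, ∑ y ∈ Finset.range 7,
    if min (x + y) 6 = z then 2 ^ (x + y - 6) * (A n m x * C m n' y) else 0

/-- weights of four times one effective entry from the count state `n` -/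
def Jw (T : Fin 3 → ℕ → ℝ≥0∞) (P : ℕ → CS → CS → ℕ → ℝ≥0∞) (B : CS → CS → ℕ → ℝ≥0∞)
    (n n' : CS) (z : ℕ) : ℝ≥0∞ :=
  (aN n : ℝ≥0∞) * (∑ y ∈ Finset.range 6, T 0 y * P y (t01 n) n' z + T 0 6 * B (t01 n) n' z) +
  (bN n : ℝ≥0∞) * (1 / 5 * P 1 n n' z +
    4 / 5 * (∑ y ∈ Finset.range 6, T 1 y * P y (t12 n) n' z + T 1 6 * B (t12 n) n' z)) +
  (cN n : ℝ≥0∞) * (1 / 5 * P 1 n n' z +
    4 / 5 * (∑ y ∈ Finset.range 6, T 2 y * P y n n' z + T 2 6 * B n n' z))

/-- weights (outcome `z`, number `e` of awake children) of one effective entry from the source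
measure `mu` on count states -/
def ww (T : Fin 3 → ℕ → ℝ≥0∞) (P : ℕ → CS → CS → ℕ → ℝ≥0∞) (B : CS → CS → ℕ → ℝ≥0∞)
    (mu : CS → ℝ≥0∞) (z e : ℕ) : ℝ≥0∞ :=
  ∑ n, mu n * ∑ n' ∈ Finset.univ.filter (fun n' => 4 - aN n' = e), 1 / 4 * Jw T P B n n' z

/-- the closure inequalities for the source `mu` of mass `mass`, outcome law `h`, star node `N` -/
def SrcOK (T : Fin 3 → ℕ → ℝ≥0∞) (P : ℕ → CS → CS → ℕ → ℝ≥0∞) (B : CS → CS → ℕ → ℝ≥0∞)
    (N : ℕ → ℝ≥0∞) (mu : CS → ℝ≥0∞) (mass : ℝ≥0∞) (h : Fin 3) : Prop :=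
  (∀ z, z ≤ 6 → ww T P B mu z 0 = 0) ∧
  (∀ k, 1 ≤ k → k ≤ 6 → ∑ z ∈ Finset.Icc k 6, ∑ e ∈ Finset.Icc 1 4, ww T P B mu z e ≤
    mass * ∑ z ∈ Finset.Icc k 6, T h z) ∧
  (∀ z i, 1 ≤ z → z ≤ 6 → 1 ≤ i → i ≤ 3 → ∑ e ∈ Finset.Icc 1 i, ww T P B mu z e ≤
    (∑ e ∈ Finset.Icc 1 i, N e) * ∑ e ∈ Finset.Icc 1 4, ww T P B mu z e) ∧
  (∀ i, 1 ≤ i → i ≤ 3 → ∑ e ∈ Finset.Icc 1 i, ww T P B mu 0 e +
    (∑ e ∈ Finset.Icc 1 i, N e) * ∑ z ∈ Finset.Icc 1 6, ∑ e ∈ Finset.Icc 1 4, ww T P B mu z e ≤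
    (∑ e ∈ Finset.Icc 1 i, N e) * mass)

/-- the star node as a measure on count states -/
def starN (N : ℕ → ℝ≥0∞) (n : CS) : ℝ≥0∞ := ∑ e ∈ Finset.Icc 1 4, if n = chain e then N e else 0

/-- the certificate for the parameters `Q` -/
structure Cert (Q : Par) where
  /-- `T h z`, `z ≤ 6`: the law `q h` on `0..5`, and its tail mass at `6` -/
  T : Fin 3 → ℕ → ℝ≥0∞
  /-- `P y n n' z`: bound for the weights of `y` frogs -/
  P : ℕ → CS → CS → ℕ → ℝ≥0∞
  /-- bound for the weights of `6 +` geometric many frogs -/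
  B : CS → CS → ℕ → ℝ≥0∞
  /-- start weights -/
  t : ℕ → CS → ℝ≥0∞
  /-- the star node: law of the number of awake children -/
  N : ℕ → ℝ≥0∞
  q_lt : ∀ h y, y < 6 → Q.q h y = T h y
  q_ge : ∀ h j, Q.q h (6 + j) = T h 6 * (1 / 2) ^ (j + 1)
  T_sum : ∀ h, ∑ z ∈ Finset.range 7, T h z = 1
  P0 : ∀ n n' z, (if n = n' ∧ z = 0 then 1 else 0) ≤ P 0 n n' z
  Ps : ∀ y, y < 6 → ∀ n n' z, z ≤ 6 → conv (P 1) (P y) n n' z ≤ P (y + 1) n n' z
  Bs : ∀ n n' z, z ≤ 6 → 1 / 2 * P 6 n n' z + 1 / 2 * conv (P 1) B n n' z ≤ B n n' z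
  Rs : ∀ n n' z, z ≤ 6 →
    1 / 5 * ((if n = n' ∧ z = 1 then 1 else 0) + Jw T P B n n' z) ≤ P 1 n n' z
  B_fin : ∀ n n' z, B n n' z ≠ ⊤
  t_ge : ∀ x n', x ≤ 6 → ¬ (x = 0 ∧ n' = 14) → P 2 0 n' x ≤ t x n'
  t_sum : ∀ x, x ≤ 6 → ∑ n', t x n' = T 0 x
  N_sum : N 1 + N 2 + N 3 + N 4 = 1
  src_t : ∀ x, x ≤ 6 → SrcOK T P B N (t x) (T 0 x) 1
  src_N : SrcOK T P B N (starN N) 1 2
  ord21 : ∀ k, 1 ≤ k → k ≤ 6 → ∑ z ∈ Finset.Icc k 6, T 2 z ≤ ∑ z ∈ Finset.Icc k 6, T 1 z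
  ord10 : ∀ k, 1 ≤ k → k ≤ 6 → (if k = 1 then 1 / 5 else 0) +
    4 / 5 * ∑ z ∈ Finset.Icc k 6, T 1 z ≤ ∑ z ∈ Finset.Icc k 6, T 0 z
  mean0 : ∑ z ∈ Finset.range 6, (z : ℝ≥0∞) * T 0 z + 7 * T 0 6 ≤ 24 / 25
  mean1 : 1 / 5 + 4 / 5 * (∑ z ∈ Finset.range 6, (z : ℝ≥0∞) * T 1 z + 7 * T 1 6) ≤ 24 / 25
  mean2 : 1 / 5 + 4 / 5 * (∑ z ∈ Finset.range 6, (z : ℝ≥0∞) * T 2 z + 7 * T 2 6) ≤ 24 / 25

end

end FT4
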