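import Pool.Agent.helper237_FT4.Defs

/-!
# Frog model on the 4-ary tree: the statements of project FT4 (helper237)

Each `S_xxx` is to be proved in its own file `T_xxx.lean` as `theorem t_xxx : S_xxx`
(other `S_yyy` may be taken as hypotheses where the project text allows it).
-/

set_option autoImplicit false

open MeasureTheory ProbabilityTheory
open scoped ENNReal BigOperators

namespace FT4

/-- path lemmas on `dep` and `exits` -/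
def S_path : Prop :=
  (∀ (r : List Rt) (p p' : ℕ) (g g' : Fin 4 → ℕ → ℕ), p ≤ p' → (∀ c k, g c k ≤ g' c k) →
    dep r p g ≤ dep r p' g' ∧ exits r p g ≤ exits r p' g') ∧
  (∀ (r : List Rt) (g : Fin 4 → ℕ → ℕ), (∀ c, g c 0 = 0) → dep r 0 g = 0 ∧ exits r 0 g = 0) ∧
  (∀ (r : List Rt) (p : ℕ) (g : Fin 4 → ℕ → ℕ),
    dep (none :: r) (p + 1) g = 1 + dep r p g ∧
    exits (none :: r) (p + 1) g = 1 + exits r p g) ∧
  (∀ (r : List Rt) (p : ℕ) (ys : Fin 4 → List ℕ) (c : Fin 4) (y : ℕ) (l : List ℕ), ys c = y :: l →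
    dep (some c :: r) (p + 1) (fun d => cum (ys d)) =
      1 + dep r (p + y) (fun d => cum (Function.update ys c l d)) ∧
    exits (some c :: r) (p + 1) (fun d => cum (ys d)) =
      exits r (p + y) (fun d => cum (Function.update ys c l d))) ∧
  (∀ (r : List Rt) (p : ℕ) (g : Fin 4 → ℕ → ℕ), dep r p g ≤ r.length ∧ exits r p g ≤ dep r p g) ∧
  (∀ (r : List Rt) (p : ℕ) (g g' : Fin 4 → ℕ → ℕ), (∀ c k, k ≤ r.length → g c k = g' c k) →
    dep r p g = dep r p g' ∧ exits r p g = exits r p g')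

/-- the three laws are probability laws -/
def Norm (Q : Par) : Prop := ∀ h, ∑' y, Q.q h y = 1

/-- basic facts on `opY`, `EY` -/
def S_ey : Prop :=
  (∀ Q : Par, Nonempty (Cert Q) → Norm Q) ∧
  (∀ (Q : Par) (h : Fin 3) (F F' : ℕ → Fin 3 → ℝ≥0∞), (∀ y h', F y h' ≤ F' y h') →
    opY Q h F ≤ opY Q h F') ∧
  (∀ (Q : Par) (h : Fin 3) (C : ℝ≥0∞), Norm Q → opY Q h (fun _ _ => C) = C) ∧
  (∀ (Q : Par) (k : ℕ) (h : Fin 3) (G G' : List ℕ → ℝ≥0∞), (∀ l, l.length = k → G l ≤ G' l) →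
    EY Q k h G ≤ EY Q k h G') ∧
  (∀ (Q : Par) (k : ℕ) (h : Fin 3) (C : ℝ≥0∞), Norm Q → EY Q k h (fun _ => C) = C)

/-- monotone in the order of cumulative sums, on lists of length `k` -/
def CMono (k : ℕ) (G : List ℕ → ℝ≥0∞) : Prop :=
  ∀ l l' : List ℕ, l.length = k → l'.length = k → (∀ j, cum l j ≤ cum l' j) → G l ≤ G l'

/-- lower levels dominate -/
def S_lev : Prop :=
  ∀ Q : Par, Nonempty (Cert Q) → ∀ (k : ℕ) (h h' : Fin 3) (G : List ℕ → ℝ≥0∞), CMono k G →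
    h' ≤ h → EY Q k h G ≤ EY Q k h' G

/-- first step decomposition -/
def S_ustep : Prop :=
  ∀ (Q : Par) (L : ℕ) (hor : Fin 4 → ℕ) (p : ℕ) (s : Fin 4 → Fin 3) (H : (ℕ → ℕ) → ℝ≥0∞),
    (∀ c, L + 1 ≤ hor c) → Norm Q →
    UL Q (L + 1) hor (p + 1) s H =
      1 / 5 * UL Q L hor p s (fun F => H (fun j => 1 + F j)) +
      ∑ c : Fin 4, 1 / 5 * opY Q (s c) (fun y h =>
        UL Q L (Function.update hor c (hor c - 1)) (p + y) (Function.update s c h) H)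

def S_uax : Prop := ∀ Q : Par, Nonempty (Cert Q) → UAx Q (UU Q)

/-- expected number of departures from the root with dominating children -/
def S_rootE : Prop :=
  ∀ Q : Par, Nonempty (Cert Q) → ∀ (L : ℕ) (hor : Fin 4 → ℕ), (∀ c, L ≤ hor c) →
    ER L (fun r => EY4 Q (fun _ => 0) hor
      (fun ys => (dep r 1 (fun c => cum (ys c)) : ℝ≥0∞))) ≤ 25

/-- decomposition at the completion of the current entry -/
def S_D : Prop :=
  ∀ (Q : Par) (U : ℕ → (Fin 4 → Fin 3) → ((ℕ → ℕ) → ℝ≥0∞) → ℝ≥0∞), Norm Q → UAx Q U →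
    ∀ (H : (ℕ → ℕ) → ℝ≥0∞) (C : ℝ≥0∞), Monotone H → (∀ F, H F ≤ C) →
    ∀ (L p : ℕ) (s : Fin 4 → Fin 3),
      U p s H ≤ (∑' x, ∑ n', Mk Q L p (cntS s) x n' * Zh U n' (fun F => H (fun j => x + F j))) +
        C * Ik Q L p (cntS s)

def S_mass : Prop :=
  ∀ Q : Par, Nonempty (Cert Q) → ∀ (L p : ℕ) (n : CS),
    (∑' x, ∑ n', Mk Q L p n x n') + Ik Q L p n = 1

def S_Ibd : Prop :=
  ∀ Q : Par, Nonempty (Cert Q) → ∀ (L p : ℕ) (n : CS), (L : ℝ≥0∞) * Ik Q L p n ≤ 25 * p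

/-- the certificate bounds the weights of the completed runs -/
def S_Wb : Prop :=
  ∀ (Q : Par) (K : Cert Q) (L : ℕ) (n n' : CS) (z : ℕ), z ≤ 6 →
    (∀ y, y ≤ 6 → wt (fun x => Mk Q L y n x n') z ≤ K.P y n n' z) ∧
    ∑' j, (1 / 2) ^ (j + 1) * wt (fun x => Mk Q L (6 + j) n x n') z ≤ K.B n n' z

/-- domination of an effective entry by law `h` and the star node -/
def S_domin : Prop :=
  ∀ (Q : Par) (K : Cert Q) (mu : CS → ℝ≥0∞) (mass : ℝ≥0∞) (h : Fin 3), mass ≠ ⊤ →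
    SrcOK K.T K.P K.B K.N mu mass h →
    ∀ (φ : ℕ → CS → ℝ≥0∞) (C : ℝ≥0∞), C ≠ ⊤ → (∀ x n, φ x n ≤ C) →
      (∀ x n, φ x n ≤ φ (x + 1) n) →
      (∀ x n, φ x n ≤ φ x (chain (4 - aN n))) →
      (∀ x e e', e ≤ e' → e' ≤ 4 → φ x (chain e') ≤ φ x (chain e)) →
    ∀ m : ℕ → CS → ℝ≥0∞, (∑' x, ∑ n', m x n' ≤ mass) →
      (∀ z n', z ≤ 6 → wt (fun x => m x n') z ≤
        ∑ n, mu n * (1 / 4 * Jw K.T K.P K.B n n' z)) →
      ∑' x, ∑ n', m x n' * φ x n' ≤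
        mass * ∑' y, Q.q h y * ∑ e ∈ Finset.Icc 1 4, K.N e * φ y (chain e)

/-- the closure theorem -/
def S_clo : Prop :=
  ∀ Q : Par, Nonempty (Cert Q) →
    ∀ U : ℕ → (Fin 4 → Fin 3) → ((ℕ → ℕ) → ℝ≥0∞) → ℝ≥0∞, UAx Q U →
    ∀ (k : ℕ) (H : (ℕ → ℕ) → ℝ≥0∞) (C : ℝ≥0∞), C ≠ ⊤ → Monotone H → (∀ F, H F ≤ C) →
      DepOn (k + 1) H →
      U 2 (fun _ => 0) (fun F => H (cons0 F)) ≤ EY Q (k + 1) 0 (fun l => H (cum l))

/-- i.i.d. uniform digits -/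
def IID {Ω : Type} [MeasurableSpace Ω] (P : Measure Ω) (ξ : Vx → ℕ → Ω → Al) : Prop :=
  (∀ v k, Measurable (ξ v k)) ∧ iIndepFun (fun p : Vx × ℕ => ξ p.1 p.2) P ∧
    (∀ v k (c : Al), P (ξ v k ⁻¹' {c}) = 1 / 20)

/-- the frog-wise and the vertex-wise readings have the same expected number of departures from
the root after `t` steps -/
def S_adapt : Prop :=
  ∀ (Ω : Type) [MeasurableSpace Ω] (P : Measure Ω) [IsProbabilityMeasure P]
    (ξ : Vx → ℕ → Ω → Al), IID P ξ → ∀ t : ℕ,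
    Measurable (fun ω => (cfg idxF (fun v k => ξ v k ω) t).dep []) ∧
    ∫⁻ ω, ((cfg idxF (fun v k => ξ v k ω) t).dep [] : ℝ≥0∞) ∂P =
      ∫⁻ ω, ((cfg idxS (fun v k => ξ v k ω) t).dep [] : ℝ≥0∞) ∂P

/-- the fair exploration finds all visits to the root -/
def S_fair : Prop :=
  ∀ (η : Vx → ℕ → Al) (S : Vx → ℕ → Vx), (∀ v, S v 0 = v) →
    (∀ v k, S v (k + 1) = mv (η v k) (S v k)) →
    ∀ B : ℕ, (∀ t, (cfg idxF η t).dep [] ≤ B) →
      Set.Finite {p : Vx × ℕ | (∀ A : Set Vx, [] ∈ A → (∀ v ∈ A, ∀ k, S v k ∈ A) → p.1 ∈ A) ∧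
        S p.1 p.2 = []}

/-- legal sequences do not exceed the least solution -/
def S_inv : Prop :=
  ∀ (η : Vx → ℕ → Al) (L t : ℕ), t ≤ L → (cfg idxS η t).dep [] ≤ droot L η

/-- law of a row of digits -/
def S_row : Prop :=
  ∀ (Ω : Type) [MeasurableSpace Ω] (P : Measure Ω) [IsProbabilityMeasure P]
    (ξ : Vx → ℕ → Ω → Al), IID P ξ → ∀ (L : ℕ) (v : Vx) (G : List Rt → ℝ≥0∞),
    ∫⁻ ω, G ((row L (fun v k => ξ v k ω) v).map route) ∂P = EA L G ∧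
    ∫⁻ ω, G ((row L (fun v k => ξ v k ω) v).map routeR) ∂P = ER L G

/-- the response of the subtree of `v` (depth `n`) is dominated by the response `EY Q · 0` -/
def Dom (Q : Par) {Ω : Type} [MeasurableSpace Ω] (P : Measure Ω) (ξ : Vx → ℕ → Ω → Al)
    (L n : ℕ) (v : Vx) : Prop :=
  ∀ (H : (ℕ → ℕ) → ℝ≥0∞) (C : ℝ≥0∞), C ≠ ⊤ → Monotone H → (∀ F, H F ≤ C) → DepOn L H →
    ∫⁻ ω, H (fv L (fun v k => ξ v k ω) n v) ∂P ≤ EY Q L 0 (fun l => H (cum l))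

/-- replacing the four children of `v` by dominating ones -/
def S_repl : Prop :=
  ∀ (Q : Par), Norm Q → ∀ (Ω : Type) [MeasurableSpace Ω] (P : Measure Ω) [IsProbabilityMeasure P]
    (ξ : Vx → ℕ → Ω → Al), IID P ξ → ∀ (L n : ℕ) (v : Vx), (∀ c, Dom Q P ξ L n (c :: v)) →
    ∀ (G : List Al → (Fin 4 → ℕ → ℕ) → ℝ≥0∞) (C : ℝ≥0∞), C ≠ ⊤ →
      (∀ r g g', (∀ c k, g c k ≤ g' c k) → G r g ≤ G r g') → (∀ r g, G r g ≤ C) →
      (∀ r g g', (∀ c k, k ≤ L → g c k = g' c k) → G r g = G r g') →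
      ∫⁻ ω, G (row L (fun v k => ξ v k ω) v)
          (fun c => fv L (fun v k => ξ v k ω) n (c :: v)) ∂P ≤
        ∫⁻ ω, EY4 Q (fun _ => 0) (fun _ => L)
          (fun ys => G (row L (fun v k => ξ v k ω) v) (fun c => cum (ys c))) ∂P

def S_dom : Prop :=
  ∀ Q : Par, Nonempty (Cert Q) →
    ∀ (Ω : Type) [MeasurableSpace Ω] (P : Measure Ω) [IsProbabilityMeasure P]
      (ξ : Vx → ℕ → Ω → Al), IID P ξ → ∀ (L n : ℕ) (v : Vx), Dom Q P ξ L n v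

def S_root : Prop :=
  ∀ Q : Par, Nonempty (Cert Q) →
    ∀ (Ω : Type) [MeasurableSpace Ω] (P : Measure Ω) [IsProbabilityMeasure P]
      (ξ : Vx → ℕ → Ω → Al), IID P ξ → ∀ L : ℕ,
      ∫⁻ ω, (droot L (fun v k => ξ v k ω) : ℝ≥0∞) ∂P ≤ 25

def S_cert : Prop := ∃ Q : Par, Nonempty (Cert Q)

/-- the final statement -/
def S_main : Prop :=
  ∀ (Ω : Type) [MeasurableSpace Ω] (P : Measure Ω) [IsProbabilityMeasure P]
    (ξ : List (Fin 4) → ℕ → Ω → Fin 4 × Fin 5),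
    (∀ v k, Measurable (ξ v k)) →
    iIndepFun (fun p : List (Fin 4) × ℕ => ξ p.1 p.2) P →
    (∀ v k (c : Fin 4 × Fin 5), P (ξ v k ⁻¹' {c}) = 1 / 20) →
    ∀ (S : List (Fin 4) → ℕ → Ω → List (Fin 4)),
    (∀ v ω, S v 0 ω = v) →
    (∀ v k ω, S v (k + 1) ω =
      if S v k ω = [] then [(ξ v k ω).1]
      else if (ξ v k ω).2 = 0 then (S v k ω).tail
      else (ξ v k ω).1 :: S v k ω) →
    ∀ᵐ ω ∂P, Set.Finite
      {p : List (Fin 4) × ℕ |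
        (∀ A : Set (List (Fin 4)), [] ∈ A →
            (∀ v ∈ A, ∀ k, S v k ω ∈ A) → p.1 ∈ A) ∧
        S p.1 p.2 ω = []}

end FT4
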