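import Pool.Agent.helper237_FT4.Stmts

/-!
# Project FT4, task `fair`: the round-robin exploration finds every visit to the root (helper613)
-/

set_option autoImplicit false

open MeasureTheory ProbabilityTheory
open scoped ENNReal BigOperators

namespace FT4

namespace fair_aux

variable (η : Vx → ℕ → Al) (S : Vx → ℕ → Vx)

/-- one step of the exploration when the head of the queue is known -/
theorem step_eq {t : ℕ} {v : Vx} {k : ℕ} {x : Vx} {r : List (Vx × ℕ × Vx)}
    (h : (cfg idxF η t).q = (v, k, x) :: r) :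
    (cfg idxF η (t + 1)).q = r ++ (v, k + 1, mv (η v k) x) ::
        (if mv (η v k) x ∈ (cfg idxF η t).vis then [] else [(mv (η v k) x, 0, mv (η v k) x)]) ∧
    (cfg idxF η (t + 1)).vis = (if mv (η v k) x ∈ (cfg idxF η t).vis then (cfg idxF η t).vis
        else mv (η v k) x :: (cfg idxF η t).vis) ∧
    (cfg idxF η (t + 1)).dep =
        Function.update (cfg idxF η t).dep x ((cfg idxF η t).dep x + 1) := by
  have h1 : cfg idxF η (t + 1) = (cfg idxF η t).step
      (η (idxF (cfg idxF η t)).1 (idxF (cfg idxF η t)).2) := rfl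
  generalize cfg idxF η t = C at h h1
  obtain ⟨q, vis, dep⟩ := C
  simp only at h
  subst h
  rw [h1]
  simp only [Cfg.step, idxF]
  refine ⟨?_, ?_, trivial⟩
  · by_cases hc : mv (η v k) x ∈ vis <;> simp [hc]
  · by_cases hc : mv (η v k) x ∈ vis <;> simp [hc]

/-- the queue is never empty -/
theorem q_ne (t : ℕ) : ∃ v k x r, (cfg idxF η t).q = (v, k, x) :: r := by
  induction t with
  | zero => exact ⟨[], 0, [], [], rfl⟩
  | succ t ih =>
    obtain ⟨v, k, x, r, h⟩ := ih
    have h1 := (step_eq η h).1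
    rw [h1]
    cases r with
    | nil => exact ⟨_, _, _, _, rfl⟩
    | cons e r' => obtain ⟨v', k', x'⟩ := e; exact ⟨v', k', x', _, rfl⟩

/-- the recorded position is the position of the walk -/
theorem pos_eq (hS0 : ∀ v, S v 0 = v) (hS : ∀ v k, S v (k + 1) = mv (η v k) (S v k)) (t : ℕ) :
    ∀ e ∈ (cfg idxF η t).q, e.2.2 = S e.1 e.2.1 := by
  induction t with
  | zero =>
    intro e he
    have he' : e ∈ [(([] : Vx), (0 : ℕ), ([] : Vx))] := he
    rw [List.mem_singleton] at he'
    subst he'
    exact (hS0 []).symm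
  | succ t ih =>
    obtain ⟨v, k, x, r, h⟩ := q_ne η t
    have h1 := (step_eq η h).1
    intro e he
    rw [h1, List.mem_append, List.mem_cons] at he
    rcases he with he | he | he
    · exact ih e (by rw [h]; exact List.mem_cons_of_mem _ he)
    · subst he
      have hx : x = S v k := ih (v, k, x) (by rw [h]; exact List.mem_cons_self)
      show mv (η v k) x = S v (k + 1)
      rw [hS, hx]
    · split_ifs at he with hc
      · simp at he
      · rw [List.mem_singleton] at he
        subst he
        exact (hS0 _).symm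

/-- an entry of the queue arrives at the head -/
theorem to_head (e : Vx × ℕ × Vx) (i : ℕ) : ∀ t, (cfg idxF η t).q[i]? = some e →
    ∃ t' r, (cfg idxF η t').q = e :: r := by
  induction i with
  | zero =>
    intro t h
    obtain ⟨v, k, x, r, hq⟩ := q_ne η t
    rw [hq] at h
    refine ⟨t, r, ?_⟩
    rw [hq]
    simpa using h
  | succ i ih =>
    intro t h
    obtain ⟨v, k, x, r, hq⟩ := q_ne η t
    rw [hq, List.getElem?_cons_succ] at h
    refine ih (t + 1) ?_
    rw [(step_eq η hq).1]
    have hi : i < r.length := by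
      by_contra hc
      rw [List.getElem?_eq_none (by omega)] at h
      simp at h
    rw [List.getElem?_append_left hi]
    exact h

theorem to_head' {e : Vx × ℕ × Vx} {t : ℕ} (h : e ∈ (cfg idxF η t).q) :
    ∃ t' r, (cfg idxF η t').q = e :: r := by
  obtain ⟨i, hi⟩ := List.mem_iff_getElem?.mp h
  exact to_head η e i t hi

/-- a frog whose time `0` entry was in the queue is processed at every time -/
theorem all_times (hS0 : ∀ v, S v 0 = v) (hS : ∀ v k, S v (k + 1) = mv (η v k) (S v k)) (v : Vx)
    (hv : ∃ t, (v, 0, v) ∈ (cfg idxF η t).q) (k : ℕ) :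
    ∃ t r, (cfg idxF η t).q = (v, k, S v k) :: r := by
  induction k with
  | zero =>
    obtain ⟨t, ht⟩ := hv
    obtain ⟨t', r, h⟩ := to_head' η ht
    exact ⟨t', r, by rw [h, hS0]⟩
  | succ k ih =>
    obtain ⟨t, r, h⟩ := ih
    have h1 := (step_eq η h).1
    refine to_head' η (e := (v, k + 1, S v (k + 1))) (t := t + 1) ?_
    rw [h1, hS]
    simp

/-- a visited vertex had its frog put into the queue -/
theorem vis_q (t : ℕ) : ∀ v ∈ (cfg idxF η t).vis, ∃ t', (v, 0, v) ∈ (cfg idxF η t').q := by
  induction t with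
  | zero =>
    intro v hv
    have hv' : v ∈ [([] : Vx)] := hv
    rw [List.mem_singleton] at hv'
    subst hv'
    exact ⟨0, by show _ ∈ [(([] : Vx), (0 : ℕ), ([] : Vx))]; simp⟩
  | succ t ih =>
    obtain ⟨v, k, x, r, h⟩ := q_ne η t
    obtain ⟨h1, h2, _⟩ := step_eq η h
    intro w hw
    rw [h2] at hw
    split_ifs at hw with hc
    · exact ih w hw
    · rw [List.mem_cons] at hw
      rcases hw with hw | hw
      · refine ⟨t + 1, ?_⟩
        rw [h1, if_neg hc, hw]
        simp
      · exact ih w hw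

open Classical in
/-- the number of departures from the root -/
theorem dep_card (t : ℕ) : (cfg idxF η t).dep [] =
    ((Finset.range t).filter (fun i => ∃ v k r, (cfg idxF η i).q = (v, k, []) :: r)).card := by
  induction t with
  | zero => simp [cfg, Cfg.init]
  | succ t ih =>
    obtain ⟨v, k, x, r, h⟩ := q_ne η t
    obtain ⟨_, _, h3⟩ := step_eq η h
    rw [h3, Finset.range_add_one, Finset.filter_insert]
    by_cases hx : x = []
    · subst hx
      rw [if_pos ⟨v, k, r, h⟩, Finset.card_insert_of_notMem (by simp), Function.update_self, ih]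
    · rw [if_neg, Function.update_of_ne (Ne.symm hx), ih]
      rintro ⟨v', k', r', h'⟩
      rw [h] at h'
      simp only [List.cons.injEq, Prod.mk.injEq] at h'
      exact hx h'.1.2.2

end fair_aux

open fair_aux in
/-- the fair exploration finds all visits to the root -/
theorem t_fair : S_fair := by
  classical
  intro η S hS0 hS B hB
  -- every woken vertex is visited
  have hwake : ∀ v : Vx, (∀ A : Set Vx, [] ∈ A → (∀ v ∈ A, ∀ k, S v k ∈ A) → v ∈ A) →
      ∃ t, v ∈ (cfg idxF η t).vis := by
    intro v hv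
    refine hv {w | ∃ t, w ∈ (cfg idxF η t).vis} ⟨0, ?_⟩ ?_
    · show _ ∈ [([] : Vx)]
      simp
    · rintro w ⟨t, hw⟩ k
      cases k with
      | zero => exact ⟨t, by rw [hS0]; exact hw⟩
      | succ k =>
        obtain ⟨t', r, h⟩ := all_times η S hS0 hS w (vis_q η t w hw) k
        obtain ⟨_, h2, _⟩ := step_eq η h
        refine ⟨t' + 1, ?_⟩
        rw [h2, hS]
        split_ifs with hc
        · exact hc
        · exact List.mem_cons_self
  have hproc : ∀ p : Vx × ℕ, ((∀ A : Set Vx, [] ∈ A → (∀ v ∈ A, ∀ k, S v k ∈ A) → p.1 ∈ A) ∧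
      S p.1 p.2 = []) → ∃ t r, (cfg idxF η t).q = (p.1, p.2, []) :: r := by
    rintro p ⟨h1, h2⟩
    obtain ⟨t, ht⟩ := hwake p.1 h1
    obtain ⟨t', r, h⟩ := all_times η S hS0 hS p.1 (vis_q η t p.1 ht) p.2
    exact ⟨t', r, by rw [h, h2]⟩
  by_contra hinf
  obtain ⟨F, hF, hFc⟩ := Set.Infinite.exists_subset_card_eq hinf (B + 1)
  have hF' : ∀ p : Vx × ℕ, p ∈ F → ∃ t r, (cfg idxF η t).q = (p.1, p.2, []) :: r :=
    fun p hp => hproc p (hF hp)
  choose! τ hτ using hF'
  have hinj : Set.InjOn τ F := by
    intro p hp p' hp' hpp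
    obtain ⟨r, h⟩ := hτ p hp
    obtain ⟨r', h'⟩ := hτ p' hp'
    rw [hpp, h'] at h
    simp only [List.cons.injEq, Prod.mk.injEq] at h
    exact Prod.ext h.1.1.symm h.1.2.1.symm
  have hsub : F.image τ ⊆ (Finset.range (F.sup τ + 1)).filter
      (fun i => ∃ v k r, (cfg idxF η i).q = (v, k, []) :: r) := by
    intro i hi
    obtain ⟨p, hp, rfl⟩ := Finset.mem_image.mp hi
    rw [Finset.mem_filter, Finset.mem_range]
    obtain ⟨r, h⟩ := hτ p hp
    exact ⟨Nat.lt_succ_of_le (Finset.le_sup hp), p.1, p.2, r, h⟩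
  have h1 := Finset.card_le_card hsub
  rw [Finset.card_image_of_injOn hinj, hFc, ← dep_card η] at h1
  have h2 := hB (F.sup τ + 1)
  omega

end FT4
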