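import Pool.Agent.helper237_FT4.Stmts

/-!
# FT4: `S_path` (helper27)
-/

set_option autoImplicit false

open MeasureTheory ProbabilityTheory
open scoped ENNReal BigOperators

namespace FT4

namespace path_aux

theorem ups_mono (r : List Rt) {u v : ℕ} (h : u ≤ v) : ups r u ≤ ups r v := by
  unfold ups
  exact ((List.take_prefix_take_left (l := r) h).sublist).count_le _

theorem ups_le (r : List Rt) (u : ℕ) : ups r u ≤ u := by
  unfold ups
  exact (List.count_le_length).trans (by simp)

theorem cntc_le (c : Fin 4) (r : List Rt) (u : ℕ) : cntc c r u ≤ r.length := by
  unfold cntc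
  exact (List.count_le_length).trans (by simp)

theorem dep_shift (r r' : List Rt) (p p' : ℕ) (g g' : Fin 4 → ℕ → ℕ)
    (hl : r'.length = r.length + 1) (hp : 0 < p')
    (ht : ∀ u, tot r' p' g' (u + 1) = tot r p g u + 1) :
    dep r' p' g' = 1 + dep r p g := by
  have h2 : ∃ n, r'.length ≤ n + 1 ∨ tot r' p' g' (n + 1) ≤ n + 1 :=
    ⟨r'.length, Or.inl (by omega)⟩
  have h0 : ¬ (r'.length ≤ 0 ∨ tot r' p' g' 0 ≤ 0) := by
    rintro (h | h)
    · omega
    · unfold tot at h
      omega
  unfold dep
  rw [Nat.find_comp_succ (dep_ex r' p' g') h2 h0, add_comm]
  congr 1
  apply Nat.find_congr'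
  intro n
  rw [hl, ht]
  constructor
  · rintro (h | h)
    · left; omega
    · right; omega
  · rintro (h | h)
    · left; omega
    · right; omega

end path_aux

open path_aux in
theorem t_path : S_path := by
  refine ⟨?_, ?_, ?_, ?_, ?_, ?_⟩
  · intro r p p' g g' hp hg
    have h : dep r p g ≤ dep r p' g' := by
      unfold dep
      apply Nat.find_mono
      rintro n (h | h)
      · exact Or.inl h
      · refine Or.inr (le_trans ?_ h)
        unfold tot
        exact add_le_add hp (Finset.sum_le_sum fun c _ => hg c _)
    exact ⟨h, ups_mono r h⟩
  · intro r g hg
    have h : dep r 0 g = 0 := by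
      unfold dep
      rw [Nat.find_eq_zero]
      right
      simp [tot, cntc, hg]
    refine ⟨h, ?_⟩
    unfold exits
    rw [h]
    simp [ups]
  · intro r p g
    have h : dep (none :: r) (p + 1) g = 1 + dep r p g := by
      apply dep_shift
      · simp
      · omega
      · intro u
        simp only [tot, cntc, List.take_succ_cons, List.count_cons]
        simp
        ring
    refine ⟨h, ?_⟩
    unfold exits
    rw [h, add_comm 1 (dep r p g)]
    simp only [ups, List.take_succ_cons, List.count_cons]
    simp
    ring
  · intro r p ys c y l hc
    have h : dep (some c :: r) (p + 1) (fun d => cum (ys d)) =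
      1 + dep r (p + y) (fun d => cum (Function.update ys c l d)) := by
      apply dep_shift
      · simp
      · omega
      · intro u
        have e : ∀ d : Fin 4, cum (ys d) (cntc d (some c :: r) (u + 1)) =
            cum (Function.update ys c l d) (cntc d r u) + if d = c then y else 0 := by
          intro d
          by_cases hd : d = c
          · subst hd
            simp only [cntc, List.take_succ_cons, List.count_cons, hc, cum,
              Function.update_self]
            simp
            ring
          · have hd' : ¬ c = d := fun h => hd h.symm
            simp [cntc, List.count_cons, Function.update_of_ne hd, hd, hd']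
        simp only [tot, e, Finset.sum_add_distrib]
        simp
        ring
    refine ⟨h, ?_⟩
    unfold exits
    rw [h, add_comm 1 (dep r _ _)]
    simp only [ups, List.take_succ_cons, List.count_cons]
    simp
  · intro r p g
    refine ⟨Nat.find_min' _ (Or.inl le_rfl), ?_⟩
    unfold exits
    exact ups_le _ _
  · intro r p g g' hg
    have h : dep r p g = dep r p g' := by
      unfold dep
      apply Nat.find_congr'
      intro n
      have : tot r p g n = tot r p g' n := by
        unfold tot
        congr 1
        exact Finset.sum_congr rfl fun c _ => hg c _ (cntc_le c r n)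
      rw [this]
    refine ⟨h, ?_⟩
    unfold exits
    rw [h]

end FT4
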